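import Mathlib

set_option autoImplicit false

namespace Pool.MP01f3ee

open Finset

/-- `cc j m` is the coefficient of `z^m` in `(1-z)^{-(j+1)} e^{-z}`. -/
def cc (j m : ℕ) : ℚ :=
  ∑ i ∈ range (m + 1), (-1 : ℚ) ^ i / (i.factorial : ℚ) * (((j + (m - i)).choose (m - i) : ℕ) : ℚ)

/-- The formal functional equation `B(z) = B(z/(1-z)) (1-z)^{-1} e^{-z}`. -/
def FormalB (b : ℕ → ℚ) : Prop :=
  b 0 = 1 ∧ ∀ k, ∑ j ∈ range (k + 1), b j * cc j (k - j) = b k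

/-- The formal identity `∑ φ_a z^a B^a = B`. -/
def FormalPhi (b φ : ℕ → ℚ) : Prop :=
  ∀ k, ∑ a ∈ range (k + 1), φ a * (PowerSeries.coeff (k - a)) ((PowerSeries.mk b) ^ a) = b k

/-- `φ_a` is `p`-integral for `a < p - 1` and `φ_{p-1}` is not. -/
def PadicPhi (φ : ℕ → ℚ) : Prop :=
  ∀ p : ℕ, p.Prime → (∀ a, a < p - 1 → ¬ p ∣ (φ a).den) ∧ p ∣ (φ (p - 1)).den

def PhiStmt : Prop :=
  ∃ b φ : ℕ → ℚ, FormalB b ∧ FormalPhi b φ ∧ PadicPhi φ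

/-- `exp (γ - H_n) = z B_R(z) + O(z^{R+2})`, `z = 1/n`. -/
def AsymB (b : ℕ → ℚ) : Prop :=
  ∀ R : ℕ, ∃ C : ℝ, ∀ n : ℕ, 1 ≤ n →
    |Real.exp (Real.eulerMascheroniConstant - (harmonic n : ℝ)) -
      (1 / (n : ℝ)) * ∑ j ∈ range (R + 1), (b j : ℝ) * (1 / (n : ℝ)) ^ j| ≤
      C * (1 / (n : ℝ)) ^ (R + 2)

/-- `n = ∑_{a ≤ R} φ_a y^{1-a} + O(y^{-R})`, `y = exp (H_n - γ)`. -/
def AsymPhi (φ : ℕ → ℚ) : Prop :=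
  ∀ R : ℕ, ∃ C : ℝ, ∀ n : ℕ, 1 ≤ n →
    |(n : ℝ) - ∑ a ∈ range (R + 1), (φ a : ℝ) *
        Real.exp ((1 - (a : ℝ)) * ((harmonic n : ℝ) - Real.eulerMascheroniConstant))| ≤
      C * Real.exp (-(R : ℝ) * ((harmonic n : ℝ) - Real.eulerMascheroniConstant))

def Asym1Stmt : Prop := ∀ b : ℕ → ℚ, FormalB b → AsymB b

def Asym2Stmt : Prop := ∀ b φ : ℕ → ℚ, FormalB b → FormalPhi b φ → AsymB b → AsymPhi φ

/-- `e` is transcendental. -/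
def TransStmt : Prop := ∀ P : Polynomial ℤ, P ≠ 0 → Polynomial.aeval (Real.exp 1) P ≠ 0

/-- Lower bound for short integer combinations of integral powers of `e`. -/
def LowerStmt : Prop :=
  ∀ s H : ℕ, ∃ κ : ℝ, 0 < κ ∧ ∀ (S : Finset ℤ) (c : ℤ → ℤ) (m : ℤ), S.card ≤ s →
    (∀ a ∈ S, |c a| ≤ (H : ℤ)) → (∀ a ∈ S, m ≤ a) → (∃ a ∈ S, c a ≠ 0) →
    κ * Real.exp (m : ℝ) ≤ |∑ a ∈ S, (c a : ℝ) * Real.exp (a : ℝ)|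

/-- The algebraic data of section 4 of the blueprint. -/
structure AlgData (ι Γ F : Type) [Fintype ι] [AddCommGroup Γ] [CommRing F] [Algebra ℚ F] where
  lev : Γ →+ ℤ
  x : ι → Γ
  lev_x : ∀ i, lev (x i) = 1
  φ : ℕ → ℚ
  O : ℤ → AddSubgroup F
  mono : Monotone O
  one_mem : (1 : F) ∈ O 0
  mul_mem : ∀ {s t : ℤ} {a b : F}, a ∈ O s → b ∈ O t → a * b ∈ O (s + t)
  smul_mem : ∀ (q : ℚ) {s : ℤ} {a : F}, a ∈ O s → q • a ∈ O s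
  ev : AddMonoidAlgebra ℚ Γ →ₐ[ℚ] F
  ev_mem : ∀ γ : Γ, ev (AddMonoidAlgebra.single γ 1) ∈ O (lev γ)
  lt : ∀ (f : AddMonoidAlgebra ℚ Γ) (s : ℤ), ev f ∈ O s → ∀ γ : Γ, f.coeff γ ≠ 0 → lev γ ≤ s
  n : ι → F
  hn : ∀ (i : ι) (R : ℕ), n i - ev (∑ a ∈ range (R + 1),
    AddMonoidAlgebra.single ((1 - (a : ℤ)) • x i) (φ a)) ∈ O (-(R : ℤ))
  hint : ∀ P : MvPolynomial ι ℤ, MvPolynomial.aeval n P ∈ O (-1) → MvPolynomial.aeval n P = 0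
  hne : (1 : F) ≠ 0

/-- Taylor expansion in a filtered commutative ring. -/
def TaylorStmt : Prop :=
  ∀ (ι R : Type) [Fintype ι] [DecidableEq ι] [CommRing R] (O : ℤ → AddSubgroup R),
    Monotone O → (1 : R) ∈ O 0 → (∀ {s t : ℤ} {a b : R}, a ∈ O s → b ∈ O t → a * b ∈ O (s + t)) →
    ∀ (a b : ι → R) (s : ℤ), s ≤ 1 → (∀ i, a i ∈ O 1) → (∀ i, b i ∈ O s) →
    ∀ (P : MvPolynomial ι ℤ) (D : ℕ), P.totalDegree ≤ D →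
      MvPolynomial.aeval a P ∈ O (D : ℤ) ∧
      MvPolynomial.aeval (a + b) P - MvPolynomial.aeval a P ∈ O ((D : ℤ) - 1 + s) ∧
      MvPolynomial.aeval (a + b) P - MvPolynomial.aeval a P
        - ∑ i, MvPolynomial.aeval a (MvPolynomial.pderiv i P) * b i ∈ O ((D : ℤ) - 2 + 2 * s)

/-- Dimension count: a linear relation gives an algebraic relation. -/
def AlgDStmt : Prop :=
  ∀ (ι Γ F : Type) [Fintype ι] [DecidableEq ι] [AddCommGroup Γ] [CommRing F] [Algebra ℚ F]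
    (A : AlgData ι Γ F) (ρ : ι → ℤ), (∃ i, ρ i ≠ 0) → ∑ i, ρ i • A.x i = 0 →
    ∃ P : MvPolynomial ι ℤ, P ≠ 0 ∧ MvPolynomial.aeval A.n P = 0

/-- The `p`-adic argument: there is no algebraic relation. -/
def AlgPStmt : Prop :=
  ∀ (ι Γ F : Type) [Fintype ι] [DecidableEq ι] [AddCommGroup Γ] [CommRing F] [Algebra ℚ F]
    (A : AlgData ι Γ F), PadicPhi A.φ →
    (∀ i j, i ≠ j → ∀ k : ℕ, 0 < k → k • A.x i ≠ k • A.x j) →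
    ∀ P : MvPolynomial ι ℤ, P ≠ 0 → MvPolynomial.aeval A.n P ≠ 0

/-- The core statement: no linear relation of a fixed shape between integers `t_i` such that
`H_{n_i} - α` is very close to `t_i`. -/
def CoreStmt : Prop :=
  ∀ (r : ℕ) (ρ : Fin r → ℤ), (∃ i, ρ i ≠ 0) → ∑ i, ρ i = 0 → ∃ K : ℕ, 1 ≤ K ∧
    ∀ (α Y : ℝ) (t : Fin r → ℤ) (n : Fin r → ℕ), 0 ≤ α → α ≤ 1 → (K : ℝ) ≤ Y →
      Function.Injective t → (∀ i, Y ≤ t i) → (∀ i, (t i : ℝ) ≤ (1 + 1 / (K : ℝ)) * Y) →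
      (∀ i, 1 ≤ n i) → (∀ i, |(harmonic (n i) : ℝ) - α - t i| ≤ 1 / (n i : ℝ) ^ K) →
      ∑ i, ρ i * t i ≠ 0

/-- A sequence of counterexamples to the core statement. -/
structure SeqData (r : ℕ) where
  α : ℕ → ℝ
  Y : ℕ → ℝ
  t : ℕ → Fin r → ℤ
  n : ℕ → Fin r → ℕ
  hα0 : ∀ K : ℕ, 0 ≤ α K
  hα1 : ∀ K : ℕ, α K ≤ 1
  hY : ∀ K : ℕ, ((K : ℝ) + 1) ≤ Y K
  hinj : ∀ K : ℕ, Function.Injective (t K)
  hlo : ∀ (K : ℕ) (i : Fin r), Y K ≤ t K i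
  hhi : ∀ (K : ℕ) (i : Fin r), (t K i : ℝ) ≤ (1 + 1 / ((K : ℝ) + 1)) * Y K
  hn1 : ∀ (K : ℕ) (i : Fin r), 1 ≤ n K i
  hnear : ∀ (K : ℕ) (i : Fin r), |(harmonic (n K i) : ℝ) - α K - t K i| ≤ 1 / (n K i : ℝ) ^ (K + 1)

/-- `L δ K = ∑ δ_i (t_i + α - γ)`, the logarithm of the monomial `y^δ`. -/
noncomputable def SeqData.L {r : ℕ} (D : SeqData r) (δ : Fin r → ℤ) (K : ℕ) : ℝ :=
  ∑ i, (δ i : ℝ) * ((D.t K i : ℝ) + D.α K - Real.eulerMascheroniConstant)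

/-- Lower bound for the value of a Laurent polynomial along a sequence of counterexamples:
the top level part dominates and does not cancel. -/
def SeqLtStmt : Prop :=
  ∀ (r : ℕ) (D : SeqData r) (I : Finset (Fin r → ℤ)) (c : (Fin r → ℤ) → ℚ) (e : ℤ),
    (∃ δ ∈ I, c δ ≠ 0 ∧ ∑ i, δ i = e) → (∀ δ ∈ I, c δ ≠ 0 → ∑ i, δ i ≤ e) →
    (∀ δ ∈ I, ∀ δ' ∈ I, δ ≠ δ' → ∑ i, δ i = ∑ i, δ' i →
      ∀ᶠ K in (Filter.hyperfilter ℕ : Filter ℕ), ∑ i, δ i * D.t K i ≠ ∑ i, δ' i * D.t K i) →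
    ∀ η : ℝ, 0 < η → ∀ᶠ K in (Filter.hyperfilter ℕ : Filter ℕ),
      Real.exp (((e : ℝ) - η) * D.Y K) ≤ |∑ δ ∈ I, (c δ : ℝ) * Real.exp (D.L δ K)|

/-- The approximation of `n_i` by the truncated expansion along a sequence of counterexamples. -/
def SeqApxStmt : Prop :=
  ∀ (r : ℕ) (D : SeqData r) (φ : ℕ → ℚ), AsymPhi φ → ∀ (i : Fin r) (R : ℕ) (η : ℝ), 0 < η →
    ∀ᶠ K in (Filter.atTop : Filter ℕ),
      |(D.n K i : ℝ) - ∑ a ∈ range (R + 1), (φ a : ℝ) *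
        Real.exp ((1 - (a : ℝ)) * ((D.t K i : ℝ) + D.α K - Real.eulerMascheroniConstant))| ≤
      Real.exp ((-(R : ℝ) + η) * D.Y K)

/-- Upper bound for monomials along a sequence of counterexamples. -/
def SeqUpStmt : Prop :=
  ∀ (r : ℕ) (D : SeqData r) (δ : Fin r → ℤ) (η : ℝ), 0 < η →
    ∀ᶠ K in (Filter.atTop : Filter ℕ),
      Real.exp (D.L δ K) ≤ Real.exp (((∑ i, δ i : ℤ) + η) * D.Y K)

/-- The window count. -/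
def WindowStmt : Prop :=
  ∀ h : ℕ, 1 ≤ h → ∃ C : ℝ, ∀ (S : Finset ℤ) (Y : ℝ), 1 ≤ Y →
    (∀ t ∈ S, 0 ≤ t ∧ (t : ℝ) ≤ 2 * Y) →
    (∀ A B : Finset ℤ, A ⊆ S → B ⊆ S → Disjoint A B → A.card = B.card → 1 ≤ A.card → A.card ≤ h →
      ∑ a ∈ A, a ≠ ∑ b ∈ B, b) →
    (S.card : ℝ) ≤ C * Y ^ (1 / (h : ℝ))

/-- The near-integer count. -/
def NearStmt : Prop :=
  ∀ ε : ℝ, 0 < ε → ∃ (K : ℕ) (C : ℝ), ∀ α : ℝ, 0 ≤ α → α ≤ 1 → ∀ x : ℕ, 2 ≤ x →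
    (({n : ℕ | 1 ≤ n ∧ n ≤ x ∧ ∃ T : ℤ, |(harmonic n : ℝ) - α - T| ≤ 1 / (n : ℝ) ^ K} : Set ℕ).ncard : ℝ) ≤
      C * Real.log x ^ ε

/-- Exceptional integers. -/
def Exceptional (n : ℕ) : Prop :=
  2 ≤ n ∧
      ((((Finset.Icc 2 n).lcm id : ℕ) : ℤ) ∣
          (∑ k ∈ Finset.Icc 2 n, ((((Finset.Icc 2 n).lcm id) / k : ℕ) : ℤ)) + 1 ∨
        (((Finset.Icc 2 n).lcm id : ℕ) : ℤ) ∣
          (∑ k ∈ Finset.Icc 2 n, ((((Finset.Icc 2 n).lcm id) / k : ℕ) : ℤ)) - 1)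

/-- Exceptional integers are extremely close to integers. -/
def ExcStmt : Prop :=
  ∀ K : ℕ, ∃ N : ℕ, ∀ n : ℕ, N ≤ n → Exceptional n →
    ∃ T : ℤ, |(harmonic n : ℝ) - 0 - T| ≤ 1 / (n : ℝ) ^ K

end Pool.MP01f3ee
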