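import Mathlib
import Pool.Agent.Lib.MP_01f3ee_nt.Defs

/-!
# MP_01f3ee_nt, module ALGD: the dimension count gives an algebraic relation
-/

set_option autoImplicit false

namespace Pool.MP01f3ee

open Finset

namespace AlgD

set_option linter.unusedSectionVars false

variable {ι Γ F : Type} [Fintype ι] [DecidableEq ι] [AddCommGroup Γ] [CommRing F] [Algebra ℚ F]

/-- the truncated expansion of `n_i` -/
noncomputable def Nn (A : AlgData ι Γ F) (D : ℕ) (i : ι) : AddMonoidAlgebra ℚ Γ :=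
  ∑ a ∈ range (D + 1), AddMonoidAlgebra.single ((1 - (a : ℤ)) • A.x i) (A.φ a)

/-- all elements of the support are `∑ (β_i - a_i) x_i` with `a_i ≥ 0` -/
def Sp (A : AlgData ι Γ F) (β : ι → ℕ) (f : AddMonoidAlgebra ℚ Γ) : Prop :=
  ∀ γ : Γ, f.coeff γ ≠ 0 → ∃ a : ι → ℕ, γ = ∑ i, ((β i : ℤ) - (a i : ℤ)) • A.x i

theorem sp_one (A : AlgData ι Γ F) : Sp A 0 1 := by
  classical
  intro γ hγ
  have h1 : γ ∈ (1 : AddMonoidAlgebra ℚ Γ).coeff.support := Finsupp.mem_support_iff.mpr hγ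
  rw [AddMonoidAlgebra.one_def, AddMonoidAlgebra.coeff_single] at h1
  have h2 := Finsupp.support_single_subset h1
  rw [mem_singleton] at h2
  exact ⟨0, by simp [h2]⟩

theorem sp_mul {A : AlgData ι Γ F} {β β' : ι → ℕ} {f g : AddMonoidAlgebra ℚ Γ}
    (hf : Sp A β f) (hg : Sp A β' g) : Sp A (β + β') (f * g) := by
  classical
  intro γ hγ
  have h1 : γ ∈ (f * g).coeff.support := Finsupp.mem_support_iff.mpr hγ
  have h2 := AddMonoidAlgebra.support_coeff_mul_subset f g h1
  obtain ⟨γ1, h3, γ2, h4, rfl⟩ := Finset.mem_add.mp h2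
  obtain ⟨a, ha⟩ := hf γ1 (Finsupp.mem_support_iff.mp h3)
  obtain ⟨a', ha'⟩ := hg γ2 (Finsupp.mem_support_iff.mp h4)
  refine ⟨a + a', ?_⟩
  rw [ha, ha', ← sum_add_distrib]
  refine sum_congr rfl fun i _ => ?_
  rw [← add_smul]
  congr 1
  simp only [Pi.add_apply]
  push_cast
  ring

theorem sp_pow {A : AlgData ι Γ F} {β : ι → ℕ} {f : AddMonoidAlgebra ℚ Γ} (hf : Sp A β f) (k : ℕ) :
    Sp A (k • β) (f ^ k) := by
  induction k with
  | zero => rw [zero_smul, pow_zero]; exact sp_one A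
  | succ k ih =>
    rw [succ_nsmul, pow_succ]
    exact sp_mul ih hf

theorem sp_prod {A : AlgData ι Γ F} (s : Finset ι) (β : ι → ι → ℕ)
    (f : ι → AddMonoidAlgebra ℚ Γ) (hf : ∀ i ∈ s, Sp A (β i) (f i)) :
    Sp A (∑ i ∈ s, β i) (∏ i ∈ s, f i) := by
  induction s using Finset.induction_on with
  | empty => rw [sum_empty, prod_empty]; exact sp_one A
  | insert j s hj ih =>
    rw [sum_insert hj, prod_insert hj]
    exact sp_mul (hf j (mem_insert_self j s)) (ih fun i hi => hf i (mem_insert_of_mem hi))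

theorem sp_Nn (A : AlgData ι Γ F) (D : ℕ) (i : ι) : Sp A (Pi.single i 1) (Nn A D i) := by
  classical
  intro γ hγ
  unfold Nn at hγ
  rw [AddMonoidAlgebra.coeff_sum, Finsupp.finsetSum_apply] at hγ
  obtain ⟨a, -, ha⟩ := exists_ne_zero_of_sum_ne_zero hγ
  rw [AddMonoidAlgebra.coeff_single, Finsupp.single_apply] at ha
  have h1 : (1 - (a : ℤ)) • A.x i = γ := by
    by_contra hne
    rw [if_neg hne] at ha
    exact ha rfl
  refine ⟨Pi.single i a, ?_⟩
  rw [sum_eq_single i]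
  · simp [h1]
  · intro j _ hj
    simp [Pi.single_eq_of_ne hj]
  · intro h; exact absurd (mem_univ i) h

/-- the product with exponents `β` -/
noncomputable def Pr (A : AlgData ι Γ F) (D : ℕ) (β : ι → ℕ) : AddMonoidAlgebra ℚ Γ :=
  ∏ i, Nn A D i ^ β i

theorem sp_Pr (A : AlgData ι Γ F) (D : ℕ) (β : ι → ℕ) : Sp A β (Pr A D β) := by
  have h := sp_prod (A := A) univ (fun i => β i • Pi.single i 1) (fun i => Nn A D i ^ β i)
    (fun i _ => sp_pow (sp_Nn A D i) (β i))
  have e : ∑ i, β i • (Pi.single i 1 : ι → ℕ) = β := by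
    ext j
    rw [Finset.sum_apply]
    simp [Pi.single_apply]
  rw [e] at h
  exact h

theorem ev_mem_of_level (A : AlgData ι Γ F) (f : AddMonoidAlgebra ℚ Γ) (s : ℤ)
    (h : ∀ γ, f.coeff γ ≠ 0 → A.lev γ ≤ s) : A.ev f ∈ A.O s := by
  have e : f = ∑ γ ∈ f.coeff.support, (f.coeff γ) • AddMonoidAlgebra.single γ (1 : ℚ) := by
    have h1 := AddMonoidAlgebra.sum_coeff_single f
    conv_lhs => rw [← h1]
    unfold Finsupp.sum
    refine sum_congr rfl fun γ _ => ?_
    rw [AddMonoidAlgebra.smul_single, smul_eq_mul, mul_one]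
  rw [e, map_sum]
  refine AddSubgroup.sum_mem _ fun γ hγ => ?_
  rw [map_smul]
  exact A.smul_mem _ (A.mono (h γ (Finsupp.mem_support_iff.mp hγ)) (A.ev_mem γ))

theorem lev_sum (A : AlgData ι Γ F) (c : ι → ℤ) : A.lev (∑ i, c i • A.x i) = ∑ i, c i := by
  rw [map_sum]
  refine sum_congr rfl fun i _ => ?_
  rw [map_zsmul, A.lev_x, smul_eq_mul, mul_one]

theorem ev_Nn_mem (A : AlgData ι Γ F) (D : ℕ) (i : ι) : A.ev (Nn A D i) ∈ A.O 1 := by
  refine ev_mem_of_level A _ 1 fun γ hγ => ?_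
  obtain ⟨a, ha⟩ := sp_Nn A D i γ hγ
  rw [ha, lev_sum, sum_sub_distrib]
  have h1 : ∑ j, (((Pi.single i 1 : ι → ℕ) j : ℕ) : ℤ) = 1 := by
    rw [← Nat.cast_sum, sum_pi_single']
    simp
  have h2 : 0 ≤ ∑ j, (a j : ℤ) := sum_nonneg fun _ _ => Int.natCast_nonneg _
  linarith

/-- the box of reduced coefficient vectors -/
noncomputable def bx (ρ : ι → ℤ) (i₀ : ι) (K : ℕ) : Finset (ι → ℤ) :=
  Fintype.piFinset fun i => if i = i₀ then Finset.Ico 0 |ρ i₀| else Finset.Icc (-(K : ℤ)) K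

theorem card_bx (ρ : ι → ℤ) (i₀ : ι) (K : ℕ) :
    (bx ρ i₀ K).card = (ρ i₀).natAbs * (2 * K + 1) ^ (Fintype.card ι - 1) := by
  unfold bx
  rw [Fintype.card_piFinset, ← mul_prod_erase univ _ (mem_univ i₀), if_pos rfl, Int.card_Ico]
  congr 1
  · rw [Int.abs_eq_natAbs]; omega
  · have h : ∀ i ∈ univ.erase i₀, (if i = i₀ then Finset.Ico 0 |ρ i₀|
        else Finset.Icc (-(K : ℤ)) K).card = 2 * K + 1 := by
      intro i hi
      rw [if_neg (ne_of_mem_erase hi), Int.card_Icc]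
      omega
    rw [prod_congr rfl h, prod_const, card_erase_of_mem (mem_univ i₀), card_univ]

theorem reduce (A : AlgData ι Γ F) (ρ : ι → ℤ) (i₀ : ι) (hρ : ρ i₀ ≠ 0)
    (hrel : ∑ i, ρ i • A.x i = 0) (D M : ℕ) (hM : ∀ i, (ρ i).natAbs ≤ M) (δ : ι → ℤ)
    (hδ : ∀ i, |δ i| ≤ D) :
    ∃ δ' ∈ bx ρ i₀ (D + D * M), ∑ i, δ' i • A.x i = ∑ i, δ i • A.x i := by
  set t := δ i₀ / ρ i₀ with ht
  refine ⟨fun i => δ i - t * ρ i, ?_, ?_⟩
  · unfold bx
    rw [Fintype.mem_piFinset]
    intro i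
    by_cases hi : i = i₀
    · rw [if_pos hi, hi, mem_Ico]
      have h1 : δ i₀ - t * ρ i₀ = δ i₀ % ρ i₀ := by
        have := Int.emod_add_mul_ediv (δ i₀) (ρ i₀)
        rw [ht]
        linarith [mul_comm (ρ i₀) (δ i₀ / ρ i₀)]
      rw [h1]
      exact ⟨Int.emod_nonneg _ hρ, Int.emod_lt_abs _ hρ⟩
    · rw [if_neg hi, mem_Icc]
      have h1 : |t| ≤ D := (Int.abs_ediv_le_abs _ _).trans (hδ i₀)
      have h2 : |ρ i| ≤ M := by
        rw [Int.abs_eq_natAbs]; exact_mod_cast hM i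
      have h3 : |t * ρ i| ≤ D * M := by
        rw [abs_mul]
        exact mul_le_mul h1 h2 (abs_nonneg _) (by positivity)
      have h4 := hδ i
      rw [abs_le] at h3 h4
      push_cast
      constructor <;> linarith [h3.1, h3.2, h4.1, h4.2]
  · have h1 : ∑ i, (δ i - t * ρ i) • A.x i = ∑ i, δ i • A.x i - t • ∑ i, ρ i • A.x i := by
      rw [smul_sum, ← sum_sub_distrib]
      refine sum_congr rfl fun i _ => ?_
      rw [sub_smul, mul_smul]
    rw [h1, hrel, smul_zero, sub_zero]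

end AlgD

open AlgD

theorem algD_stmt : TaylorStmt → AlgDStmt := by
  classical
  intro hT ι Γ F _ _ _ _ _ A ρ hρ hrel
  obtain ⟨i₀, hi₀⟩ := hρ
  set r := Fintype.card ι with hr
  have hr1 : 1 ≤ r := Fintype.card_pos_iff.mpr ⟨i₀⟩
  set M : ℕ := ∑ i, (ρ i).natAbs with hM
  have hMi : ∀ i, (ρ i).natAbs ≤ M := fun i =>
    single_le_sum (f := fun i => (ρ i).natAbs) (fun _ _ => Nat.zero_le _) (mem_univ i)
  set N : ℕ := (ρ i₀).natAbs * (2 * ((1 + M) * r) + 1) ^ (r - 1) + 1 with hN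
  have hN1 : 1 ≤ N := by omega
  set D : ℕ := r * N with hD
  -- the finite set of elements of nonnegative level
  set G : Finset Γ := (bx ρ i₀ (D + D * M)).image (fun δ => ∑ i, δ i • A.x i) with hG
  have hcardG : G.card < N ^ r := by
    calc G.card ≤ (bx ρ i₀ (D + D * M)).card := card_image_le
      _ = (ρ i₀).natAbs * (2 * (D + D * M) + 1) ^ (r - 1) := card_bx ρ i₀ _
      _ ≤ (ρ i₀).natAbs * ((2 * ((1 + M) * r) + 1) * N) ^ (r - 1) := by
          refine Nat.mul_le_mul_left _ (Nat.pow_le_pow_left ?_ _)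
          rw [hD]
          nlinarith
      _ = ((ρ i₀).natAbs * (2 * ((1 + M) * r) + 1) ^ (r - 1)) * N ^ (r - 1) := by
          rw [mul_pow]; ring
      _ < N * N ^ (r - 1) := by
          refine Nat.mul_lt_mul_of_pos_right ?_ (by positivity)
          omega
      _ = N ^ r := by
          rw [← pow_succ']
          congr 1
          omega
  -- elements of the support of nonnegative level are in `G`
  have hsupp : ∀ β : ι → Fin N, ∀ γ, (Pr A D (fun i => (β i : ℕ))).coeff γ ≠ 0 → 0 ≤ A.lev γ →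
      γ ∈ G := by
    intro β γ hγ hlev
    obtain ⟨a, ha⟩ := sp_Pr A D _ γ hγ
    rw [ha, lev_sum, sum_sub_distrib] at hlev
    have h1 : ∑ i, ((β i : ℕ) : ℤ) ≤ D := by
      have h2 : ∑ i, (β i : ℕ) ≤ ∑ _i : ι, N := sum_le_sum fun i _ => (β i).isLt.le
      rw [sum_const, card_univ, smul_eq_mul] at h2
      rw [← Nat.cast_sum]
      exact_mod_cast h2
    have h2 : ∀ i, |((β i : ℕ) : ℤ) - (a i : ℤ)| ≤ D := by
      intro i
      have h3 : ((β i : ℕ) : ℤ) ≤ ∑ i, ((β i : ℕ) : ℤ) :=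
        single_le_sum (f := fun i => ((β i : ℕ) : ℤ)) (fun _ _ => Int.natCast_nonneg _) (mem_univ i)
      have h4 : (a i : ℤ) ≤ ∑ i, (a i : ℤ) :=
        single_le_sum (f := fun i => (a i : ℤ)) (fun _ _ => Int.natCast_nonneg _) (mem_univ i)
      have h5 : (0 : ℤ) ≤ (β i : ℕ) := Int.natCast_nonneg _
      have h6 : (0 : ℤ) ≤ a i := Int.natCast_nonneg _
      rw [abs_le]
      constructor <;> linarith
    obtain ⟨δ', h3, h4⟩ := reduce A ρ i₀ hi₀ hrel D M hMi _ h2
    rw [hG, mem_image]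
    exact ⟨δ', h3, by rw [h4, ha]⟩
  -- the linear map
  let T : ((ι → Fin N) → ℚ) →ₗ[ℚ] (G → ℚ) :=
    Matrix.mulVecLin (Matrix.of fun (g : G) (β : ι → Fin N) =>
      (Pr A D (fun i => (β i : ℕ))).coeff (g : Γ))
  have hker : LinearMap.ker T ≠ ⊥ := by
    apply LinearMap.ker_ne_bot_of_finrank_lt
    rw [Module.finrank_fintype_fun_eq_card, Module.finrank_fintype_fun_eq_card, Fintype.card_coe,
      Fintype.card_fun, Fintype.card_fin]
    exact hcardG
  obtain ⟨q, hqker, hq0⟩ := Submodule.exists_mem_ne_zero_of_ne_bot hker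
  have hqG : ∀ g ∈ G, ∑ β : ι → Fin N, (Pr A D (fun i => (β i : ℕ))).coeff g * q β = 0 := by
    intro g hg
    have h1 := congrFun (LinearMap.mem_ker.mp hqker) ⟨g, hg⟩
    simpa [T, Matrix.mulVec, dotProduct] using h1
  -- clear denominators
  set d : ℕ := ∏ β, (q β).den with hd
  have hd0 : (d : ℚ) ≠ 0 := by
    rw [hd]
    push_cast
    exact prod_ne_zero_iff.mpr fun β _ => by exact_mod_cast (q β).den_nz
  have hz : ∀ β, ∃ z : ℤ, (z : ℚ) = d * q β := by
    intro β
    obtain ⟨k, hk⟩ := dvd_prod_of_mem (fun β => (q β).den) (mem_univ β)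
    refine ⟨k * (q β).num, ?_⟩
    have h1 : (d : ℚ) = (q β).den * k := by
      rw [hd]; exact_mod_cast hk
    rw [h1]
    push_cast
    have h2 := Rat.mul_den_eq_num (q β)
    calc (k : ℚ) * (q β).num = k * (q β * (q β).den) := by rw [h2]
      _ = _ := by ring
  choose z hz using hz
  obtain ⟨β₀, hβ₀⟩ : ∃ β, q β ≠ 0 := by
    by_contra hcon
    push Not at hcon
    exact hq0 (funext hcon)
  have hzβ₀ : z β₀ ≠ 0 := by
    intro h
    have h1 := hz β₀
    rw [h, Int.cast_zero] at h1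
    exact (mul_ne_zero hd0 hβ₀) h1.symm
  -- the polynomial
  set ex : (ι → Fin N) → (ι →₀ ℕ) := fun β => Finsupp.equivFunOnFinite.symm fun i => (β i : ℕ)
    with hex
  have hexinj : Function.Injective ex := by
    intro β β' h
    funext i
    have h1 := DFunLike.congr_fun h i
    simp only [hex, Finsupp.equivFunOnFinite_symm_apply_apply] at h1
    exact Fin.ext h1
  set P : MvPolynomial ι ℤ := ∑ β, MvPolynomial.monomial (ex β) (z β) with hP
  have hP0 : P ≠ 0 := by
    intro h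
    have h1 : MvPolynomial.coeff (ex β₀) P = z β₀ := by
      rw [hP, MvPolynomial.coeff_sum, sum_eq_single β₀]
      · rw [MvPolynomial.coeff_monomial, if_pos rfl]
      · intro β _ hβ
        rw [MvPolynomial.coeff_monomial, if_neg fun h => hβ (hexinj h)]
      · intro h; exact absurd (mem_univ β₀) h
    rw [h, MvPolynomial.coeff_zero] at h1
    exact hzβ₀ h1.symm
  have haev : ∀ v : ι → F, MvPolynomial.aeval v P = ∑ β, (z β : F) * ∏ i, v i ^ (β i : ℕ) := by
    intro v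
    rw [hP, map_sum]
    refine sum_congr rfl fun β _ => ?_
    rw [MvPolynomial.aeval_monomial]
    congr 1
    rw [Finsupp.prod_fintype _ _ (fun i => pow_zero _)]
    rfl
  refine ⟨P, hP0, A.hint P ?_⟩
  -- the Taylor estimate
  have hdeg : P.totalDegree ≤ r * (N - 1) := by
    rw [hP]
    refine MvPolynomial.totalDegree_finsetSum_le fun β _ => ?_
    refine (MvPolynomial.totalDegree_monomial_le _ _).trans ?_
    rw [Finsupp.sum_fintype _ _ (fun i => rfl)]
    calc ∑ i, (ex β) i ≤ ∑ _i : ι, (N - 1) := by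
          refine sum_le_sum fun i _ => ?_
          have h1 : (ex β) i = (β i : ℕ) := rfl
          rw [h1]
          have := (β i).isLt
          omega
      _ = r * (N - 1) := by rw [sum_const, card_univ, smul_eq_mul]
  set a : ι → F := fun i => A.ev (Nn A D i) with ha
  have h1 := (hT ι F A.O A.mono A.one_mem (fun ha hb => A.mul_mem ha hb) a (A.n - a) (-(D : ℤ))
    (by linarith [Int.natCast_nonneg D]) (fun i => ev_Nn_mem A D i) (fun i => A.hn i D) P
    (r * (N - 1)) hdeg).2.1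
  rw [add_sub_cancel] at h1
  have hle : ((r * (N - 1) : ℕ) : ℤ) - 1 + -(D : ℤ) ≤ -1 := by
    have h2 : r * (N - 1) ≤ D := by
      rw [hD]
      exact Nat.mul_le_mul_left _ (by omega)
    have h3 : ((r * (N - 1) : ℕ) : ℤ) ≤ D := by exact_mod_cast h2
    linarith
  have h2 := A.mono hle h1
  -- the main term
  have h3 : MvPolynomial.aeval a P ∈ A.O (-1) := by
    set f : AddMonoidAlgebra ℚ Γ := ∑ β : ι → Fin N, (z β : ℚ) • Pr A D (fun i => (β i : ℕ)) with hf
    have h4 : MvPolynomial.aeval a P = A.ev f := by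
      rw [haev, hf, map_sum]
      refine sum_congr rfl fun β _ => ?_
      rw [map_smul, Int.cast_smul_eq_zsmul, zsmul_eq_mul]
      congr 1
      unfold Pr
      rw [map_prod]
      refine prod_congr rfl fun i _ => ?_
      rw [map_pow]
    rw [h4]
    refine ev_mem_of_level A f (-1) fun γ hγ => ?_
    by_contra hlev
    push Not at hlev
    have hlev' : 0 ≤ A.lev γ := by omega
    apply hγ
    have h5 : f.coeff γ = ∑ β : ι → Fin N, (z β : ℚ) * (Pr A D (fun i => (β i : ℕ))).coeff γ := by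
      rw [hf, AddMonoidAlgebra.coeff_sum, Finsupp.finsetSum_apply]
      refine sum_congr rfl fun β _ => ?_
      rw [AddMonoidAlgebra.coeff_smul_apply, smul_eq_mul]
    by_cases hγG : γ ∈ G
    · rw [h5]
      have h6 := hqG γ hγG
      calc ∑ β : ι → Fin N, (z β : ℚ) * (Pr A D (fun i => (β i : ℕ))).coeff γ
          = d * ∑ β : ι → Fin N, (Pr A D (fun i => (β i : ℕ))).coeff γ * q β := by
            rw [mul_sum]
            refine sum_congr rfl fun β _ => ?_
            rw [hz]; ring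
        _ = 0 := by rw [h6, mul_zero]
    · rw [h5]
      refine sum_eq_zero fun β _ => ?_
      by_cases h6 : (Pr A D (fun i => (β i : ℕ))).coeff γ = 0
      · rw [h6, mul_zero]
      · exact absurd (hsupp β γ h6 hlev') hγG
  have h4 : MvPolynomial.aeval A.n P =
      (MvPolynomial.aeval A.n P - MvPolynomial.aeval a P) + MvPolynomial.aeval a P := by ring
  rw [h4]
  exact AddSubgroup.add_mem _ h2 h3

end Pool.MP01f3ee
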