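import Mathlib
import Pool.Agent.Lib.MP_01f3ee_nt.Defs

set_option autoImplicit false

namespace Pool.MP01f3ee

open Finset

namespace AlgP

section Lv

variable {Γ : Type} [AddCommGroup Γ]

/-- The level filtration on the group ring. -/
def Lv (lev : Γ →+ ℤ) (s : ℤ) : AddSubgroup (AddMonoidAlgebra ℚ Γ) where
  carrier := {f | ∀ γ, f.coeff γ ≠ 0 → lev γ ≤ s}
  zero_mem' := by
    intro γ h
    exact absurd rfl h
  add_mem' := by
    intro f g hf hg γ h
    by_cases h1 : f.coeff γ = 0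
    · by_cases h2 : g.coeff γ = 0
      · exfalso
        apply h
        rw [AddMonoidAlgebra.coeff_add, Finsupp.add_apply, h1, h2, add_zero]
      · exact hg γ h2
    · exact hf γ h1
  neg_mem' := by
    intro f hf γ h
    apply hf γ
    intro h1
    apply h
    rw [AddMonoidAlgebra.coeff_neg, Finsupp.neg_apply, h1, neg_zero]

theorem mem_Lv {lev : Γ →+ ℤ} {s : ℤ} {f : AddMonoidAlgebra ℚ Γ} :
    f ∈ Lv lev s ↔ ∀ γ, f.coeff γ ≠ 0 → lev γ ≤ s := Iff.rfl

theorem Lv_mono (lev : Γ →+ ℤ) : Monotone (Lv lev) := by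
  intro s t hst f hf γ h
  exact (hf γ h).trans hst

theorem Lv_single (lev : Γ →+ ℤ) (s : ℤ) (γ : Γ) (q : ℚ) (h : lev γ ≤ s) :
    AddMonoidAlgebra.single γ q ∈ Lv lev s := by
  classical
  intro γ' h'
  rw [AddMonoidAlgebra.coeff_single, Finsupp.single_apply] at h'
  by_cases h1 : γ = γ'
  · rw [← h1]; exact h
  · rw [if_neg h1] at h'
    exact absurd rfl h'

theorem Lv_one (lev : Γ →+ ℤ) : (1 : AddMonoidAlgebra ℚ Γ) ∈ Lv lev 0 := by
  have : (1 : AddMonoidAlgebra ℚ Γ) = AddMonoidAlgebra.single 0 1 := rfl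
  rw [this]
  exact Lv_single lev 0 0 1 (by simp)

theorem Lv_mul (lev : Γ →+ ℤ) {s t : ℤ} {f g : AddMonoidAlgebra ℚ Γ} (hf : f ∈ Lv lev s)
    (hg : g ∈ Lv lev t) : f * g ∈ Lv lev (s + t) := by
  classical
  intro γ h
  have h1 := AddMonoidAlgebra.support_coeff_mul_subset f g (Finsupp.mem_support_iff.2 h)
  rw [Finset.mem_add] at h1
  obtain ⟨a, ha, b, hb, rfl⟩ := h1
  rw [map_add]
  exact add_le_add (hf a (Finsupp.mem_support_iff.1 ha)) (hg b (Finsupp.mem_support_iff.1 hb))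

theorem coeff_zero_of_Lv {lev : Γ →+ ℤ} {s : ℤ} {f : AddMonoidAlgebra ℚ Γ} (hf : f ∈ Lv lev s)
    {γ : Γ} (h : s < lev γ) : f.coeff γ = 0 := by
  by_contra h1
  exact absurd (hf γ h1) (not_le.2 h)

end Lv

section PI

/-- `p`-integral rationals. -/
def PI (p : ℕ) (q : ℚ) : Prop := ∃ m : ℕ, ¬ p ∣ m ∧ ∃ z : ℤ, (m : ℚ) * q = z

theorem PI_of_den {p : ℕ} {q : ℚ} (h : ¬ p ∣ q.den) : PI p q :=
  ⟨q.den, h, q.num, by rw [mul_comm]; exact Rat.mul_den_eq_num q⟩

theorem not_PI {p : ℕ} (hp : p.Prime) {q : ℚ} (h : p ∣ q.den) : ¬ PI p q := by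
  rintro ⟨m, hm, z, hz⟩
  have h1 : (m : ℚ) * q.num = z * q.den := by
    rw [← hz, mul_assoc, Rat.mul_den_eq_num]
  have h2 : (m : ℤ) * q.num = z * q.den := by exact_mod_cast h1
  have h3 : (p : ℤ) ∣ (m : ℤ) * q.num := by
    rw [h2]; exact Dvd.dvd.mul_left (by exact_mod_cast h) z
  rcases (Nat.prime_iff_prime_int.1 hp).dvd_mul.1 h3 with h4 | h4
  · exact hm (by exact_mod_cast h4)
  · have h5 : p ∣ q.num.natAbs := Int.natCast_dvd.1 h4
    have h6 := Nat.dvd_gcd h5 h
    rw [q.reduced] at h6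
    exact hp.one_lt.ne' (Nat.dvd_one.1 h6)

/-- `p`-integral elements of the group ring. -/
def PIA {Γ : Type} [AddCommGroup Γ] (p : ℕ) (f : AddMonoidAlgebra ℚ Γ) : Prop :=
  ∃ m : ℕ, ¬ p ∣ m ∧ ∃ g : AddMonoidAlgebra ℤ Γ,
    (m : AddMonoidAlgebra ℚ Γ) * f = AddMonoidAlgebra.mapRingHom Γ (Int.castRingHom ℚ) g

variable {Γ : Type} [AddCommGroup Γ]

theorem PIA_add {p : ℕ} (hp : p.Prime) {f g : AddMonoidAlgebra ℚ Γ} (hf : PIA p f)
    (hg : PIA p g) : PIA p (f + g) := by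
  obtain ⟨m, hm, a, ha⟩ := hf
  obtain ⟨n, hn, b, hb⟩ := hg
  refine ⟨m * n, fun h => (hp.dvd_mul.1 h).elim hm hn, n * a + m * b, ?_⟩
  rw [map_add, map_mul, map_mul, map_natCast, map_natCast, ← ha, ← hb]
  push_cast
  ring

theorem PIA_mul {p : ℕ} (hp : p.Prime) {f g : AddMonoidAlgebra ℚ Γ} (hf : PIA p f)
    (hg : PIA p g) : PIA p (f * g) := by
  obtain ⟨m, hm, a, ha⟩ := hf
  obtain ⟨n, hn, b, hb⟩ := hg
  refine ⟨m * n, fun h => (hp.dvd_mul.1 h).elim hm hn, a * b, ?_⟩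
  rw [map_mul, ← ha, ← hb]
  push_cast
  ring

theorem PIA_int {p : ℕ} (hp : p.Prime) (z : ℤ) : PIA p (z : AddMonoidAlgebra ℚ Γ) :=
  ⟨1, fun h => hp.one_lt.ne' (Nat.dvd_one.1 h), z, by simp⟩

theorem PIA_single {p : ℕ} (γ : Γ) {q : ℚ} (h : PI p q) :
    PIA p (AddMonoidAlgebra.single γ q) := by
  obtain ⟨m, hm, z, hz⟩ := h
  refine ⟨m, hm, AddMonoidAlgebra.single γ z, ?_⟩
  have h1 : (m : AddMonoidAlgebra ℚ Γ) = AddMonoidAlgebra.single 0 (m : ℚ) := by
    rfl
  rw [h1, AddMonoidAlgebra.single_mul_single, zero_add, hz]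
  simp

theorem PIA_coeff {p : ℕ} {f : AddMonoidAlgebra ℚ Γ} (h : PIA p f) (γ : Γ) :
    PI p (f.coeff γ) := by
  obtain ⟨m, hm, g, hg⟩ := h
  refine ⟨m, hm, g.coeff γ, ?_⟩
  have h1 : ((m : AddMonoidAlgebra ℚ Γ) * f).coeff γ = (m : ℚ) * f.coeff γ := by
    rw [← nsmul_eq_mul, AddMonoidAlgebra.coeff_smul, Finsupp.smul_apply, nsmul_eq_mul]
  rw [← h1, hg]
  simp

theorem PIA_sum {p : ℕ} (hp : p.Prime) {α : Type} (s : Finset α)
    (f : α → AddMonoidAlgebra ℚ Γ) (h : ∀ i ∈ s, PIA p (f i)) : PIA p (∑ i ∈ s, f i) := by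
  classical
  induction s using Finset.induction_on with
  | empty =>
    have := PIA_int (Γ := Γ) hp 0
    simpa using this
  | insert a s ha ih =>
    rw [Finset.sum_insert ha]
    exact PIA_add hp (h a (Finset.mem_insert_self a s))
      (ih (fun i hi => h i (Finset.mem_insert_of_mem hi)))

theorem PIA_aeval {ι : Type} {p : ℕ} (hp : p.Prime) (a : ι → AddMonoidAlgebra ℚ Γ)
    (ha : ∀ i, PIA p (a i)) (P : MvPolynomial ι ℤ) : PIA p (MvPolynomial.aeval a P) := by
  induction P using MvPolynomial.induction_on with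
  | C c =>
    have : MvPolynomial.aeval a (MvPolynomial.C c) = (c : AddMonoidAlgebra ℚ Γ) := by
      simp
    rw [this]
    exact PIA_int hp c
  | add f g hf hg => rw [map_add]; exact PIA_add hp hf hg
  | mul_X f i hf =>
    rw [map_mul, MvPolynomial.aeval_X]
    exact PIA_mul hp hf (ha i)

end PI

section Main

variable {ι Γ F : Type} [Fintype ι] [DecidableEq ι] [AddCommGroup Γ] [CommRing F] [Algebra ℚ F]

/-- The truncated expansion of `n_i`. -/
noncomputable def N (A : AlgData ι Γ F) (R : ℕ) (i : ι) : AddMonoidAlgebra ℚ Γ :=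
  ∑ a ∈ range (R + 1), AddMonoidAlgebra.single ((1 - (a : ℤ)) • A.x i) (A.φ a)

omit [DecidableEq ι] in
theorem N_Lv (A : AlgData ι Γ F) (R : ℕ) (i : ι) : N A R i ∈ Lv A.lev 1 := by
  apply AddSubgroup.sum_mem
  intro a _
  apply Lv_single
  rw [map_zsmul, A.lev_x]
  simp

omit [DecidableEq ι] in
theorem N_diff (A : AlgData ι Γ F) {R R' : ℕ} (h : R ≤ R') (i : ι) :
    N A R' i - N A R i ∈ Lv A.lev (-(R : ℤ)) := by
  have h1 : N A R' i - N A R i =
      ∑ a ∈ Finset.Ico (R + 1) (R' + 1),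
        AddMonoidAlgebra.single ((1 - (a : ℤ)) • A.x i) (A.φ a) := by
    rw [N, N, Finset.sum_Ico_eq_sub _ (by omega : R + 1 ≤ R' + 1)]
  rw [h1]
  apply AddSubgroup.sum_mem
  intro a ha
  rw [Finset.mem_Ico] at ha
  apply Lv_single
  rw [map_zsmul, A.lev_x]
  simp only [smul_eq_mul, mul_one]
  have : (R : ℤ) + 1 ≤ a := by exact_mod_cast ha.1
  omega

omit [DecidableEq ι] in
theorem ev_mem_O (A : AlgData ι Γ F) {s : ℤ} {f : AddMonoidAlgebra ℚ Γ} (hf : f ∈ Lv A.lev s) :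
    A.ev f ∈ A.O s := by
  have h1 : f = ∑ γ ∈ f.coeff.support, AddMonoidAlgebra.single γ (f.coeff γ) := by
    conv_lhs => rw [← AddMonoidAlgebra.sum_coeff_single f]
    rfl
  rw [h1, map_sum]
  apply AddSubgroup.sum_mem
  intro γ hγ
  have h2 : AddMonoidAlgebra.single γ (f.coeff γ) =
      (f.coeff γ) • (AddMonoidAlgebra.single γ (1 : ℚ)) := by
    rw [AddMonoidAlgebra.smul_single, smul_eq_mul, mul_one]
  rw [h2, map_smul]
  exact A.smul_mem _ (A.mono (hf γ (Finsupp.mem_support_iff.1 hγ)) (A.ev_mem γ))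

theorem totalDegree_pderiv_le {σ : Type} (P : MvPolynomial σ ℤ) (i : σ) :
    (MvPolynomial.pderiv i P).totalDegree ≤ P.totalDegree - 1 := by
  classical
  rw [MvPolynomial.totalDegree, Finset.sup_le_iff]
  intro m hm
  rw [MvPolynomial.mem_support_iff, MvPolynomial.coeff_pderiv] at hm
  have h1 : MvPolynomial.coeff (m + Finsupp.single i 1) P ≠ 0 := left_ne_zero_of_mul hm
  have h2 := MvPolynomial.le_totalDegree (MvPolynomial.mem_support_iff.2 h1)
  rw [Finsupp.sum_add_index' (by simp) (by simp), Finsupp.sum_single_index rfl] at h2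
  omega

/-- The derivatives of a minimal relation. -/
theorem exists_pderiv_ne (P : MvPolynomial ι ℤ) (hP : P.totalDegree ≠ 0) :
    ∃ i, MvPolynomial.pderiv i P ≠ 0 := by
  classical
  by_contra hcon
  push Not at hcon
  apply hP
  rw [MvPolynomial.totalDegree_eq_zero_iff_eq_C]
  ext m
  rw [MvPolynomial.coeff_C]
  split_ifs with h
  · rw [h]
  · obtain ⟨i, hi⟩ : ∃ i, m i ≠ 0 := by
      by_contra h0
      push Not at h0
      exact h (by ext i; rw [h0 i]; rfl)
    have h1 := MvPolynomial.coeff_pderiv (i := i) P (m - Finsupp.single i 1)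
    rw [hcon i, MvPolynomial.coeff_zero] at h1
    have h2 : m - Finsupp.single i 1 + Finsupp.single i 1 = m := by
      apply tsub_add_cancel_of_le
      intro j
      by_cases hj : j = i
      · rw [hj, Finsupp.single_eq_same]; omega
      · rw [Finsupp.single_eq_of_ne hj]; omega
    rw [h2] at h1
    rcases mul_eq_zero.1 h1.symm with h3 | h3
    · exact h3
    · exfalso
      have h4 : (0 : ℤ) ≤ (((m - Finsupp.single i 1 : ι →₀ ℕ) i : ℕ) : ℤ) := Int.natCast_nonneg _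
      omega

/-- The main argument. -/
theorem main (hT : TaylorStmt) (A : AlgData ι Γ F) (hφ : PadicPhi A.φ)
    (hx : ∀ i j, i ≠ j → ∀ k : ℕ, 0 < k → k • A.x i ≠ k • A.x j)
    (P : MvPolynomial ι ℤ) (h0 : MvPolynomial.aeval A.n P = 0)
    (hmin : ∀ Q : MvPolynomial ι ℤ, Q.totalDegree < P.totalDegree → Q ≠ 0 →
      MvPolynomial.aeval A.n Q ≠ 0) (hD : P.totalDegree ≠ 0) : False := by
  classical
  set D := P.totalDegree with hDdef
  have hD1 : 1 ≤ D := Nat.one_le_iff_ne_zero.2 hD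
  -- truncated derivatives
  set f : ℕ → ι → AddMonoidAlgebra ℚ Γ :=
    fun R i => MvPolynomial.aeval (N A R) (MvPolynomial.pderiv i P) with hf
  have hdeg : ∀ i, (MvPolynomial.pderiv i P).totalDegree ≤ D - 1 :=
    fun i => totalDegree_pderiv_le P i
  have hcast : ((D - 1 : ℕ) : ℤ) = (D : ℤ) - 1 := by push_cast [hD1]; ring
  -- stability of the top part
  have hstab : ∀ R, D ≤ R → ∀ i, f R i - f D i ∈ Lv A.lev (-2) := by
    intro R hR i
    have h1 := (hT ι (AddMonoidAlgebra ℚ Γ) (Lv A.lev) (Lv_mono A.lev) (Lv_one A.lev)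
      (fun ha hb => Lv_mul A.lev ha hb) (N A D) (N A R - N A D) (-(D : ℤ)) (by omega)
      (N_Lv A D) (fun i => N_diff A hR i) (MvPolynomial.pderiv i P) (D - 1) (hdeg i)).2.1
    have h2 : N A D + (N A R - N A D) = N A R := by abel
    rw [h2] at h1
    refine Lv_mono A.lev ?_ h1
    rw [hcast]; omega
  -- relation between the truncated derivatives and the true ones
  have hη : ∀ (R : ℕ) (i : ι), A.n i - A.ev (N A R i) ∈ A.O (-(R : ℤ)) := fun R i => A.hn i R
  have hNO : ∀ R i, A.ev (N A R i) ∈ A.O 1 := fun R i => ev_mem_O A (N_Lv A R i)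
  have hevP : ∀ R (Q : MvPolynomial ι ℤ), MvPolynomial.aeval (fun i => A.ev (N A R i)) Q =
      A.ev (MvPolynomial.aeval (N A R) Q) := by
    intro R Q
    induction Q using MvPolynomial.induction_on with
    | C c => simp
    | add p q hp hq => rw [map_add, map_add, map_add, hp, hq]
    | mul_X p i hp => rw [map_mul, map_mul, map_mul, MvPolynomial.aeval_X,
        MvPolynomial.aeval_X, hp]
  -- existence of an element of level >= 0
  have hex : ∃ i γ, (f D i).coeff γ ≠ 0 ∧ 0 ≤ A.lev γ := by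
    by_contra hcon
    push Not at hcon
    obtain ⟨i, hi⟩ := exists_pderiv_ne P hD
    have h1 : f D i ∈ Lv A.lev (-1) := by
      intro γ hγ
      have := hcon i γ hγ
      omega
    have h2 := ev_mem_O A h1
    have h3 := (hT ι F A.O A.mono A.one_mem (fun ha hb => A.mul_mem ha hb)
      (fun i => A.ev (N A D i)) (fun i => A.n i - A.ev (N A D i)) (-(D : ℤ)) (by omega)
      (hNO D) (hη D) (MvPolynomial.pderiv i P) (D - 1) (hdeg i)).2.1
    have h4 : ((fun i => A.ev (N A D i)) + fun i => A.n i - A.ev (N A D i)) = A.n := by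
      funext i; simp
    rw [h4, hevP] at h3
    have h5 : MvPolynomial.aeval A.n (MvPolynomial.pderiv i P) ∈ A.O (-1) := by
      have h6 := (A.O (-1)).add_mem (A.mono (by rw [hcast]; omega) h3) h2
      rw [hf] at h6
      simpa using h6
    exact hmin _ (by have := hdeg i; omega) hi (A.hint _ h5)
  -- the maximal level
  obtain ⟨i0, γ0, hc0, he0, hmax⟩ : ∃ i0 γ0, (f D i0).coeff γ0 ≠ 0 ∧ 0 ≤ A.lev γ0 ∧
      ∀ i γ, (f D i).coeff γ ≠ 0 → A.lev γ ≤ A.lev γ0 := by
    obtain ⟨i1, γ1, h1, h2⟩ := hex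
    set T : Finset (Σ _ : ι, Γ) := Finset.univ.sigma (fun i => (f D i).coeff.support) with hTd
    have hTn : T.Nonempty := ⟨⟨i1, γ1⟩, by
      rw [hTd, Finset.mem_sigma]
      exact ⟨Finset.mem_univ _, Finsupp.mem_support_iff.2 h1⟩⟩
    obtain ⟨⟨i0, γ0⟩, hm, hmx⟩ := Finset.exists_max_image T (fun z => A.lev z.2) hTn
    rw [hTd, Finset.mem_sigma] at hm
    have hall : ∀ i γ, (f D i).coeff γ ≠ 0 → A.lev γ ≤ A.lev γ0 := by
      intro i γ h
      exact hmx ⟨i, γ⟩ (by
        rw [hTd, Finset.mem_sigma]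
        exact ⟨Finset.mem_univ _, Finsupp.mem_support_iff.2 h⟩)
    exact ⟨i0, γ0, Finsupp.mem_support_iff.1 hm.2, h2.trans (hall i1 γ1 h1), hall⟩
  set e0 := A.lev γ0 with he0def
  have hfe : ∀ R, D ≤ R → ∀ i, f R i ∈ Lv A.lev e0 := by
    intro R hR i
    have h1 : f D i ∈ Lv A.lev e0 := fun γ hγ => hmax i γ hγ
    have h2 := (Lv A.lev e0).add_mem (Lv_mono A.lev (by omega) (hstab R hR i)) h1
    simpa using h2
  have hfc : ∀ R, D ≤ R → ∀ i γ, 0 ≤ A.lev γ → (f R i).coeff γ = (f D i).coeff γ := by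
    intro R hR i γ hγ
    have h1 := coeff_zero_of_Lv (hstab R hR i) (γ := γ) (by omega)
    rw [AddMonoidAlgebra.coeff_sub, Finsupp.sub_apply] at h1
    linarith
  -- the finitely many bad primes
  have hbad : ∀ i, i ≠ i0 → ∀ᶠ k : ℕ in Filter.atTop,
      (f D i).coeff (γ0 - (k : ℕ) • (A.x i0 - A.x i)) = 0 := by
    intro i hi
    have hinj : Function.Injective (fun k : ℕ => γ0 - (k : ℕ) • (A.x i0 - A.x i)) := by
      intro k l hkl
      simp only [sub_right_inj] at hkl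
      by_contra hne
      rcases lt_or_gt_of_ne hne with h | h
      · apply hx i0 i (Ne.symm hi) (l - k) (by omega)
        have h1 : (l - k) • (A.x i0 - A.x i) = 0 := by
          rw [sub_nsmul _ h.le, hkl]; simp
        rwa [smul_sub, sub_eq_zero] at h1
      · apply hx i0 i (Ne.symm hi) (k - l) (by omega)
        have h1 : (k - l) • (A.x i0 - A.x i) = 0 := by
          rw [sub_nsmul _ h.le, hkl]; simp
        rwa [smul_sub, sub_eq_zero] at h1
    have h2 : Filter.Tendsto (fun k : ℕ => γ0 - (k : ℕ) • (A.x i0 - A.x i)) Filter.atTop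
        Filter.cofinite := by
      rw [← Nat.cofinite_eq_atTop]
      exact hinj.tendsto_cofinite
    have h3 : ((f D i).coeff.support : Set Γ)ᶜ ∈ (Filter.cofinite : Filter Γ) :=
      (Finset.finite_toSet _).compl_mem_cofinite
    filter_upwards [h2 h3] with k hk
    by_contra h4
    exact hk (Finset.mem_coe.2 (Finsupp.mem_support_iff.2 h4))
  have hbad2 : ∀ᶠ k : ℕ in Filter.atTop, ∀ i, i ≠ i0 →
      (f D i).coeff (γ0 - (k : ℕ) • (A.x i0 - A.x i)) = 0 := by
    rw [Filter.eventually_all]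
    intro i
    by_cases hi : i = i0
    · exact Filter.Eventually.of_forall (fun k h => absurd hi h)
    · filter_upwards [hbad i hi] with k hk _ using hk
  obtain ⟨k0, hk0⟩ := Filter.eventually_atTop.1 hbad2
  set c := (f D i0).coeff γ0 with hc
  obtain ⟨p, hpge, hp⟩ := Nat.exists_infinite_primes (k0 + D + 4 + c.num.natAbs)
  obtain ⟨hint, hnint⟩ := hφ p hp
  have hp2 : D ≤ p - 2 := by omega
  have hp1 : p - 2 + 1 = p - 1 := by omega
  -- the two parts
  set a : ι → AddMonoidAlgebra ℚ Γ := N A (p - 2) with ha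
  set b : ι → AddMonoidAlgebra ℚ Γ :=
    fun i => AddMonoidAlgebra.single ((2 - (p : ℤ)) • A.x i) (A.φ (p - 1)) with hb
  have hab : a + b = N A (p - 1) := by
    funext i
    rw [Pi.add_apply, ha, hb, N, N, show p - 1 + 1 = (p - 2 + 1) + 1 by omega,
      Finset.sum_range_succ _ (p - 2 + 1)]
    congr 1
    rw [hp1]
    have : ((p - 1 : ℕ) : ℤ) = (p : ℤ) - 1 := by
      have := hp.one_lt
      push_cast [this.le]; ring
    rw [this, show (1 : ℤ) - ((p : ℤ) - 1) = 2 - (p : ℤ) by ring]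
  have haL : ∀ i, a i ∈ Lv A.lev 1 := fun i => N_Lv A _ i
  have hbL : ∀ i, b i ∈ Lv A.lev (2 - (p : ℤ)) := by
    intro i
    apply Lv_single
    rw [map_zsmul, A.lev_x]
    simp
  have hpz : (k0 : ℤ) + D + 4 + c.num.natAbs ≤ p := by exact_mod_cast hpge
  have hcz : (0 : ℤ) ≤ (c.num.natAbs : ℤ) := Int.natCast_nonneg _
  have hkz : (0 : ℤ) ≤ (k0 : ℤ) := Int.natCast_nonneg _
  have hpm : ((p - 1 : ℕ) : ℤ) = (p : ℤ) - 1 := by
    have := hp.one_lt
    push_cast [this.le]; ring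
  -- the value in F
  have hF : A.ev (MvPolynomial.aeval (a + b) P) ∈ A.O (e0 + 1 - (p : ℤ)) := by
    have h3 := (hT ι F A.O A.mono A.one_mem (fun ha hb => A.mul_mem ha hb)
      (fun i => A.ev (N A (p - 1) i)) (fun i => A.n i - A.ev (N A (p - 1) i))
      (-((p - 1 : ℕ) : ℤ)) (by omega)
      (hNO (p - 1)) (hη (p - 1)) P D le_rfl).2.2
    have h4 : ((fun i => A.ev (N A (p - 1) i)) + fun i => A.n i - A.ev (N A (p - 1) i)) = A.n := by
      funext i; simp
    rw [h4, h0, hevP, zero_sub] at h3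
    have h5 : ∑ i, MvPolynomial.aeval (fun i => A.ev (N A (p - 1) i)) (MvPolynomial.pderiv i P) *
        (A.n i - A.ev (N A (p - 1) i)) ∈ A.O (e0 + 1 - (p : ℤ)) := by
      apply AddSubgroup.sum_mem
      intro i _
      rw [hevP]
      have h6 := A.mul_mem (ev_mem_O A (hfe (p - 1) (by omega) i)) (hη (p - 1) i)
      refine A.mono ?_ h6
      omega
    have h7 := A.mono (show (D : ℤ) - 2 + 2 * (-((p - 1 : ℕ) : ℤ)) ≤ e0 + 1 - (p : ℤ) by omega) h3
    have h8 := (A.O (e0 + 1 - (p : ℤ))).neg_mem ((A.O (e0 + 1 - (p : ℤ))).add_mem h7 h5)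
    rw [hab]
    convert h8 using 1
    abel
  set γ1 := γ0 + (2 - (p : ℤ)) • A.x i0 with hγ1
  have hlev1 : A.lev γ1 = e0 + (2 - (p : ℤ)) := by
    rw [hγ1, map_add, map_zsmul, A.lev_x]
    simp [he0def]
  have hz : (MvPolynomial.aeval (a + b) P).coeff γ1 = 0 := by
    by_contra h
    have := A.lt _ _ hF γ1 h
    rw [hlev1] at this
    omega
  -- the expansion in the group ring
  have hG : MvPolynomial.aeval (a + b) P - MvPolynomial.aeval a P
        - ∑ i, MvPolynomial.aeval a (MvPolynomial.pderiv i P) * b i ∈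
        Lv A.lev ((D : ℤ) - 2 + 2 * (2 - (p : ℤ))) :=
      (hT ι (AddMonoidAlgebra ℚ Γ) (Lv A.lev) (Lv_mono A.lev) (Lv_one A.lev)
      (fun ha hb => Lv_mul A.lev ha hb) a b (2 - (p : ℤ)) (by omega) haL hbL P D le_rfl).2.2
  have hG1 := coeff_zero_of_Lv hG (γ := γ1) (by rw [hlev1]; omega)
  rw [AddMonoidAlgebra.coeff_sub, AddMonoidAlgebra.coeff_sub, Finsupp.sub_apply,
    Finsupp.sub_apply, AddMonoidAlgebra.coeff_sum, Finsupp.finsetSum_apply] at hG1
  have hterm : ∀ i, (MvPolynomial.aeval a (MvPolynomial.pderiv i P) * b i).coeff γ1 =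
      (if i = i0 then c else 0) * A.φ (p - 1) := by
    intro i
    have h1 : (MvPolynomial.aeval a (MvPolynomial.pderiv i P) * b i).coeff γ1 =
        (f (p - 2) i).coeff (γ1 - (2 - (p : ℤ)) • A.x i) * A.φ (p - 1) := by
      rw [hb]
      apply AddMonoidAlgebra.coeff_mul_single_eq_coeff_mul
      intro γ _
      constructor
      · intro h; rw [← h]; abel
      · intro h; rw [h]; abel
    rw [h1]
    have h2 : γ1 - (2 - (p : ℤ)) • A.x i = γ0 - (p - 2 : ℕ) • (A.x i0 - A.x i) := by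
      have h3 : (p - 2 : ℕ) • (A.x i0 - A.x i) = ((p : ℤ) - 2) • (A.x i0 - A.x i) := by
        rw [← natCast_zsmul]
        congr 1
        have := hp.two_le
        push_cast [this]; ring
      rw [h3, hγ1]
      module
    rw [h2]
    have hlev2 : A.lev (γ0 - (p - 2 : ℕ) • (A.x i0 - A.x i)) = e0 := by
      rw [map_sub, map_nsmul, map_sub, A.lev_x, A.lev_x]
      simp [he0def]
    rw [hfc (p - 2) hp2 i _ (by rw [hlev2]; exact he0)]
    by_cases hi : i = i0
    · rw [if_pos hi, hi]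
      congr 2
      simp
    · rw [if_neg hi, hk0 (p - 2) (by omega) i hi]
  rw [Finset.sum_congr rfl (fun i _ => hterm i)] at hG1
  rw [← Finset.sum_mul, Finset.sum_ite_eq' Finset.univ i0 (fun _ => c),
    if_pos (Finset.mem_univ _)] at hG1
  -- p-integrality
  have haP : ∀ i, PIA p (a i) := by
    intro i
    rw [ha, N]
    apply PIA_sum hp
    intro j hj
    apply PIA_single
    apply PI_of_den
    apply hint
    rw [Finset.mem_range] at hj
    omega
  have hu : PI p ((MvPolynomial.aeval a P).coeff γ1) := PIA_coeff (PIA_aeval hp a haP P) γ1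
  have heq : c * A.φ (p - 1) = -((MvPolynomial.aeval a P).coeff γ1) := by
    have hz' := hz
    have h9 : (MvPolynomial.aeval (a + b) P).coeff γ1 - (MvPolynomial.aeval a P).coeff γ1 -
      c * A.φ (p - 1) = 0 := hG1
    rw [hz'] at h9
    linarith
  obtain ⟨m, hm, z, hzz⟩ := hu
  apply not_PI hp hnint
  -- c = num / den
  have hcnum : ¬ p ∣ c.num.natAbs := by
    intro h
    have h1 : c.num.natAbs ≠ 0 := by
      rw [Int.natAbs_ne_zero]
      exact Rat.num_ne_zero.2 hc0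
    have := Nat.le_of_dvd (Nat.pos_of_ne_zero h1) h
    omega
  refine ⟨c.num.natAbs * m, fun h => (hp.dvd_mul.1 h).elim hcnum hm,
    - (c.den : ℤ) * z * (c.num.sign), ?_⟩
  have h1 : (c.num : ℚ) = c * c.den := (Rat.mul_den_eq_num c).symm
  have h2 : ((c.num.natAbs : ℕ) : ℚ) = (c.num.sign : ℚ) * (c.num : ℚ) := by
    have h3 : ((c.num.natAbs : ℕ) : ℤ) = c.num.sign * c.num := by
      rw [Int.sign_mul_self_eq_natAbs]
    rw [← Int.cast_natCast (R := ℚ) c.num.natAbs, h3, Int.cast_mul]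
  push_cast
  rw [h2, h1]
  calc (c.num.sign : ℚ) * (c * c.den) * m * A.φ (p - 1)
      = (c.num.sign : ℚ) * c.den * (m * (c * A.φ (p - 1))) := by ring
    _ = (c.num.sign : ℚ) * c.den * (- (m * (MvPolynomial.aeval a P).coeff γ1)) := by
        rw [heq]; ring
    _ = _ := by rw [hzz]; ring

end Main

end AlgP

theorem algP_stmt (hT : TaylorStmt) : AlgPStmt := by
  intro ι Γ F _ _ _ _ _ A hφ hx P hP hcon
  classical
  -- choose a relation of minimal degree
  have hex : ∃ d, ∃ Q : MvPolynomial ι ℤ, Q ≠ 0 ∧ MvPolynomial.aeval A.n Q = 0 ∧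
      Q.totalDegree = d := ⟨_, P, hP, hcon, rfl⟩
  obtain ⟨Q, hQ, hQ0, hQd⟩ := Nat.find_spec hex
  have hmin : ∀ Q' : MvPolynomial ι ℤ, Q'.totalDegree < Q.totalDegree → Q' ≠ 0 →
      MvPolynomial.aeval A.n Q' ≠ 0 := by
    intro Q' h1 h2 h3
    rw [hQd] at h1
    exact Nat.find_min hex h1 ⟨Q', h2, h3, rfl⟩
  by_cases hD : Q.totalDegree = 0
  · rw [MvPolynomial.totalDegree_eq_zero_iff_eq_C] at hD
    set c := MvPolynomial.coeff 0 Q with hc
    have hc0 : c ≠ 0 := by
      intro h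
      apply hQ
      rw [hD, h, map_zero]
    rw [hD] at hQ0
    have h1 : ((c : ℚ) • (1 : F)) = 0 := by
      rw [Algebra.smul_def, mul_one, ← hQ0]
      simp
    have h2 : (1 : F) = 0 := by
      have h3 := congrArg (fun z => (c : ℚ)⁻¹ • z) h1
      simp only [smul_smul, smul_zero] at h3
      rwa [inv_mul_cancel₀ (by exact_mod_cast hc0), one_smul] at h3
    exact A.hne h2
  · exact AlgP.main hT A hφ hx Q hQ0 hmin hD

end Pool.MP01f3ee
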