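import Mathlib
import Pool.Agent.Lib.MP_01f3ee_nt.Defs

/-!
# MP_01f3ee_nt, module ASYM1: asymptotic expansion of `exp (γ - H_n)`
-/

set_option autoImplicit false

namespace Pool.MP01f3ee

open Finset Filter Topology Asymptotics

namespace Asym1

/-- `f` has the expansion `∑_{m < N} p_m z^m + O(z^N)` at `0`. -/
def HasExp (f : ℝ → ℝ) (p : ℕ → ℝ) (N : ℕ) : Prop :=
  (fun z => f z - ∑ m ∈ range N, p m * z ^ m) =O[𝓝 0] (fun z : ℝ => z ^ N)

theorem poly_isBigO_one (p : ℕ → ℝ) (N : ℕ) :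
    (fun z : ℝ => ∑ m ∈ range N, p m * z ^ m) =O[𝓝 0] (fun _ => (1 : ℝ)) := by
  have h : Continuous (fun z : ℝ => ∑ m ∈ range N, p m * z ^ m) := by fun_prop
  exact h.continuousAt.tendsto.isBigO_one ℝ

theorem pow_isBigO {N M : ℕ} (h : N ≤ M) :
    (fun z : ℝ => z ^ M) =O[𝓝 0] (fun z : ℝ => z ^ N) := by
  obtain ⟨k, rfl⟩ := Nat.exists_eq_add_of_le h
  have h1 : (fun z : ℝ => z ^ k) =O[𝓝 0] (fun _ => (1 : ℝ)) :=
    (continuous_pow k).continuousAt.tendsto.isBigO_one ℝ
  have h2 := (isBigO_refl (fun z : ℝ => z ^ N) (𝓝 0)).mul h1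
  simpa [pow_add] using h2

theorem HasExp.isBigO_one {f : ℝ → ℝ} {p : ℕ → ℝ} {N : ℕ} (h : HasExp f p N) :
    f =O[𝓝 0] (fun _ => (1 : ℝ)) := by
  have h1 : (fun z : ℝ => z ^ N) =O[𝓝 0] (fun _ => (1 : ℝ)) :=
    (continuous_pow N).continuousAt.tendsto.isBigO_one ℝ
  have h2 := (h.trans h1).add (poly_isBigO_one p N)
  simpa using h2

theorem HasExp.sum {ι : Type} (s : Finset ι) (f : ι → ℝ → ℝ) (p : ι → ℕ → ℝ) (N : ℕ)
    (h : ∀ i ∈ s, HasExp (f i) (p i) N) :
    HasExp (fun z => ∑ i ∈ s, f i z) (fun m => ∑ i ∈ s, p i m) N := by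
  unfold HasExp at *
  have := IsBigO.sum h
  refine this.congr_left fun z => ?_
  simp only [Finset.sum_apply, sum_sub_distrib, sum_mul]
  rw [sum_comm]

theorem HasExp.smul {f : ℝ → ℝ} {p : ℕ → ℝ} {N : ℕ} (c : ℝ) (h : HasExp f p N) :
    HasExp (fun z => c * f z) (fun m => c * p m) N := by
  unfold HasExp at *
  refine (h.const_mul_left c).congr_left fun z => ?_
  rw [mul_sub, mul_sum]
  congr 1
  exact sum_congr rfl fun m _ => by ring

theorem HasExp.mul {f g : ℝ → ℝ} {p q : ℕ → ℝ} {N : ℕ} (hf : HasExp f p N) (hg : HasExp g q N) :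
    HasExp (fun z => f z * g z) (fun m => ∑ i ∈ range (m + 1), p i * q (m - i)) N := by
  have h1 : (fun z => f z * (g z - ∑ m ∈ range N, q m * z ^ m)) =O[𝓝 0] (fun z : ℝ => z ^ N) := by
    have := hf.isBigO_one.mul hg
    simpa using this
  have h2 : (fun z => (∑ m ∈ range N, q m * z ^ m) * (f z - ∑ m ∈ range N, p m * z ^ m))
      =O[𝓝 0] (fun z : ℝ => z ^ N) := by
    have := (poly_isBigO_one q N).mul hf
    simpa using this
  -- the product of the two polynomials
  have h3 : (fun z : ℝ => ∑ x ∈ (range N ×ˢ range N).filter (fun x => N ≤ x.1 + x.2),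
      p x.1 * q x.2 * z ^ (x.1 + x.2)) =O[𝓝 0] (fun z : ℝ => z ^ N) := by
    have h : ∀ x ∈ (range N ×ˢ range N).filter (fun x => N ≤ x.1 + x.2),
        (fun z : ℝ => p x.1 * q x.2 * z ^ (x.1 + x.2)) =O[𝓝 0] (fun z : ℝ => z ^ N) :=
      fun x hx => (pow_isBigO (mem_filter.mp hx).2).const_mul_left _
    exact (IsBigO.sum h).congr_left fun z => by simp only [Finset.sum_apply]
  have h4 : ∀ z : ℝ, (∑ m ∈ range N, p m * z ^ m) * (∑ m ∈ range N, q m * z ^ m) =
      ∑ m ∈ range N, (∑ i ∈ range (m + 1), p i * q (m - i)) * z ^ m +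
      ∑ x ∈ (range N ×ˢ range N).filter (fun x => N ≤ x.1 + x.2),
        p x.1 * q x.2 * z ^ (x.1 + x.2) := by
    intro z
    have e1 : (∑ m ∈ range N, p m * z ^ m) * (∑ m ∈ range N, q m * z ^ m) =
        ∑ x ∈ range N ×ˢ range N, p x.1 * q x.2 * z ^ (x.1 + x.2) := by
      rw [sum_mul_sum, sum_product]
      refine sum_congr rfl fun i _ => sum_congr rfl fun j _ => ?_
      rw [pow_add]; ring
    rw [e1, ← sum_filter_add_sum_filter_not (range N ×ˢ range N) (fun x => x.1 + x.2 < N)]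
    congr 1
    · have e2 : ∀ m ∈ range N, (∑ i ∈ range (m + 1), p i * q (m - i)) * z ^ m =
          ∑ x ∈ antidiagonal m, p x.1 * q x.2 * z ^ (x.1 + x.2) := by
        intro m _
        rw [Finset.Nat.sum_antidiagonal_eq_sum_range_succ
          (fun i j => p i * q j * z ^ (i + j)) m, sum_mul]
        refine sum_congr rfl fun i hi => ?_
        have : i + (m - i) = m := by
          have := mem_range.mp hi
          omega
        rw [this]
      rw [sum_congr rfl e2, sum_sigma']
      symm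
      refine sum_bij' (fun x _ => x.2) (fun x _ => ⟨x.1 + x.2, x⟩) ?_ ?_ ?_ ?_ ?_
      · rintro ⟨m, i, j⟩ hx
        simp only [mem_sigma, mem_range, HasAntidiagonal.mem_antidiagonal] at hx
        simp only [mem_filter, mem_product, mem_range]
        omega
      · rintro ⟨i, j⟩ hx
        simp only [mem_filter, mem_product, mem_range] at hx
        simp only [mem_sigma, mem_range, HasAntidiagonal.mem_antidiagonal]
        exact ⟨hx.2, trivial⟩
      · rintro ⟨m, i, j⟩ hx
        simp only [mem_sigma, mem_range, HasAntidiagonal.mem_antidiagonal] at hx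
        obtain ⟨-, rfl⟩ := hx
        rfl
      · rintro ⟨i, j⟩ _
        rfl
      · rintro ⟨m, i, j⟩ _
        rfl
    · refine sum_congr ?_ fun _ _ => rfl
      ext x
      simp only [mem_filter, not_lt]
  unfold HasExp
  refine ((h1.add h2).add h3).congr_left fun z => ?_
  have := h4 z
  linear_combination (-1) * this

theorem hasExp_inv (N : ℕ) : HasExp (fun z => (1 - z)⁻¹) (fun _ => 1) N := by
  unfold HasExp
  have h0 : ∀ᶠ z : ℝ in 𝓝 0, z ≠ 1 := by
    have : Tendsto (fun z : ℝ => z) (𝓝 0) (𝓝 0) := tendsto_id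
    exact this.eventually_ne (by norm_num)
  have h1 : (fun z : ℝ => (1 - z)⁻¹) =O[𝓝 0] (fun _ => (1 : ℝ)) := by
    have : ContinuousAt (fun z : ℝ => (1 - z)⁻¹) 0 :=
      ContinuousAt.inv₀ (by fun_prop) (by norm_num)
    exact this.tendsto.isBigO_one ℝ
  have h2 : (fun z : ℝ => z ^ N * (1 - z)⁻¹) =O[𝓝 0] (fun z : ℝ => z ^ N) := by
    have := (isBigO_refl (fun z : ℝ => z ^ N) (𝓝 0)).mul h1
    simpa using this
  refine h2.congr' ?_ EventuallyEq.rfl
  filter_upwards [h0] with z hz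
  have h3 : (1 - z) ≠ 0 := sub_ne_zero.mpr hz.symm
  have h4 : (∑ m ∈ range N, z ^ m) * (1 - z) = 1 - z ^ N := by
    have := geom_sum_mul z N
    linear_combination (-1) * this
  have h5 : ∑ m ∈ range N, (1 : ℝ) * z ^ m = (1 - z ^ N) * (1 - z)⁻¹ := by
    simp only [one_mul]
    rw [← h4, mul_assoc, mul_inv_cancel₀ h3, mul_one]
  rw [h5]
  ring

theorem hasExp_inv_pow (j N : ℕ) : HasExp (fun z => ((1 - z)⁻¹) ^ (j + 1))
    (fun m => (((j + m).choose m : ℕ) : ℝ)) N := by
  induction j with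
  | zero =>
    have := hasExp_inv N
    simpa using this
  | succ j ih =>
    have h := ih.mul (hasExp_inv N)
    unfold HasExp at h ⊢
    refine h.congr_left fun z => ?_
    have e0 : (1 - z)⁻¹ ^ (j + 1 + 1) = (1 - z)⁻¹ ^ (j + 1) * (1 - z)⁻¹ := pow_succ _ _
    beta_reduce
    rw [e0]
    congr 1
    refine sum_congr rfl fun m _ => ?_
    congr 1
    simp only [mul_one]
    rw [← Nat.cast_sum]
    congr 1
    have e : ∀ i ∈ range (m + 1), (j + i).choose i = (i + j).choose j := by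
      intro i _
      rw [add_comm j i, ← Nat.choose_symm_add]
    rw [sum_congr rfl e, Nat.sum_range_add_choose]
    have : m + j + 1 = (j + 1) + m := by ring
    rw [this, ← Nat.choose_symm_add]

theorem hasExp_exp (N : ℕ) : HasExp (fun z => Real.exp (-z))
    (fun i => (-1) ^ i / (i.factorial : ℝ)) N := by
  unfold HasExp
  have h := Real.exp_sub_sum_range_isBigO_pow N
  have h1 : Tendsto (fun z : ℝ => -z) (𝓝 0) (𝓝 0) := by
    have : Continuous (fun z : ℝ => -z) := continuous_neg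
    simpa using this.tendsto 0
  have h2 := h.comp_tendsto h1
  refine (h2.trans ?_).congr_left fun z => ?_
  · refine IsBigO.of_bound 1 (Eventually.of_forall fun z => ?_)
    simp
  · simp only [Function.comp_apply]
    congr 1
    refine sum_congr rfl fun m _ => ?_
    rw [neg_pow z m]
    ring

theorem hasExp_pow (j N : ℕ) : HasExp (fun z => z ^ j) (fun m => if m = j then 1 else 0) N := by
  unfold HasExp
  by_cases h : j < N
  · have : ∀ z : ℝ, z ^ j - ∑ m ∈ range N, (if m = j then (1 : ℝ) else 0) * z ^ m = 0 := by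
      intro z
      have e : ∑ m ∈ range N, (if m = j then (1 : ℝ) else 0) * z ^ m = z ^ j := by
        rw [sum_eq_single j]
        · simp
        · intro m _ hm
          simp [hm]
        · intro hj
          exact absurd (mem_range.mpr h) hj
      rw [e, sub_self]
    simp only [this]
    exact isBigO_zero _ _
  · push Not at h
    refine (pow_isBigO h).congr_left fun z => ?_
    have e : ∑ m ∈ range N, (if m = j then (1 : ℝ) else 0) * z ^ m = 0 := by
      refine sum_eq_zero fun m hm => ?_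
      have : m ≠ j := by
        have := mem_range.mp hm
        omega
      simp [this]
    rw [e, sub_zero]

/-- the functional equation up to order `R + 2` -/
theorem func_eq (b : ℕ → ℚ) (hb : FormalB b) (R : ℕ) :
    (fun z : ℝ => ∑ j ∈ range (R + 1), (b j : ℝ) * z ^ j -
      ∑ j ∈ range (R + 1), (b j : ℝ) * (z ^ j * (Real.exp (-z) * ((1 - z)⁻¹) ^ (j + 1))))
      =O[𝓝 0] (fun z : ℝ => z ^ (R + 2)) := by
  have h := HasExp.sum (range (R + 1))
    (fun j z => (b j : ℝ) * (z ^ j * (Real.exp (-z) * ((1 - z)⁻¹) ^ (j + 1)))) _ (R + 2)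
    (fun j _ => ((hasExp_pow j (R + 2)).mul
      ((hasExp_exp (R + 2)).mul (hasExp_inv_pow j (R + 2)))).smul (b j : ℝ))
  unfold HasExp at h
  refine h.neg_left.congr_left fun z => ?_
  have hcc : ∀ j m : ℕ, ∑ i ∈ range (m + 1), (-1 : ℝ) ^ i / (i.factorial : ℝ) *
      (((j + (m - i)).choose (m - i) : ℕ) : ℝ) = (cc j m : ℝ) := by
    intro j m
    unfold cc
    push_cast
    rfl
  have hcoef : ∀ k ∈ range (R + 2), ∑ j ∈ range (R + 1), (b j : ℝ) *
      ∑ i ∈ range (k + 1), (if i = j then (1 : ℝ) else 0) *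
        ∑ l ∈ range (k - i + 1), (-1 : ℝ) ^ l / (l.factorial : ℝ) *
          (((j + (k - i - l)).choose (k - i - l) : ℕ) : ℝ) =
      if k = R + 1 then 0 else (b k : ℝ) := by
    intro k hk
    have hk' := mem_range.mp hk
    have e1 : ∀ j ∈ range (R + 1), (b j : ℝ) *
      ∑ i ∈ range (k + 1), (if i = j then (1 : ℝ) else 0) *
        ∑ l ∈ range (k - i + 1), (-1 : ℝ) ^ l / (l.factorial : ℝ) *
          (((j + (k - i - l)).choose (k - i - l) : ℕ) : ℝ) =
        if j ≤ k then (b j : ℝ) * (cc j (k - j) : ℝ) else 0 := by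
      intro j _
      split_ifs with hjk
      · rw [sum_eq_single j]
        · rw [if_pos rfl, one_mul, hcc]
        · intro i _ hi
          rw [if_neg hi, zero_mul]
        · intro hj
          exact absurd (mem_range.mpr (by omega)) hj
      · rw [sum_eq_zero, mul_zero]
        intro i hi
        have : i ≠ j := by
          have := mem_range.mp hi
          omega
        rw [if_neg this, zero_mul]
    rw [sum_congr rfl e1, ← sum_filter]
    have hB := hb.2 k
    by_cases hkR : k = R + 1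
    · rw [if_pos hkR]
      subst hkR
      have e2 : (range (R + 1)).filter (fun j => j ≤ R + 1) = range (R + 1) := by
        refine filter_true_of_mem fun j hj => ?_
        have := mem_range.mp hj
        omega
      rw [e2]
      rw [sum_range_succ] at hB
      have e3 : cc (R + 1) (R + 1 - (R + 1)) = 1 := by
        simp [cc]
      rw [e3, mul_one] at hB
      have e4 : ∑ j ∈ range (R + 1), b j * cc j (R + 1 - j) = 0 := by linarith
      have e5 := congrArg (fun q : ℚ => (q : ℝ)) e4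
      push_cast at e5
      exact e5
    · rw [if_neg hkR]
      have e2 : (range (R + 1)).filter (fun j => j ≤ k) = range (k + 1) := by
        ext j
        simp only [mem_filter, mem_range]
        omega
      rw [e2]
      have e5 := congrArg (fun q : ℚ => (q : ℝ)) hB
      push_cast at e5
      exact e5
  have e6 : ∑ m ∈ range (R + 2), (∑ j ∈ range (R + 1), (b j : ℝ) *
      ∑ i ∈ range (m + 1), (if i = j then (1 : ℝ) else 0) *
        ∑ l ∈ range (m - i + 1), (-1 : ℝ) ^ l / (l.factorial : ℝ) *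
          (((j + (m - i - l)).choose (m - i - l) : ℕ) : ℝ)) * z ^ m =
      ∑ j ∈ range (R + 1), (b j : ℝ) * z ^ j := by
    rw [sum_congr rfl fun m hm => by rw [hcoef m hm]]
    rw [sum_range_succ, if_pos rfl, zero_mul, add_zero]
    refine sum_congr rfl fun m hm => ?_
    have : m ≠ R + 1 := by
      have := mem_range.mp hm
      omega
    rw [if_neg this]
  rw [← e6]
  ring

end Asym1

open Asym1

theorem asym1_stmt : Asym1Stmt := by
  intro b hb R
  -- notation
  set B : ℝ → ℝ := fun z => ∑ j ∈ range (R + 1), (b j : ℝ) * z ^ j with hB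
  have hBcont : Continuous B := by
    simp only [hB]
    fun_prop
  have hB0 : B 0 = 1 := by
    simp only [hB]
    rw [sum_range_succ']
    simp [hb.1]
  -- the local estimate
  obtain ⟨C, hCpos, hC⟩ := (func_eq b hb R).exists_pos
  rw [isBigOWith_iff] at hC
  have hinv : Tendsto (fun n : ℕ => ((n : ℝ))⁻¹) atTop (𝓝 0) := tendsto_inv_atTop_nhds_zero_nat
  have h1 := hinv.eventually hC
  obtain ⟨n0, hn0⟩ := eventually_atTop.mp (h1.and (eventually_ge_atTop 2))
  -- the sequence `u`
  set u : ℕ → ℝ := fun n => (n : ℝ)⁻¹ * B ((n : ℝ)⁻¹) * Real.exp (harmonic n : ℝ) with hu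
  have hexpH : ∀ n : ℕ, 1 ≤ n → Real.exp (harmonic n : ℝ) ≤ Real.exp 1 * n := by
    intro n hn
    have h2 : ((harmonic n : ℚ) : ℝ) ≤ 1 + Real.log n := harmonic_le_one_add_log n
    calc Real.exp (harmonic n : ℝ) ≤ Real.exp (1 + Real.log n) := Real.exp_le_exp.mpr h2
      _ = Real.exp 1 * n := by
          rw [Real.exp_add, Real.exp_log (by exact_mod_cast hn)]
  have hstep : ∀ n : ℕ, n0 ≤ n + 1 → 1 ≤ n →
      |u (n + 1) - u n| ≤ C * Real.exp 1 * (((n + 1 : ℕ) : ℝ)⁻¹) ^ (R + 2) := by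
    intro n hn hn1
    have hnp : (0 : ℝ) < n := by exact_mod_cast hn1
    have hn1p : (0 : ℝ) < ((n + 1 : ℕ) : ℝ) := by positivity
    obtain ⟨h2, -⟩ := hn0 (n + 1) hn
    set z : ℝ := (((n + 1 : ℕ) : ℝ))⁻¹ with hz
    have hz0 : 0 < z := by positivity
    have h1z : (1 - z)⁻¹ = ((n + 1 : ℕ) : ℝ) / n := by
      have : 1 - z = (n : ℝ) / ((n + 1 : ℕ) : ℝ) := by
        rw [hz]
        field_simp
        push_cast
        ring
      rw [this, inv_div]
    have hzz : z * (1 - z)⁻¹ = (n : ℝ)⁻¹ := by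
      rw [h1z, hz]
      field_simp
    have hsum : ∑ j ∈ range (R + 1), (b j : ℝ) * (z ^ j * (Real.exp (-z) * ((1 - z)⁻¹) ^ (j + 1)))
        = B ((n : ℝ)⁻¹) * (Real.exp (-z) * (1 - z)⁻¹) := by
      simp only [hB]
      rw [sum_mul]
      refine sum_congr rfl fun j _ => ?_
      rw [← hzz, mul_pow, pow_succ]
      ring
    rw [hsum, Real.norm_eq_abs, Real.norm_eq_abs, abs_of_nonneg (pow_nonneg hz0.le _)] at h2
    have hdiff : u (n + 1) - u n = z * Real.exp (harmonic (n + 1) : ℝ) *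
        (∑ j ∈ range (R + 1), (b j : ℝ) * z ^ j -
          B ((n : ℝ)⁻¹) * (Real.exp (-z) * (1 - z)⁻¹)) := by
      have hh : Real.exp (harmonic (n + 1) : ℝ) = Real.exp (harmonic n : ℝ) * Real.exp z := by
        rw [← Real.exp_add]
        congr 1
        rw [harmonic_succ]
        push_cast
        rw [hz]
        push_cast
        ring
      have hee : Real.exp z * Real.exp (-z) = 1 := by
        rw [← Real.exp_add]; simp
      have h3 : u n = z * Real.exp (harmonic (n + 1) : ℝ) *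
          (B ((n : ℝ)⁻¹) * (Real.exp (-z) * (1 - z)⁻¹)) := by
        simp only [hu]
        rw [hh]
        calc (n : ℝ)⁻¹ * B ((n : ℝ)⁻¹) * Real.exp (harmonic n : ℝ)
            = (z * (1 - z)⁻¹) * B ((n : ℝ)⁻¹) * Real.exp (harmonic n : ℝ) * 1 := by
              rw [hzz]; ring
          _ = _ := by rw [← hee]; ring
      have h4 : u (n + 1) = z * Real.exp (harmonic (n + 1) : ℝ) *
          (∑ j ∈ range (R + 1), (b j : ℝ) * z ^ j) := by
        simp only [hu, hB]
        ring
      rw [h3, h4]; ring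
    rw [hdiff, abs_mul, abs_of_nonneg (by positivity : 0 ≤ z * Real.exp (harmonic (n + 1) : ℝ))]
    have h5 : z * Real.exp (harmonic (n + 1) : ℝ) ≤ Real.exp 1 := by
      calc z * Real.exp (harmonic (n + 1) : ℝ) ≤ z * (Real.exp 1 * ((n + 1 : ℕ) : ℝ)) :=
            mul_le_mul_of_nonneg_left (hexpH (n + 1) (by omega)) hz0.le
        _ = Real.exp 1 := by
            rw [hz]; field_simp
    calc z * Real.exp (harmonic (n + 1) : ℝ) * |∑ j ∈ range (R + 1), (b j : ℝ) * z ^ j -
          B ((n : ℝ)⁻¹) * (Real.exp (-z) * (1 - z)⁻¹)|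
        ≤ Real.exp 1 * (C * z ^ (R + 2)) :=
          mul_le_mul h5 h2 (abs_nonneg _) (Real.exp_pos 1).le
      _ = C * Real.exp 1 * z ^ (R + 2) := by ring
  -- the limit
  have hlim : Tendsto u atTop (𝓝 (Real.exp Real.eulerMascheroniConstant)) := by
    have h2 : Tendsto (fun n : ℕ => B ((n : ℝ)⁻¹) *
        Real.exp ((harmonic n : ℝ) - Real.log n)) atTop
        (𝓝 (1 * Real.exp Real.eulerMascheroniConstant)) := by
      refine Tendsto.mul ?_ ?_
      · rw [← hB0]
        exact (hBcont.tendsto 0).comp hinv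
      · exact (Real.continuous_exp.tendsto _).comp Real.tendsto_harmonic_sub_log
    rw [one_mul] at h2
    refine h2.congr' ?_
    filter_upwards [eventually_ge_atTop 1] with n hn
    have hnp : (0 : ℝ) < n := by exact_mod_cast hn
    rw [Real.exp_sub, Real.exp_log hnp]
    simp only [hu]
    field_simp
  -- telescoping
  set C' := C * Real.exp 1 with hC'
  have hC'0 : 0 ≤ C' := by positivity
  have htel : ∀ n : ℕ, n0 ≤ n → 1 ≤ n → ∀ k : ℕ,
      |u (n + k) - u n| ≤ C' * ((n : ℝ)⁻¹) ^ R * ((n : ℝ)⁻¹ - ((n + k : ℕ) : ℝ)⁻¹) := by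
    intro n hn hn1 k
    have hnp : (0 : ℝ) < n := by exact_mod_cast hn1
    induction k with
    | zero => simp
    | succ k ih =>
      have h2 := hstep (n + k) (by omega) (by omega)
      have hkp : (0 : ℝ) < ((n + k : ℕ) : ℝ) := by
        have : 0 < n + k := by omega
        exact_mod_cast this
      have hkp' : (0 : ℝ) < ((n + k + 1 : ℕ) : ℝ) := by positivity
      have h3 : (((n + k + 1 : ℕ) : ℝ)⁻¹) ^ (R + 2) ≤
          ((n : ℝ)⁻¹) ^ R * (((n + k : ℕ) : ℝ)⁻¹ - ((n + k + 1 : ℕ) : ℝ)⁻¹) := by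
        rw [pow_add]
        refine mul_le_mul ?_ ?_ (by positivity) (by positivity)
        · refine pow_le_pow_left₀ (by positivity) ?_ _
          refine inv_anti₀ hnp ?_
          exact_mod_cast (by omega : n ≤ n + k + 1)
        · have e : ((n + k : ℕ) : ℝ)⁻¹ - ((n + k + 1 : ℕ) : ℝ)⁻¹ =
              (((n + k : ℕ) : ℝ) * ((n + k + 1 : ℕ) : ℝ))⁻¹ := by
            have : ((n + k + 1 : ℕ) : ℝ) = ((n + k : ℕ) : ℝ) + 1 := by push_cast; ring
            rw [this] at hkp' ⊢
            field_simp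
            ring
          rw [e, inv_pow]
          refine inv_anti₀ (by positivity) ?_
          have : ((n + k + 1 : ℕ) : ℝ) = ((n + k : ℕ) : ℝ) + 1 := by push_cast; ring
          rw [this]
          nlinarith
      calc |u (n + (k + 1)) - u n| = |(u (n + k + 1) - u (n + k)) + (u (n + k) - u n)| := by
            rw [show n + (k + 1) = n + k + 1 by ring]
            congr 1; ring
        _ ≤ |u (n + k + 1) - u (n + k)| + |u (n + k) - u n| := abs_add_le _ _
        _ ≤ C' * (((n : ℝ)⁻¹) ^ R * (((n + k : ℕ) : ℝ)⁻¹ - ((n + k + 1 : ℕ) : ℝ)⁻¹)) +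
            C' * ((n : ℝ)⁻¹) ^ R * ((n : ℝ)⁻¹ - ((n + k : ℕ) : ℝ)⁻¹) :=
            add_le_add (h2.trans (mul_le_mul_of_nonneg_left h3 hC'0)) ih
        _ = _ := by
            rw [show n + (k + 1) = n + k + 1 by ring]
            ring
  have hfin : ∀ n : ℕ, n0 ≤ n → 1 ≤ n →
      |Real.exp Real.eulerMascheroniConstant - u n| ≤ C' * ((n : ℝ)⁻¹) ^ (R + 1) := by
    intro n hn hn1
    have hnp : (0 : ℝ) < n := by exact_mod_cast hn1
    have h2 : Tendsto (fun k : ℕ => |u (n + k) - u n|) atTop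
        (𝓝 |Real.exp Real.eulerMascheroniConstant - u n|) := by
      have h3 : Tendsto (fun k : ℕ => u (n + k)) atTop
          (𝓝 (Real.exp Real.eulerMascheroniConstant)) := by
        have := (tendsto_add_atTop_iff_nat n).mpr hlim
        refine this.congr fun k => by rw [add_comm]
      exact (h3.sub_const _).abs
    refine le_of_tendsto h2 (Eventually.of_forall fun k => ?_)
    refine (htel n hn hn1 k).trans ?_
    rw [pow_succ, ← mul_assoc]
    refine mul_le_mul_of_nonneg_left ?_ (by positivity)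
    have : 0 ≤ ((n + k : ℕ) : ℝ)⁻¹ := by positivity
    linarith
  -- large `n`
  have hbig : ∀ n : ℕ, n0 ≤ n → 1 ≤ n →
      |Real.exp (Real.eulerMascheroniConstant - (harmonic n : ℝ)) -
        (1 / (n : ℝ)) * ∑ j ∈ range (R + 1), (b j : ℝ) * (1 / (n : ℝ)) ^ j| ≤
        C' * (1 / (n : ℝ)) ^ (R + 2) := by
    intro n hn hn1
    have hnp : (0 : ℝ) < n := by exact_mod_cast hn1
    have hee : Real.exp (-(harmonic n : ℝ)) * Real.exp (harmonic n : ℝ) = 1 := by
      rw [← Real.exp_add]; simp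
    have h2 : Real.exp (Real.eulerMascheroniConstant - (harmonic n : ℝ)) -
        (1 / (n : ℝ)) * ∑ j ∈ range (R + 1), (b j : ℝ) * (1 / (n : ℝ)) ^ j =
        Real.exp (-(harmonic n : ℝ)) * (Real.exp Real.eulerMascheroniConstant - u n) := by
      have h3 : Real.exp (-(harmonic n : ℝ)) * u n =
          (1 / (n : ℝ)) * ∑ j ∈ range (R + 1), (b j : ℝ) * (1 / (n : ℝ)) ^ j := by
        simp only [hu, hB, one_div]
        calc _ = (Real.exp (-(harmonic n : ℝ)) * Real.exp (harmonic n : ℝ)) *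
              ((n : ℝ)⁻¹ * ∑ j ∈ range (R + 1), (b j : ℝ) * ((n : ℝ)⁻¹) ^ j) := by ring
          _ = _ := by rw [hee, one_mul]
      rw [mul_sub, h3, ← Real.exp_add]
      congr 2
      ring
    rw [h2, abs_mul, abs_of_pos (Real.exp_pos _)]
    have h4 : Real.exp (-(harmonic n : ℝ)) ≤ (n : ℝ)⁻¹ := by
      rw [Real.exp_neg]
      refine inv_anti₀ hnp ?_
      have h5 : Real.log ((n + 1 : ℕ) : ℝ) ≤ ((harmonic n : ℚ) : ℝ) := log_add_one_le_harmonic n
      calc (n : ℝ) ≤ ((n + 1 : ℕ) : ℝ) := by push_cast; linarith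
        _ = Real.exp (Real.log ((n + 1 : ℕ) : ℝ)) := (Real.exp_log (by positivity)).symm
        _ ≤ _ := Real.exp_le_exp.mpr h5
    calc Real.exp (-(harmonic n : ℝ)) * |Real.exp Real.eulerMascheroniConstant - u n|
        ≤ (n : ℝ)⁻¹ * (C' * ((n : ℝ)⁻¹) ^ (R + 1)) :=
          mul_le_mul h4 (hfin n hn hn1) (abs_nonneg _) (by positivity)
      _ = C' * (1 / (n : ℝ)) ^ (R + 2) := by
          rw [one_div]; ring
  -- all `n`
  set E : ℕ → ℝ := fun n => |Real.exp (Real.eulerMascheroniConstant - (harmonic n : ℝ)) -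
        (1 / (n : ℝ)) * ∑ j ∈ range (R + 1), (b j : ℝ) * (1 / (n : ℝ)) ^ j| with hE
  have hE0 : ∀ n, 0 ≤ E n := fun n => abs_nonneg _
  refine ⟨C' + (∑ m ∈ range n0, E m) * (n0 : ℝ) ^ (R + 2), fun n hn => ?_⟩
  have hnp : (0 : ℝ) < n := by exact_mod_cast hn
  have hS0 : 0 ≤ ∑ m ∈ range n0, E m := sum_nonneg fun m _ => hE0 m
  by_cases hnn : n0 ≤ n
  · refine (hbig n hnn hn).trans ?_
    refine mul_le_mul_of_nonneg_right ?_ (by positivity)
    have : 0 ≤ (∑ m ∈ range n0, E m) * (n0 : ℝ) ^ (R + 2) := by positivity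
    linarith
  · push Not at hnn
    have h2 : E n ≤ ∑ m ∈ range n0, E m :=
      single_le_sum (fun m _ => hE0 m) (mem_range.mpr hnn)
    have h3 : (1 : ℝ) ≤ (n0 : ℝ) ^ (R + 2) * (1 / (n : ℝ)) ^ (R + 2) := by
      rw [← mul_pow]
      refine one_le_pow₀ ?_
      rw [mul_one_div, le_div_iff₀ hnp, one_mul]
      exact_mod_cast hnn.le
    calc E n ≤ (∑ m ∈ range n0, E m) * 1 := by rw [mul_one]; exact h2
      _ ≤ (∑ m ∈ range n0, E m) * ((n0 : ℝ) ^ (R + 2) * (1 / (n : ℝ)) ^ (R + 2)) :=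
          mul_le_mul_of_nonneg_left h3 hS0
      _ ≤ (C' + (∑ m ∈ range n0, E m) * (n0 : ℝ) ^ (R + 2)) * (1 / (n : ℝ)) ^ (R + 2) := by
          have : 0 ≤ C' * (1 / (n : ℝ)) ^ (R + 2) := by positivity
          nlinarith

end Pool.MP01f3ee
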