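import Mathlib
import Pool.Agent.Lib.MP_01f3ee_nt.Defs

set_option autoImplicit false

namespace Pool.MP01f3ee
namespace Asym2

open Finset

/-- The truncation of the series with coefficients `b`. -/
noncomputable def BT (b : ℕ → ℚ) (R : ℕ) : Polynomial ℚ :=
  PowerSeries.trunc (R + 1) (PowerSeries.mk b)

lemma aeval_BT (b : ℕ → ℚ) (R : ℕ) (z : ℝ) :
    Polynomial.aeval z (BT b R) = ∑ j ∈ range (R + 1), (b j : ℝ) * z ^ j := by
  have h1 : BT b R = ∑ j ∈ range (R + 1), Polynomial.C (b j) * Polynomial.X ^ j := by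
    ext k
    unfold BT
    rw [PowerSeries.coeff_trunc, Polynomial.finsetSum_coeff]
    simp only [Polynomial.coeff_C_mul, Polynomial.coeff_X_pow, PowerSeries.coeff_mk]
    simp [Finset.sum_ite_eq]
  rw [h1]
  simp [map_sum]

/-- The difference polynomial. -/
noncomputable def PP (b φ : ℕ → ℚ) (R : ℕ) : Polynomial ℚ :=
  ∑ a ∈ range (R + 1), Polynomial.C (φ a) * (Polynomial.X ^ a * (BT b R) ^ a) - BT b R

lemma aeval_PP (b φ : ℕ → ℚ) (R : ℕ) (z : ℝ) :
    Polynomial.aeval z (PP b φ R) =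
      ∑ a ∈ range (R + 1), (φ a : ℝ) * (z ^ a * (Polynomial.aeval z (BT b R)) ^ a) -
        Polynomial.aeval z (BT b R) := by
  unfold PP
  simp [map_sum]

lemma coeff_BT_pow (b : ℕ → ℚ) (R a k : ℕ) (hk : k < R + 1) :
    ((BT b R) ^ a).coeff k = PowerSeries.coeff k ((PowerSeries.mk b) ^ a) := by
  have h := PowerSeries.trunc_trunc_pow (PowerSeries.mk b) (R + 1) a
  have h2 := congrArg (fun p : Polynomial ℚ => p.coeff k) h
  simp only [PowerSeries.coeff_trunc, hk, if_true] at h2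
  rw [← h2]
  have : ((PowerSeries.trunc (R + 1) (PowerSeries.mk b) : Polynomial ℚ) : PowerSeries ℚ) ^ a =
      (((BT b R) ^ a : Polynomial ℚ) : PowerSeries ℚ) := by
    rw [Polynomial.coe_pow]; rfl
  rw [this, Polynomial.coeff_coe]

lemma coeff_PP (b φ : ℕ → ℚ) (hphi : FormalPhi b φ) (R k : ℕ) (hk : k < R + 1) :
    (PP b φ R).coeff k = 0 := by
  unfold PP
  rw [Polynomial.coeff_sub, Polynomial.finsetSum_coeff]
  have h1 : (BT b R).coeff k = b k := by
    unfold BT
    rw [PowerSeries.coeff_trunc, if_pos hk, PowerSeries.coeff_mk]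
  rw [h1, ← hphi k, sub_eq_zero]
  have h2 : ∀ a ∈ range (R + 1), (Polynomial.C (φ a) * (Polynomial.X ^ a * (BT b R) ^ a)).coeff k =
      if a ≤ k then φ a * (PowerSeries.coeff (k - a)) ((PowerSeries.mk b) ^ a) else 0 := by
    intro a _
    rw [Polynomial.coeff_C_mul, Polynomial.coeff_X_pow_mul']
    split_ifs with h
    · rw [coeff_BT_pow b R a (k - a) (by omega)]
    · simp
  rw [Finset.sum_congr rfl h2, ← Finset.sum_filter]
  apply Finset.sum_congr _ (fun _ _ => rfl)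
  ext a
  simp only [mem_filter, mem_range]
  omega

lemma bound_of_coeff (P : Polynomial ℚ) (R : ℕ) (h : ∀ k < R + 1, P.coeff k = 0) :
    ∃ C : ℝ, 0 ≤ C ∧ ∀ z : ℝ, 0 ≤ z → z ≤ 1 → |Polynomial.aeval z P| ≤ C * z ^ (R + 1) := by
  obtain ⟨Q, hQ⟩ := (Polynomial.X_pow_dvd_iff).mpr h
  have hcont : Continuous (fun z : ℝ => Polynomial.aeval z Q) := by
    exact Polynomial.continuous_aeval Q
  obtain ⟨C, hC⟩ := (isCompact_Icc (a := (0 : ℝ)) (b := 1)).exists_bound_of_continuousOn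
    hcont.continuousOn
  refine ⟨|C|, abs_nonneg _, ?_⟩
  intro z hz0 hz1
  rw [hQ, map_mul, map_pow, Polynomial.aeval_X, abs_mul, mul_comm, abs_of_nonneg (pow_nonneg hz0 _)]
  have := hC z ⟨hz0, hz1⟩
  rw [Real.norm_eq_abs] at this
  exact mul_le_mul_of_nonneg_right (this.trans (le_abs_self C)) (pow_nonneg hz0 _)

lemma pow_sub_bound (x y M : ℝ) (hx : |x| ≤ M) (hy : |y| ≤ M) (a : ℕ) :
    |x ^ a - y ^ a| ≤ (a : ℝ) * M ^ (a - 1) * |x - y| := by
  have hM : 0 ≤ M := (abs_nonneg x).trans hx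
  induction a with
  | zero => simp
  | succ a ih =>
    have h1 : x ^ (a + 1) - y ^ (a + 1) = x ^ a * (x - y) + (x ^ a - y ^ a) * y := by ring
    rw [h1]
    have h2 : |x ^ a * (x - y)| ≤ M ^ a * |x - y| := by
      rw [abs_mul, abs_pow]
      exact mul_le_mul_of_nonneg_right (pow_le_pow_left₀ (abs_nonneg _) hx a) (abs_nonneg _)
    have h3 : |(x ^ a - y ^ a) * y| ≤ (a : ℝ) * M ^ a * |x - y| := by
      rw [abs_mul]
      rcases Nat.eq_zero_or_pos a with h0 | h0
      · subst h0; simp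
      · have h4 : M ^ a = M ^ (a - 1) * M := by
          rw [← pow_succ]; congr 1; omega
        calc |x ^ a - y ^ a| * |y| ≤ ((a : ℝ) * M ^ (a - 1) * |x - y|) * M :=
              mul_le_mul ih hy (abs_nonneg _) (by positivity)
          _ = (a : ℝ) * M ^ a * |x - y| := by rw [h4]; ring
    calc |x ^ a * (x - y) + (x ^ a - y ^ a) * y| ≤ M ^ a * |x - y| + (a : ℝ) * M ^ a * |x - y| :=
          (abs_add_le _ _).trans (add_le_add h2 h3)
      _ = ((a + 1 : ℕ) : ℝ) * M ^ (a + 1 - 1) * |x - y| := by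
          rw [Nat.add_sub_cancel]; push_cast; ring

end Asym2

open Finset Asym2

theorem asym2_stmt : Asym2Stmt := by
  intro b φ hB hphi hA R
  obtain ⟨C0, hC0⟩ := hA 0
  obtain ⟨C1, hC1⟩ := hA R
  obtain ⟨C2, hC2n, hC2⟩ := bound_of_coeff (PP b φ R) R (coeff_PP b φ hphi R)
  -- bound for `B_R` on `[0,1]`
  have hcont : Continuous (fun z : ℝ => Polynomial.aeval z (BT b R)) :=
    Polynomial.continuous_aeval _
  obtain ⟨C3, hC3⟩ := (isCompact_Icc (a := (0 : ℝ)) (b := 1)).exists_bound_of_continuousOn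
    hcont.continuousOn
  set M : ℝ := |C3| + (1 + |C0|) with hM
  have hMpos : 0 < M := by positivity
  set S : ℝ := ∑ a ∈ range (R + 1), |(φ a : ℝ)| * ((a : ℝ) * M ^ (a - 1)) with hS
  have hSn : 0 ≤ S := Finset.sum_nonneg (fun a _ => by positivity)
  set g : ℝ := Real.eulerMascheroniConstant with hg
  set c : ℝ := Real.exp (g - 1) with hc
  have hcpos : 0 < c := Real.exp_pos _
  refine ⟨(|C1| + S * |C1| + C2) / c ^ (R + 1), ?_⟩
  intro n hn
  have hnpos : (0 : ℝ) < n := by exact_mod_cast hn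
  have hn1 : (1 : ℝ) ≤ n := by exact_mod_cast hn
  set z : ℝ := 1 / (n : ℝ) with hz
  have hzpos : 0 < z := by positivity
  have hz1 : z ≤ 1 := by rw [hz, div_le_one hnpos]; exact hn1
  have hnz : (n : ℝ) * z = 1 := by rw [hz]; field_simp
  set v : ℝ := Real.exp (g - (harmonic n : ℝ)) with hv
  have hvpos : 0 < v := Real.exp_pos _
  -- lower bound `v ≥ c z`
  have hvlow : c * z ≤ v := by
    have h1 : (harmonic n : ℝ) ≤ 1 + Real.log n := harmonic_le_one_add_log n
    have h2 : c * z = Real.exp (g - 1 - Real.log n) := by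
      rw [hc, Real.exp_sub (g - 1) (Real.log n), Real.exp_log hnpos, hz]; ring
    rw [h2, hv]
    apply Real.exp_le_exp.mpr
    linarith
  -- upper bound
  have h00 : |v - z| ≤ C0 * z ^ 2 := by
    have := hC0 n hn
    simp only [zero_add, Finset.sum_range_one, pow_zero, mul_one] at this
    rw [hB.1, Rat.cast_one, mul_one] at this
    exact this
  set w : ℝ := (n : ℝ) * v with hw
  have hvw : v = z * w := by
    rw [hw, ← mul_assoc, mul_comm z (n : ℝ), hnz, one_mul]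
  have hwb : |w| ≤ M := by
    have h1 : |w - 1| ≤ |C0| := by
      have h2 : w - 1 = n * (v - z) := by rw [mul_sub, hnz]
      rw [h2, abs_mul, abs_of_pos hnpos]
      calc (n : ℝ) * |v - z| ≤ n * (C0 * z ^ 2) := mul_le_mul_of_nonneg_left h00 hnpos.le
        _ = C0 * z * ((n : ℝ) * z) := by ring
        _ = C0 * z := by rw [hnz, mul_one]
        _ ≤ |C0| * 1 := mul_le_mul (le_abs_self _) hz1 hzpos.le (abs_nonneg _)
        _ = |C0| := mul_one _
    have h3 : |w| ≤ |w - 1| + 1 := by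
      have := abs_add_le (w - 1) 1
      simpa using this
    have : 0 ≤ |C3| := abs_nonneg _
    linarith
  set B : ℝ := Polynomial.aeval z (BT b R) with hBdef
  have hBb : |B| ≤ M := by
    have h1 := hC3 z ⟨hzpos.le, hz1⟩
    rw [Real.norm_eq_abs] at h1
    have h2 := le_abs_self C3
    have h3 : 0 ≤ 1 + |C0| := by positivity
    linarith
  have hwB : |w - B| ≤ |C1| * z ^ (R + 1) := by
    have h1 := hC1 n hn
    rw [← aeval_BT b R (1 / (n : ℝ))] at h1
    have h2 : w - B = n * (v - z * B) := by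
      rw [mul_sub, ← mul_assoc, hnz, one_mul]
    rw [h2, abs_mul, abs_of_pos hnpos]
    have h1' : |v - z * B| ≤ C1 * z ^ (R + 2) := h1
    calc (n : ℝ) * |v - z * B| ≤ n * (C1 * z ^ (R + 2)) := mul_le_mul_of_nonneg_left h1' hnpos.le
      _ = C1 * z ^ (R + 1) * ((n : ℝ) * z) := by ring
      _ = C1 * z ^ (R + 1) := by rw [hnz, mul_one]
      _ ≤ |C1| * z ^ (R + 1) := mul_le_mul_of_nonneg_right (le_abs_self _) (by positivity)
  -- the sum
  have hsum : |∑ a ∈ range (R + 1), (φ a : ℝ) * v ^ a -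
      ∑ a ∈ range (R + 1), (φ a : ℝ) * (z ^ a * B ^ a)| ≤ S * (|C1| * z ^ (R + 1)) := by
    rw [← Finset.sum_sub_distrib, hS, Finset.sum_mul]
    refine (Finset.abs_sum_le_sum_abs _ _).trans (Finset.sum_le_sum ?_)
    intro a _
    have h1 : (φ a : ℝ) * v ^ a - (φ a : ℝ) * (z ^ a * B ^ a) =
        (φ a : ℝ) * (z ^ a * (w ^ a - B ^ a)) := by
      rw [hvw, mul_pow]; ring
    rw [h1, abs_mul, abs_mul, mul_assoc]
    apply mul_le_mul_of_nonneg_left _ (abs_nonneg _)
    have h2 : |z ^ a| ≤ 1 := by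
      rw [abs_of_nonneg (pow_nonneg hzpos.le _)]
      exact pow_le_one₀ hzpos.le hz1
    calc |z ^ a| * |w ^ a - B ^ a| ≤ 1 * ((a : ℝ) * M ^ (a - 1) * |w - B|) :=
          mul_le_mul h2 (pow_sub_bound w B M hwb hBb a) (abs_nonneg _) zero_le_one
      _ = (a : ℝ) * M ^ (a - 1) * |w - B| := one_mul _
      _ ≤ (a : ℝ) * M ^ (a - 1) * (|C1| * z ^ (R + 1)) :=
          mul_le_mul_of_nonneg_left hwB (by positivity)
  have hPP : |∑ a ∈ range (R + 1), (φ a : ℝ) * (z ^ a * B ^ a) - B| ≤ C2 * z ^ (R + 1) := by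
    have := hC2 z hzpos.le hz1
    rw [aeval_PP] at this
    exact this
  have hmain : |w - ∑ a ∈ range (R + 1), (φ a : ℝ) * v ^ a| ≤
      (|C1| + S * |C1| + C2) * z ^ (R + 1) := by
    have h1 : w - ∑ a ∈ range (R + 1), (φ a : ℝ) * v ^ a =
        (w - B) - (∑ a ∈ range (R + 1), (φ a : ℝ) * (z ^ a * B ^ a) - B) -
        (∑ a ∈ range (R + 1), (φ a : ℝ) * v ^ a -
          ∑ a ∈ range (R + 1), (φ a : ℝ) * (z ^ a * B ^ a)) := by ring
    rw [h1]
    refine (abs_sub _ _).trans ?_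
    have h2 := abs_sub (w - B) (∑ a ∈ range (R + 1), (φ a : ℝ) * (z ^ a * B ^ a) - B)
    nlinarith [h2, hsum, hPP, hwB]
  -- conclusion
  have hzc : z ^ (R + 1) ≤ v ^ (R + 1) / c ^ (R + 1) := by
    rw [le_div_iff₀ (pow_pos hcpos _), ← mul_pow, mul_comm z c]
    exact pow_le_pow_left₀ (by positivity) hvlow _
  have hK : 0 ≤ |C1| + S * |C1| + C2 := by positivity
  have hfin : |w - ∑ a ∈ range (R + 1), (φ a : ℝ) * v ^ a| ≤
      (|C1| + S * |C1| + C2) / c ^ (R + 1) * v ^ (R + 1) := by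
    refine hmain.trans ((mul_le_mul_of_nonneg_left hzc hK).trans (le_of_eq ?_))
    ring
  -- rewrite in terms of exponentials
  have hexp : ∀ a : ℕ, Real.exp ((1 - (a : ℝ)) * ((harmonic n : ℝ) - g)) = v ^ a / v := by
    intro a
    rw [hv, ← Real.exp_nat_mul, ← Real.exp_sub]
    congr 1; ring
  have hexpR : Real.exp (-(R : ℝ) * ((harmonic n : ℝ) - g)) = v ^ R := by
    rw [hv, ← Real.exp_nat_mul]
    congr 1; ring
  rw [hexpR]
  have hlhs : (n : ℝ) - ∑ a ∈ range (R + 1), (φ a : ℝ) *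
      Real.exp ((1 - (a : ℝ)) * ((harmonic n : ℝ) - g)) =
      (w - ∑ a ∈ range (R + 1), (φ a : ℝ) * v ^ a) / v := by
    simp_rw [hexp]
    rw [sub_div, Finset.sum_div, hw, mul_div_assoc, div_self hvpos.ne', mul_one]
    congr 1
    apply Finset.sum_congr rfl
    intro a _
    rw [mul_div_assoc]
  rw [hlhs, abs_div, abs_of_pos hvpos, div_le_iff₀ hvpos]
  refine hfin.trans (le_of_eq ?_)
  rw [pow_succ]; ring

end Pool.MP01f3ee
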