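import Mathlib
import Pool.Agent.Lib.MP_01f3ee_nt.Defs

set_option autoImplicit false

namespace Pool.MP01f3ee

open Finset Filter

namespace Core

/-- The ultrafilter. -/
noncomputable abbrev UU : Filter ℕ := (Filter.hyperfilter ℕ : Filter ℕ)

/-- The ring of germs. -/
def FF : Type := Filter.Germ UU ℝ

noncomputable instance : CommRing FF := inferInstanceAs (CommRing (Filter.Germ UU ℝ))

/-- The quotient map. -/
noncomputable def pr : (ℕ → ℝ) →+* FF := Filter.Germ.coeRingHom UU

theorem pr_eq {z w : ℕ → ℝ} : pr z = pr w ↔ z =ᶠ[UU] w := Filter.Germ.coe_eq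

noncomputable instance : Algebra ℚ FF := (pr.comp (algebraMap ℚ (ℕ → ℝ))).toAlgebra

theorem smul_pr (q : ℚ) (z : ℕ → ℝ) : q • pr z = pr (fun K => (q : ℝ) * z K) := by
  rw [Algebra.smul_def]
  change pr (algebraMap ℚ (ℕ → ℝ) q) * pr z = _
  rw [← map_mul]
  rfl

theorem one_ne : (1 : FF) ≠ 0 := by
  intro h
  have h1 : pr (fun _ => (1 : ℝ)) = pr (fun _ => (0 : ℝ)) := h
  rw [pr_eq] at h1
  obtain ⟨K, hK⟩ := h1.exists
  exact one_ne_zero hK

variable {r : ℕ} (D : SeqData r)

theorem Y_pos (K : ℕ) : 1 ≤ D.Y K := by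
  have h1 := D.hY K
  have h2 : (0 : ℝ) ≤ K := Nat.cast_nonneg K
  linarith

theorem Y_tendsto : Tendsto D.Y UU atTop := by
  have h1 : Tendsto D.Y atTop atTop := by
    apply tendsto_atTop_mono D.hY
    exact tendsto_atTop_add_const_right _ _ tendsto_natCast_atTop_atTop
  exact h1.mono_left Nat.hyperfilter_le_atTop

/-- Growth bound. -/
def Bd (s : ℤ) (z : ℕ → ℝ) : Prop :=
  ∀ η : ℝ, 0 < η → ∀ᶠ K in UU, |z K| ≤ Real.exp (((s : ℝ) + η) * D.Y K)

theorem Bd_congr {s : ℤ} {z w : ℕ → ℝ} (h : z =ᶠ[UU] w) (hz : Bd D s z) : Bd D s w := by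
  intro η hη
  filter_upwards [h, hz η hη] with K h1 h2
  rw [← h1]; exact h2

theorem Bd_add {s : ℤ} {z w : ℕ → ℝ} (hz : Bd D s z) (hw : Bd D s w) :
    Bd D s (z + w) := by
  intro η hη
  have h1 : ∀ᶠ K in UU, 2 / η ≤ D.Y K := (Y_tendsto D).eventually_ge_atTop _
  filter_upwards [hz (η / 2) (by positivity), hw (η / 2) (by positivity), h1] with K h2 h3 h4
  have h5 : (2 : ℝ) ≤ Real.exp (η / 2 * D.Y K) := by
    have h6 : 1 ≤ η / 2 * D.Y K := by
      rw [div_le_iff₀ hη] at h4
      linarith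
    have := Real.add_one_le_exp (η / 2 * D.Y K)
    linarith
  calc |(z + w) K| ≤ |z K| + |w K| := abs_add_le _ _
    _ ≤ 2 * Real.exp (((s : ℝ) + η / 2) * D.Y K) := by linarith
    _ ≤ Real.exp (η / 2 * D.Y K) * Real.exp (((s : ℝ) + η / 2) * D.Y K) := by
        gcongr
    _ = Real.exp (((s : ℝ) + η) * D.Y K) := by
        rw [← Real.exp_add]; congr 1; ring

theorem Bd_mul {s t : ℤ} {z w : ℕ → ℝ} (hz : Bd D s z) (hw : Bd D t w) :
    Bd D (s + t) (z * w) := by
  intro η hη
  filter_upwards [hz (η / 2) (by positivity), hw (η / 2) (by positivity)] with K h2 h3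
  calc |(z * w) K| = |z K| * |w K| := abs_mul _ _
    _ ≤ Real.exp (((s : ℝ) + η / 2) * D.Y K) * Real.exp (((t : ℝ) + η / 2) * D.Y K) := by
        gcongr
    _ = Real.exp ((((s + t : ℤ) : ℝ) + η) * D.Y K) := by
        rw [← Real.exp_add]; congr 1; push_cast; ring

theorem Bd_mono {s t : ℤ} (hst : s ≤ t) {z : ℕ → ℝ} (hz : Bd D s z) : Bd D t z := by
  intro η hη
  filter_upwards [hz η hη] with K h2
  refine h2.trans (Real.exp_le_exp.2 ?_)
  have h1 : (s : ℝ) ≤ t := by exact_mod_cast hst
  have := Y_pos D K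
  nlinarith

theorem Bd_const (c : ℝ) : Bd D 0 (fun _ => c) := by
  intro η hη
  have h1 : ∀ᶠ K in UU, |c| / η ≤ D.Y K := (Y_tendsto D).eventually_ge_atTop _
  filter_upwards [h1] with K h4
  rw [div_le_iff₀ hη] at h4
  have h6 := Real.add_one_le_exp ((((0 : ℤ) : ℝ) + η) * D.Y K)
  have h7 : (((0 : ℤ) : ℝ) + η) * D.Y K = D.Y K * η := by push_cast; ring
  rw [h7] at h6 ⊢
  linarith

/-- The subgroup of sequences with a growth bound. -/
def BdSub (s : ℤ) : AddSubgroup (ℕ → ℝ) where
  carrier := {z | Bd D s z}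
  zero_mem' := by
    intro η hη
    filter_upwards with K
    rw [Pi.zero_apply, abs_zero]
    exact (Real.exp_pos _).le
  add_mem' := fun hz hw => Bd_add D hz hw
  neg_mem' := by
    intro z hz η hη
    filter_upwards [hz η hη] with K h
    rw [Pi.neg_apply, abs_neg]
    exact h

/-- The filtration of the ring of germs. -/
noncomputable def OO (s : ℤ) : AddSubgroup FF := (BdSub D s).map pr.toAddMonoidHom

theorem mem_OO {s : ℤ} {z : ℕ → ℝ} : pr z ∈ OO D s ↔ Bd D s z := by
  constructor
  · rintro ⟨w, hw, hwz⟩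
    have h1 : pr w = pr z := hwz
    exact Bd_congr D (pr_eq.1 h1) hw
  · intro h
    exact ⟨z, h, rfl⟩

theorem pr_surj (x : FF) : ∃ z, pr z = x := by
  obtain ⟨z, hz⟩ := Quotient.exists_rep x
  exact ⟨z, hz⟩

/-- The relation lattice. -/
def Lam : AddSubgroup (Fin r → ℤ) where
  carrier := {δ | ∑ i, δ i = 0 ∧ ∀ᶠ K in UU, ∑ i, δ i * D.t K i = 0}
  zero_mem' := by
    refine ⟨by simp, ?_⟩
    filter_upwards with K
    simp
  add_mem' := by
    rintro a b ⟨ha, ha'⟩ ⟨hb, hb'⟩
    refine ⟨?_, ?_⟩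
    · simp only [Pi.add_apply, Finset.sum_add_distrib]
      rw [ha, hb, add_zero]
    · filter_upwards [ha', hb'] with K h1 h2
      simp only [Pi.add_apply, add_mul, Finset.sum_add_distrib]
      rw [h1, h2, add_zero]
  neg_mem' := by
    rintro a ⟨ha, ha'⟩
    refine ⟨?_, ?_⟩
    · simp only [Pi.neg_apply, Finset.sum_neg_distrib]
      rw [ha, neg_zero]
    · filter_upwards [ha'] with K h1
      simp only [Pi.neg_apply, neg_mul, Finset.sum_neg_distrib]
      rw [h1, neg_zero]

/-- The quotient group. -/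
abbrev Gam : Type := (Fin r → ℤ) ⧸ Lam D

/-- The sum homomorphism. -/
def sumHom (r : ℕ) : (Fin r → ℤ) →+ ℤ where
  toFun δ := ∑ i, δ i
  map_zero' := by simp
  map_add' := by intro a b; simp [Finset.sum_add_distrib]

/-- The level. -/
def levv : Gam D →+ ℤ := QuotientAddGroup.lift (Lam D) (sumHom r) (fun _ h => h.1)

theorem levv_mk (δ : Fin r → ℤ) : levv D (QuotientAddGroup.mk δ) = ∑ i, δ i := rfl

theorem L_zero (K : ℕ) : D.L 0 K = 0 := by
  simp [SeqData.L]

theorem L_add (a b : Fin r → ℤ) (K : ℕ) : D.L (a + b) K = D.L a K + D.L b K := by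
  simp [SeqData.L, add_mul, Finset.sum_add_distrib]

/-- The exponential homomorphism before passing to the quotient. -/
noncomputable def E0 : (Fin r → ℤ) →+ Additive FF where
  toFun δ := Additive.ofMul (pr (fun K => Real.exp (D.L δ K)))
  map_zero' := by
    apply Additive.toMul.injective
    change pr (fun K => Real.exp (D.L 0 K)) = 1
    rw [← map_one pr]
    congr 1
    funext K
    rw [L_zero, Real.exp_zero]
    rfl
  map_add' := by
    intro a b
    apply Additive.toMul.injective
    change pr (fun K => Real.exp (D.L (a + b) K)) =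
      pr (fun K => Real.exp (D.L a K)) * pr (fun K => Real.exp (D.L b K))
    rw [← map_mul]
    congr 1
    funext K
    rw [L_add, Real.exp_add]
    rfl

theorem L_lam {δ : Fin r → ℤ} (h : δ ∈ Lam D) : ∀ᶠ K in UU, D.L δ K = 0 := by
  filter_upwards [h.2] with K hK
  have h1 : ((∑ i, δ i * D.t K i : ℤ) : ℝ) = 0 := by rw [hK]; simp
  have h2 : ((∑ i, δ i : ℤ) : ℝ) = 0 := by rw [h.1]; simp
  push_cast at h1 h2
  have h3 : D.L δ K = ∑ i, (δ i : ℝ) * (D.t K i : ℝ) +
      (∑ i, (δ i : ℝ)) * (D.α K - Real.eulerMascheroniConstant) := by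
    rw [SeqData.L, Finset.sum_mul, ← Finset.sum_add_distrib]
    apply Finset.sum_congr rfl
    intro i _
    ring
  rw [h3, h1, h2]
  ring

theorem E0_lam : Lam D ≤ (E0 D).ker := by
  intro δ h
  rw [AddMonoidHom.mem_ker]
  apply Additive.toMul.injective
  change pr (fun K => Real.exp (D.L δ K)) = 1
  rw [← map_one pr, pr_eq]
  filter_upwards [L_lam D h] with K hK
  rw [hK, Real.exp_zero]
  rfl

/-- The exponential homomorphism on the quotient. -/
noncomputable def E1 : Gam D →+ Additive FF := QuotientAddGroup.lift (Lam D) (E0 D) (E0_lam D)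

/-- The exponential homomorphism, multiplicative form. -/
noncomputable def E2 : Multiplicative (Gam D) →* FF where
  toFun g := (E1 D g.toAdd).toMul
  map_one' := by
    change (E1 D 0).toMul = 1
    rw [map_zero]
    rfl
  map_mul' := by
    intro a b
    change (E1 D (a.toAdd + b.toAdd)).toMul = (E1 D a.toAdd).toMul * (E1 D b.toAdd).toMul
    rw [map_add]
    rfl

/-- Evaluation. -/
noncomputable def evv : AddMonoidAlgebra ℚ (Gam D) →ₐ[ℚ] FF :=
  AddMonoidAlgebra.lift ℚ FF (Gam D) (E2 D)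

theorem evv_single (δ : Fin r → ℤ) (q : ℚ) :
    evv D (AddMonoidAlgebra.single (QuotientAddGroup.mk δ) q) =
      pr (fun K => (q : ℝ) * Real.exp (D.L δ K)) := by
  rw [evv, AddMonoidAlgebra.lift_single, ← smul_pr]
  rfl

/-- Leading term principle on the group ring. -/
theorem lt_main (hlt : SeqLtStmt) (f : AddMonoidAlgebra ℚ (Gam D)) (s : ℤ)
    (hf : evv D f ∈ OO D s) (γ : Gam D) (hγ : f.coeff γ ≠ 0) : levv D γ ≤ s := by
  classical
  by_contra hcon
  push Not at hcon
  obtain ⟨g, hg, hmax⟩ := Finset.exists_max_image f.coeff.support (levv D)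
    ⟨γ, Finsupp.mem_support_iff.2 hγ⟩
  set e := levv D g with he
  have hse : s + 1 ≤ e := by
    have := hmax γ (Finsupp.mem_support_iff.2 hγ)
    omega
  -- representatives
  set rep : Gam D → (Fin r → ℤ) := Quotient.out with hrep
  have hrepmk : ∀ γ, (QuotientAddGroup.mk (rep γ) : Gam D) = γ := fun γ => Quotient.out_eq γ
  have hlevrep : ∀ γ, ∑ i, rep γ i = levv D γ := by
    intro γ
    rw [← levv_mk, hrepmk]
  set I : Finset (Fin r → ℤ) := f.coeff.support.image rep with hI
  set c : (Fin r → ℤ) → ℚ := fun δ => f.coeff (QuotientAddGroup.mk δ) with hc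
  have hrinj : Function.Injective rep := by
    intro a b hab
    rw [← hrepmk a, ← hrepmk b, hab]
  have h1 := hlt r D I c e
    ⟨rep g, Finset.mem_image_of_mem _ hg, by
      rw [hc]; simp only [hrepmk]; exact Finsupp.mem_support_iff.1 hg, by rw [hlevrep]⟩
    (by
      intro δ hδ _
      rw [hI, Finset.mem_image] at hδ
      obtain ⟨γ', hγ', rfl⟩ := hδ
      rw [hlevrep]
      exact hmax γ' hγ')
    (by
      intro δ hδ δ' hδ' hne hsum
      rw [hI, Finset.mem_image] at hδ hδ'
      obtain ⟨a, ha, rfl⟩ := hδ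
      obtain ⟨b, hb, rfl⟩ := hδ'
      have hab : a ≠ b := fun h => hne (by rw [h])
      have h2 : rep a - rep b ∉ Lam D := by
        intro h
        apply hab
        rw [← hrepmk a, ← hrepmk b]
        rw [QuotientAddGroup.eq]
        have h3 := (Lam D).neg_mem h
        convert h3 using 1
        abel
      have h3 : ¬ ∀ᶠ K in UU, ∑ i, (rep a - rep b) i * D.t K i = 0 := by
        intro h
        apply h2
        refine ⟨?_, h⟩
        simp only [Pi.sub_apply, Finset.sum_sub_distrib]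
        rw [hsum, sub_self]
      have h4 := Ultrafilter.eventually_not.2 h3
      filter_upwards [h4] with K hK h5
      apply hK
      simp only [Pi.sub_apply, sub_mul, Finset.sum_sub_distrib]
      rw [h5, sub_self])
    (1 / 4) (by norm_num)
  -- the value
  have hval : evv D f = pr (fun K => ∑ δ ∈ I, (c δ : ℝ) * Real.exp (D.L δ K)) := by
    have h2 : f = ∑ γ ∈ f.coeff.support, AddMonoidAlgebra.single γ (f.coeff γ) := by
      conv_lhs => rw [← AddMonoidAlgebra.sum_coeff_single f]
      rfl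
    have h3 : (fun K => ∑ δ ∈ I, (c δ : ℝ) * Real.exp (D.L δ K)) =
        ∑ γ ∈ f.coeff.support, (fun K => (f.coeff γ : ℝ) * Real.exp (D.L (rep γ) K)) := by
      funext K
      rw [Finset.sum_apply, hI, Finset.sum_image (fun a _ b _ h => hrinj h)]
      apply Finset.sum_congr rfl
      intro γ _
      rw [hc]
      simp only [hrepmk]
    rw [h3, map_sum]
    conv_lhs => rw [h2]
    rw [map_sum]
    apply Finset.sum_congr rfl
    intro γ _
    rw [← evv_single, hrepmk]
  rw [hval, mem_OO] at hf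
  have h5 := hf (1 / 4) (by norm_num)
  obtain ⟨K, hK1, hK2⟩ := (h1.and h5).exists
  have h6 := Real.exp_le_exp.1 (hK1.trans hK2)
  have h7 := Y_pos D K
  have h8 : (s : ℝ) + 1 ≤ e := by exact_mod_cast hse
  nlinarith

/-- The data. -/
noncomputable def data (φ : ℕ → ℚ) (hφ : AsymPhi φ) (hlt : SeqLtStmt) (hup : SeqUpStmt)
    (hapx : SeqApxStmt) : AlgData (Fin r) (Gam D) FF where
  lev := levv D
  x i := QuotientAddGroup.mk (Pi.single i 1)
  lev_x i := by
    rw [levv_mk]
    simp
  φ := φ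
  O := OO D
  mono := by
    intro s t hst x hx
    obtain ⟨z, rfl⟩ := pr_surj x
    rw [mem_OO] at hx ⊢
    exact Bd_mono D hst hx
  one_mem := by
    have : (1 : FF) = pr (fun _ => (1 : ℝ)) := by rw [← map_one pr]; rfl
    rw [this, mem_OO]
    exact Bd_const D 1
  mul_mem := by
    intro s t a b ha hb
    obtain ⟨z, rfl⟩ := pr_surj a
    obtain ⟨w, rfl⟩ := pr_surj b
    rw [mem_OO] at ha hb
    rw [← map_mul, mem_OO]
    exact Bd_mul D ha hb
  smul_mem := by
    intro q s a ha
    obtain ⟨z, rfl⟩ := pr_surj a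
    rw [mem_OO] at ha
    rw [smul_pr, mem_OO]
    have h1 := Bd_mul D (Bd_const D (q : ℝ)) ha
    rw [zero_add] at h1
    exact h1
  ev := evv D
  ev_mem := by
    intro γ
    obtain ⟨δ, rfl⟩ := QuotientAddGroup.mk_surjective γ
    rw [evv_single, levv_mk, mem_OO]
    intro η hη
    filter_upwards [Nat.hyperfilter_le_atTop (hup r D δ η hη)] with K hK
    rw [Rat.cast_one, one_mul, abs_of_pos (Real.exp_pos _)]
    exact hK
  lt := fun f s hf γ hγ => lt_main D hlt f s hf γ hγ
  n i := pr (fun K => (D.n K i : ℝ))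
  hn := by
    intro i R
    have h1 : evv D (∑ a ∈ range (R + 1),
        AddMonoidAlgebra.single ((1 - (a : ℤ)) • (QuotientAddGroup.mk (Pi.single i 1) : Gam D))
          (φ a)) = pr (fun K => ∑ a ∈ range (R + 1), (φ a : ℝ) *
        Real.exp ((1 - (a : ℝ)) * ((D.t K i : ℝ) + D.α K - Real.eulerMascheroniConstant))) := by
      have h3 : (fun K => ∑ a ∈ range (R + 1), (φ a : ℝ) *
          Real.exp ((1 - (a : ℝ)) * ((D.t K i : ℝ) + D.α K - Real.eulerMascheroniConstant))) =
          ∑ a ∈ range (R + 1), (fun K => (φ a : ℝ) *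
            Real.exp (D.L ((1 - (a : ℤ)) • Pi.single i 1) K)) := by
        funext K
        rw [Finset.sum_apply]
        apply Finset.sum_congr rfl
        intro a _
        congr 2
        rw [SeqData.L, Finset.sum_eq_single i]
        · simp
        · intro j _ hj
          simp [Pi.single_eq_of_ne hj]
        · simp
      rw [h3, map_sum, map_sum]
      apply Finset.sum_congr rfl
      intro a _
      rw [← evv_single]
      rfl
    rw [h1, ← map_sub, mem_OO]
    intro η hη
    filter_upwards [Nat.hyperfilter_le_atTop (hapx r D φ hφ i R η hη)] with K hK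
    rw [Pi.sub_apply]
    convert hK using 3
    push_cast
    ring
  hint := by
    intro P hP
    have h1 : MvPolynomial.aeval (fun i => pr (fun K => (D.n K i : ℝ))) P =
        pr (fun K => ((MvPolynomial.eval (fun i => (D.n K i : ℤ)) P : ℤ) : ℝ)) := by
      clear hP
      induction P using MvPolynomial.induction_on with
      | C c =>
        rw [MvPolynomial.aeval_C]
        simp only [MvPolynomial.eval_C]
        rw [eq_intCast, ← map_intCast pr]
        rfl
      | add p q hp hq =>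
        rw [map_add, hp, hq, ← map_add]
        congr 1
        funext K
        simp
      | mul_X p i hp =>
        rw [map_mul, hp, MvPolynomial.aeval_X, ← map_mul]
        congr 1
        funext K
        simp
    rw [h1] at hP ⊢
    rw [mem_OO] at hP
    have h2 := hP (1 / 2) (by norm_num)
    have h0 : (0 : FF) = pr (fun _ => (0 : ℝ)) := by rw [← map_zero pr]; rfl
    rw [h0, pr_eq]
    filter_upwards [h2] with K hK
    have h3 : Real.exp ((((-1 : ℤ) : ℝ) + 1 / 2) * D.Y K) < 1 := by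
      rw [Real.exp_lt_one_iff]
      have := Y_pos D K
      push_cast
      nlinarith
    have h4 := hK.trans_lt h3
    rw [← Int.cast_abs] at h4
    have h5 : |MvPolynomial.eval (fun i => (D.n K i : ℤ)) P| < 1 := by exact_mod_cast h4
    rw [Int.abs_lt_one_iff] at h5
    rw [h5]
    simp
  hne := one_ne

end Core

/-- The core statement. -/
theorem core_stmt (hPhi : PhiStmt) (h1 : Asym1Stmt) (h2 : Asym2Stmt) (hD : AlgDStmt)
    (hP : AlgPStmt) (hlt : SeqLtStmt) (hup : SeqUpStmt) (hapx : SeqApxStmt) : CoreStmt := by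
  intro r ρ hρ hsum
  by_contra hcon
  push Not at hcon
  obtain ⟨b, φ, hb, hbφ, hpad⟩ := hPhi
  have hφ : AsymPhi φ := h2 b φ hb hbφ (h1 b hb)
  have h3 : ∀ K : ℕ, ∃ (α Y : ℝ) (t : Fin r → ℤ) (n : Fin r → ℕ), 0 ≤ α ∧ α ≤ 1 ∧
      ((K + 1 : ℕ) : ℝ) ≤ Y ∧ Function.Injective t ∧ (∀ i, Y ≤ t i) ∧
      (∀ i, (t i : ℝ) ≤ (1 + 1 / ((K + 1 : ℕ) : ℝ)) * Y) ∧
      (∀ i, 1 ≤ n i) ∧ (∀ i, |(harmonic (n i) : ℝ) - α - t i| ≤ 1 / (n i : ℝ) ^ (K + 1)) ∧
      ∑ i, ρ i * t i = 0 := fun K => hcon (K + 1) (by omega)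
  choose α Y t n hα0 hα1 hY hinj hlo hhi hn1 hnear hrel using h3
  set D : SeqData r :=
    { α := α, Y := Y, t := t, n := n, hα0 := hα0, hα1 := hα1,
      hY := fun K => by have := hY K; push_cast at this; exact this
      hinj := hinj, hlo := hlo
      hhi := fun K i => by have := hhi K i; push_cast at this; exact this
      hn1 := hn1, hnear := hnear } with hDdef
  set A := Core.data D φ hφ hlt hup hapx with hA
  have hrel2 : ∑ i, ρ i • A.x i = 0 := by
    have h4 : ∑ i, ρ i • A.x i =
        (QuotientAddGroup.mk (∑ i, ρ i • (Pi.single i 1 : Fin r → ℤ)) : Core.Gam D) := by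
      rw [← QuotientAddGroup.mk'_apply, map_sum]
      rfl
    rw [h4, QuotientAddGroup.eq_zero_iff]
    have h5 : ∑ i, ρ i • (Pi.single i 1 : Fin r → ℤ) = ρ := by
      funext j
      rw [Finset.sum_apply, Finset.sum_eq_single j]
      · simp
      · intro i _ hi
        simp [Pi.single_eq_of_ne (Ne.symm hi)]
      · simp
    rw [h5]
    exact ⟨hsum, Eventually.of_forall hrel⟩
  have hx : ∀ i j, i ≠ j → ∀ k : ℕ, 0 < k → k • A.x i ≠ k • A.x j := by
    intro i j hij k hk h
    have h4 : (QuotientAddGroup.mk (k • (Pi.single i 1 : Fin r → ℤ)) : Core.Gam D) =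
        QuotientAddGroup.mk (k • (Pi.single j 1 : Fin r → ℤ)) := h
    rw [QuotientAddGroup.eq] at h4
    obtain ⟨K, hK⟩ := h4.2.exists
    have h5 : ∑ l, (-(k • (Pi.single i 1 : Fin r → ℤ)) + k • (Pi.single j 1 : Fin r → ℤ)) l *
        D.t K l = (k : ℤ) * (D.t K j - D.t K i) := by
      simp only [Pi.add_apply, Pi.neg_apply, nsmul_eq_mul, add_mul, neg_mul,
        Finset.sum_add_distrib, Finset.sum_neg_distrib]
      rw [Finset.sum_eq_single i, Finset.sum_eq_single j]
      · simp
        ring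
      · intro l _ hl
        simp [Pi.single_eq_of_ne hl]
      · simp
      · intro l _ hl
        simp [Pi.single_eq_of_ne hl]
      · simp
    rw [h5] at hK
    rcases mul_eq_zero.1 hK with h6 | h6
    · have : k = 0 := by exact_mod_cast h6
      omega
    · exact hij (D.hinj K (by omega))
  obtain ⟨P, hP0, hPn⟩ := hD (Fin r) (Core.Gam D) Core.FF A ρ hρ hrel2
  exact hP (Fin r) (Core.Gam D) Core.FF A hpad hx P hP0 hPn

end Pool.MP01f3ee
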