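import Mathlib
import Pool.Agent.Lib.MP_01f3ee_nt.Defs

set_option autoImplicit false

namespace Pool.MP01f3ee

open Finset

theorem exc_lcm_eq (n : ℕ) (hn : 1 ≤ n) : (Finset.Icc 2 n).lcm id = Nat.lcmUpto n := by
  unfold Nat.lcmUpto
  have h : Finset.Icc 1 n = insert 1 (Finset.Icc 2 n) := by
    ext k
    simp only [Finset.mem_Icc, Finset.mem_insert]
    omega
  rw [h, Finset.lcm_insert]
  simp

theorem exc_lower (K : ℕ) : ∃ N : ℕ, 2 ≤ N ∧ ∀ n : ℕ, N ≤ n →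
    (n : ℝ) ^ K ≤ (((Finset.Icc 2 n).lcm id : ℕ) : ℝ) := by
  have h1 := tendsto_pow_const_div_const_pow_of_one_lt (K + 2) (one_lt_two : (1 : ℝ) < 2)
  have h2 : ∀ᶠ n : ℕ in Filter.atTop, (n : ℝ) ^ (K + 2) / 2 ^ n < 1 :=
    h1.eventually_lt_const one_pos
  obtain ⟨N, hN⟩ := Filter.eventually_atTop.mp h2
  refine ⟨max N 2, le_max_right _ _, fun n hn => ?_⟩
  have hn1 : N ≤ n := (le_max_left _ _).trans hn
  have hn2 : 2 ≤ n := (le_max_right _ _).trans hn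
  have h3 := hN n hn1
  rw [div_lt_one (by positivity)] at h3
  rw [exc_lcm_eq n (by omega)]
  have h4 : (2 : ℝ) ^ n ≤ ((n : ℝ) + 1) * (Nat.lcmUpto n : ℝ) := by
    exact_mod_cast Chebyshev.two_pow_le_mul_lcmUpto n
  have hn3 : (2 : ℝ) ≤ n := by exact_mod_cast hn2
  have h5 : ((n : ℝ) + 1) ≤ (n : ℝ) ^ 2 := by nlinarith
  have h6 : ((n : ℝ) + 1) * (n : ℝ) ^ K ≤ (n : ℝ) ^ (K + 2) := by
    rw [pow_add, mul_comm ((n : ℝ) ^ K)]
    exact mul_le_mul_of_nonneg_right h5 (by positivity)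
  have h7 : ((n : ℝ) + 1) * (n : ℝ) ^ K ≤ ((n : ℝ) + 1) * (Nat.lcmUpto n : ℝ) := by
    linarith
  exact le_of_mul_le_mul_left h7 (by positivity)

theorem exc_stmt : ExcStmt := by
  intro K
  obtain ⟨N, hN2, hN⟩ := exc_lower K
  refine ⟨N, fun n hn hexc => ?_⟩
  obtain ⟨h2, hdiv⟩ := hexc
  have hlow := hN n hn
  set b : ℕ := (Finset.Icc 2 n).lcm id with hb
  have hn0 : (0 : ℝ) < (n : ℝ) := by
    have : 0 < n := by omega
    exact_mod_cast this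
  have hb0 : (0 : ℝ) < (b : ℝ) := lt_of_lt_of_le (by positivity) hlow
  -- the sum
  have hsum : ((∑ k ∈ Finset.Icc 2 n, ((b / k : ℕ) : ℤ) : ℤ) : ℝ) =
      b * ((harmonic n : ℝ) - 1) := by
    have h3 : (harmonic n : ℝ) = ∑ k ∈ Finset.Icc 1 n, (1 / (k : ℝ)) := by
      rw [harmonic_eq_sum_Icc]
      push_cast
      exact Finset.sum_congr rfl fun k _ => by rw [one_div]
    have h4 : Finset.Icc 1 n = insert 1 (Finset.Icc 2 n) := by
      ext k
      simp only [Finset.mem_Icc, Finset.mem_insert]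
      omega
    rw [h3, h4, Finset.sum_insert (by simp), Int.cast_sum, Nat.cast_one]
    have h5 : (b : ℝ) * (1 / 1 + ∑ k ∈ Finset.Icc 2 n, 1 / (k : ℝ) - 1) =
        ∑ k ∈ Finset.Icc 2 n, (b : ℝ) * (1 / (k : ℝ)) := by
      rw [← Finset.mul_sum]
      ring
    rw [h5]
    refine Finset.sum_congr rfl fun k hk => ?_
    have hk2 := (Finset.mem_Icc.mp hk).1
    have hkb : k ∣ b := Finset.dvd_lcm (f := id) hk
    have hk0 : (k : ℝ) ≠ 0 := by positivity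
    rw [Int.cast_natCast, Nat.cast_div hkb hk0]
    ring
  have hfin : ∀ (s : ℤ) (e : ℝ), |e| = 1 →
      ((∑ k ∈ Finset.Icc 2 n, ((b / k : ℕ) : ℤ) : ℤ) : ℝ) = b * s + e →
      |(harmonic n : ℝ) - 0 - ((s + 1 : ℤ) : ℝ)| ≤ 1 / (n : ℝ) ^ K := by
    intro s e he h6
    rw [hsum] at h6
    have h7 : (harmonic n : ℝ) - 0 - ((s + 1 : ℤ) : ℝ) = e / b := by
      push_cast
      field_simp
      linarith
    rw [h7, abs_div, he, abs_of_pos hb0]
    exact one_div_le_one_div_of_le (by positivity) hlow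
  rcases hdiv with ⟨s, hs⟩ | ⟨s, hs⟩
  · refine ⟨s + 1, hfin s (-1) (by simp) ?_⟩
    have h8 : (∑ k ∈ Finset.Icc 2 n, ((b / k : ℕ) : ℤ) : ℤ) = b * s + (-1) := by linarith
    rw [h8]
    push_cast
    ring
  · refine ⟨s + 1, hfin s 1 (by simp) ?_⟩
    have h8 : (∑ k ∈ Finset.Icc 2 n, ((b / k : ℕ) : ℤ) : ℤ) = b * s + 1 := by linarith
    rw [h8]
    push_cast
    ring

end Pool.MP01f3ee
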