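import Mathlib
import Pool.Agent.Lib.MP_01f3ee_nt.Defs

set_option autoImplicit false

namespace Pool.MP01f3ee

open Finset Polynomial

namespace Lower

/-- A common positive lower bound for finitely many positive numbers. -/
theorem exists_min {ι : Type} [DecidableEq ι] (F : Finset ι) (v : ι → ℝ) (h : ∀ f ∈ F, 0 < v f) :
    ∃ κ : ℝ, 0 < κ ∧ ∀ f ∈ F, κ ≤ v f := by
  induction F using Finset.induction_on with
  | empty => exact ⟨1, one_pos, fun f hf => absurd hf (Finset.notMem_empty f)⟩
  | insert a F _ ih =>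
    obtain ⟨κ, hκ, hκ'⟩ := ih fun f hf => h f (Finset.mem_insert_of_mem hf)
    refine ⟨min κ (v a), lt_min hκ (h a (Finset.mem_insert_self _ _)), fun f hf => ?_⟩
    rcases Finset.mem_insert.1 hf with rfl | hf
    · exact min_le_right _ _
    · exact (min_le_left _ _).trans (hκ' f hf)

/-- The case of bounded exponents. -/
theorem bdd (hT : TransStmt) (D H : ℕ) : ∃ κ : ℝ, 0 < κ ∧ ∀ f : ℕ → ℤ,
    (∀ k ∈ range (D + 1), |f k| ≤ (H : ℤ)) → (∃ k ∈ range (D + 1), f k ≠ 0) →
    κ ≤ |∑ k ∈ range (D + 1), (f k : ℝ) * Real.exp (k : ℝ)| := by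
  classical
  set F : Finset (Fin (D + 1) → ℤ) :=
    (Fintype.piFinset fun _ => Finset.Icc (-(H : ℤ)) H).filter (fun g => g ≠ 0) with hF
  set v : (Fin (D + 1) → ℤ) → ℝ := fun g => |∑ k, (g k : ℝ) * Real.exp ((k : ℕ) : ℝ)| with hv
  have hpos : ∀ g ∈ F, 0 < v g := by
    intro g hg
    have hg0 : g ≠ 0 := (Finset.mem_filter.1 hg).2
    rw [hv]
    simp only [abs_pos]
    set P : Polynomial ℤ := ∑ k : Fin (D + 1), C (g k) * X ^ (k : ℕ) with hP
    have hP0 : P ≠ 0 := by
      obtain ⟨k, hk⟩ : ∃ k, g k ≠ 0 := by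
        by_contra hcon
        push Not at hcon
        exact hg0 (funext hcon)
      intro h
      apply hk
      have h1 : P.coeff (k : ℕ) = g k := by
        rw [hP, finsetSum_coeff]
        rw [Finset.sum_eq_single k]
        · simp
        · intro b _ hb
          rw [coeff_C_mul, coeff_X_pow, if_neg, mul_zero]
          intro h2
          exact hb (Fin.ext h2.symm)
        · intro h2
          exact absurd (Finset.mem_univ k) h2
      rw [← h1, h, coeff_zero]
    have h1 := hT P hP0
    have h2 : aeval (Real.exp 1) P = ∑ k : Fin (D + 1), (g k : ℝ) * Real.exp ((k : ℕ) : ℝ) := by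
      rw [hP, map_sum]
      refine Finset.sum_congr rfl fun k _ => ?_
      rw [map_mul, aeval_C, map_pow, aeval_X, ← Real.exp_nat_mul, mul_one]
      simp
    rwa [h2] at h1
  obtain ⟨κ, hκ, hκ'⟩ := exists_min F v hpos
  refine ⟨κ, hκ, fun f hf hf0 => ?_⟩
  have h1 : (fun k : Fin (D + 1) => f k) ∈ F := by
    rw [hF, Finset.mem_filter, Fintype.mem_piFinset]
    refine ⟨fun k => ?_, ?_⟩
    · rw [Finset.mem_Icc]
      exact abs_le.1 (hf k (Finset.mem_range.2 k.2))
    · obtain ⟨k, hk, hk'⟩ := hf0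
      intro h
      exact hk' (congrFun h ⟨k, Finset.mem_range.1 hk⟩)
  have h2 := hκ' _ h1
  rw [hv] at h2
  simp only at h2
  rwa [Fin.sum_univ_eq_sum_range (fun k => (f k : ℝ) * Real.exp ((k : ℕ) : ℝ)) (D + 1)] at h2

/-- Without gaps of length `L` all elements are close to the minimum. -/
theorem close (S : Finset ℤ) (L : ℕ) (μ : ℤ) (hμ : ∀ a ∈ S, μ ≤ a) (hμS : μ ∈ S)
    (hgap : ∀ a ∈ S, (∃ b ∈ S, b < a) → ∃ b ∈ S, b < a ∧ a ≤ b + L) :
    ∀ (n : ℕ) (a : ℤ), a ∈ S → (S.filter fun b => b < a).card ≤ n → a ≤ μ + L * n := by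
  intro n
  induction n with
  | zero =>
    intro a ha hcard
    have h0 : S.filter (fun b => b < a) = ∅ := Finset.card_eq_zero.1 (Nat.le_zero.1 hcard)
    by_contra hcon
    have hlt : μ < a := by push_cast at hcon; linarith
    have : μ ∈ S.filter (fun b => b < a) := Finset.mem_filter.2 ⟨hμS, hlt⟩
    rw [h0] at this
    exact absurd this (Finset.notMem_empty _)
  | succ n ih =>
    intro a ha hcard
    by_cases hex : ∃ b ∈ S, b < a
    · obtain ⟨b, hb, hba, hab⟩ := hgap a ha hex
      have hsub : S.filter (fun x => x < b) ⊂ S.filter (fun x => x < a) := by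
        rw [Finset.ssubset_iff_of_subset]
        · exact ⟨b, Finset.mem_filter.2 ⟨hb, hba⟩, fun h => lt_irrefl _ (Finset.mem_filter.1 h).2⟩
        · intro x hx
          rw [Finset.mem_filter] at hx ⊢
          exact ⟨hx.1, hx.2.trans hba⟩
      have hc := Finset.card_lt_card hsub
      have h1 := ih b hb (by omega)
      push_cast
      have : (L : ℤ) * (n + 1) = L * n + L := by ring
      rw [this]
      linarith
    · have h1 : a = μ := by
        by_contra hne
        exact hex ⟨μ, hμS, lt_of_le_of_ne (hμ a ha) (Ne.symm hne)⟩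
      rw [h1]
      have : (0 : ℤ) ≤ L * ((n + 1 : ℕ) : ℤ) := by positivity
      linarith

/-- The statement for nonzero coefficients. -/
theorem main (hT : TransStmt) (H : ℕ) : ∀ s : ℕ, ∃ κ : ℝ, 0 < κ ∧ ∀ (S : Finset ℤ) (c : ℤ → ℤ)
    (m : ℤ), S.card ≤ s → (∀ a ∈ S, |c a| ≤ (H : ℤ)) → (∀ a ∈ S, m ≤ a) → (∀ a ∈ S, c a ≠ 0) →
    S.Nonempty → κ * Real.exp (m : ℝ) ≤ |∑ a ∈ S, (c a : ℝ) * Real.exp (a : ℝ)| := by
  intro s
  induction s with
  | zero =>
    refine ⟨1, one_pos, fun S c m hS _ _ _ hne => ?_⟩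
    have := Finset.card_pos.2 hne
    omega
  | succ s ih =>
    obtain ⟨κ, hκ, hih⟩ := ih
    -- the gap
    have hlim : Filter.Tendsto (fun L : ℕ => ((s : ℝ) + 1) * H * Real.exp (-(L : ℝ))) Filter.atTop
        (nhds (((s : ℝ) + 1) * H * 0)) :=
      (Real.tendsto_exp_neg_atTop_nhds_zero.comp tendsto_natCast_atTop_atTop).const_mul _
    rw [mul_zero] at hlim
    have hev : ∀ᶠ L : ℕ in Filter.atTop, ((s : ℝ) + 1) * H * Real.exp (-(L : ℝ)) < κ / 2 :=
      hlim.eventually (gt_mem_nhds (by positivity))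
    obtain ⟨L, hL⟩ := hev.exists
    obtain ⟨κ₂, hκ₂, hbdd⟩ := bdd hT (L * (s + 1)) H
    refine ⟨min (κ / 2) κ₂, lt_min (by positivity) hκ₂, ?_⟩
    intro S c m hS hc hm hc0 hne
    by_cases hgap : ∀ a ∈ S, (∃ b ∈ S, b < a) → ∃ b ∈ S, b < a ∧ a ≤ b + L
    · -- no gap
      set μ : ℤ := S.min' hne with hμ
      have hμS : μ ∈ S := S.min'_mem hne
      have hμle : ∀ a ∈ S, μ ≤ a := fun a ha => S.min'_le a ha
      have hclose : ∀ a ∈ S, a ≤ μ + ((L * (s + 1) : ℕ) : ℤ) := by
        intro a ha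
        have h1 := close S L μ hμle hμS hgap (s + 1) a ha
          ((Finset.card_filter_le _ _).trans hS)
        push_cast at h1 ⊢
        exact h1
      have key := hbdd (fun k => if μ + k ∈ S then c (μ + k) else 0) (by
        intro k _
        by_cases h : μ + (k : ℤ) ∈ S
        · simp only [h, if_true]; exact hc _ h
        · simp only [h, if_false, abs_zero]; exact Int.natCast_nonneg H) ⟨0, by simp, by
          simp [hμS, hc0 μ hμS]⟩
      have hsum : ∑ a ∈ S, (c a : ℝ) * Real.exp (a : ℝ) = Real.exp (μ : ℝ) *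
          ∑ k ∈ range (L * (s + 1) + 1),
            (((if μ + (k : ℤ) ∈ S then c (μ + k) else 0 : ℤ)) : ℝ) * Real.exp (k : ℝ) := by
        rw [Finset.mul_sum]
        symm
        have h1 : ∑ k ∈ range (L * (s + 1) + 1), Real.exp (μ : ℝ) *
            ((((if μ + (k : ℤ) ∈ S then c (μ + k) else 0 : ℤ)) : ℝ) * Real.exp (k : ℝ)) =
            ∑ k ∈ (range (L * (s + 1) + 1)).filter (fun k : ℕ => μ + (k : ℤ) ∈ S),
              (c (μ + k) : ℝ) * Real.exp ((μ + (k : ℤ) : ℤ) : ℝ) := by
          rw [Finset.sum_filter]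
          refine Finset.sum_congr rfl fun k _ => ?_
          split_ifs with h
          · push_cast
            rw [Real.exp_add]
            ring
          · simp
        rw [h1]
        refine Finset.sum_bij (fun (k : ℕ) _ => μ + (k : ℤ)) ?_ ?_ ?_ ?_
        · intro k hk
          exact (Finset.mem_filter.1 hk).2
        · intro k _ k' _ h
          simpa using h
        · intro a ha
          have h2 := hμle a ha
          have h3 := hclose a ha
          refine ⟨(a - μ).toNat, ?_, ?_⟩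
          · rw [Finset.mem_filter, Finset.mem_range]
            have h4 : ((a - μ).toNat : ℤ) = a - μ := Int.toNat_of_nonneg (by linarith)
            refine ⟨?_, ?_⟩
            · have : ((a - μ).toNat : ℤ) < ((L * (s + 1) + 1 : ℕ) : ℤ) := by
                rw [h4]; push_cast at h3 ⊢; linarith
              exact_mod_cast this
            · rw [h4]; rw [add_sub_cancel]; exact ha
          · rw [Int.toNat_of_nonneg (by linarith), add_sub_cancel]
        · intro k _
          rfl
      rw [hsum, abs_mul, abs_of_pos (Real.exp_pos _), mul_comm]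
      have h5 : Real.exp (m : ℝ) ≤ Real.exp (μ : ℝ) :=
        Real.exp_le_exp.2 (by exact_mod_cast hm μ hμS)
      exact mul_le_mul h5 ((min_le_right _ _).trans key) (by positivity) (Real.exp_pos _).le
    · -- a gap
      push Not at hgap
      obtain ⟨a, ha, ⟨b₀, hb₀, hb₀a⟩, hall⟩ := hgap
      set T : Finset ℤ := S.filter fun b => ¬ b < a with hTdef
      set B : Finset ℤ := S.filter fun b => b < a with hBdef
      have hB0 : b₀ ∈ B := Finset.mem_filter.2 ⟨hb₀, hb₀a⟩
      have haT : a ∈ T := Finset.mem_filter.2 ⟨ha, lt_irrefl a⟩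
      have hcard : B.card + T.card = S.card := Finset.card_filter_add_card_filter_not _
      have hBpos : 0 < B.card := Finset.card_pos.2 ⟨b₀, hB0⟩
      have hTS : ∀ x ∈ T, x ∈ S ∧ a ≤ x := fun x hx =>
        ⟨(Finset.mem_filter.1 hx).1, not_lt.1 (Finset.mem_filter.1 hx).2⟩
      have h1 := hih T c a (by omega) (fun x hx => hc x (hTS x hx).1) (fun x hx => (hTS x hx).2)
        (fun x hx => hc0 x (hTS x hx).1) ⟨a, haT⟩
      have h2 : |∑ x ∈ B, (c x : ℝ) * Real.exp (x : ℝ)| ≤ κ / 2 * Real.exp (a : ℝ) := by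
        calc |∑ x ∈ B, (c x : ℝ) * Real.exp (x : ℝ)|
            ≤ ∑ x ∈ B, |(c x : ℝ) * Real.exp (x : ℝ)| := Finset.abs_sum_le_sum_abs _ _
          _ ≤ ∑ _x ∈ B, (H : ℝ) * (Real.exp (-(L : ℝ)) * Real.exp (a : ℝ)) := by
              refine Finset.sum_le_sum fun x hx => ?_
              have hxS := (Finset.mem_filter.1 hx).1
              have hxa := (Finset.mem_filter.1 hx).2
              rw [abs_mul, abs_of_pos (Real.exp_pos _)]
              have h3 : |(c x : ℝ)| ≤ H := by exact_mod_cast hc x hxS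
              have h4 : Real.exp (x : ℝ) ≤ Real.exp (-(L : ℝ)) * Real.exp (a : ℝ) := by
                rw [← Real.exp_add]
                refine Real.exp_le_exp.2 ?_
                have h5 := hall x hxS hxa
                have h6 : (x : ℝ) + L < a := by exact_mod_cast h5
                linarith
              exact mul_le_mul h3 h4 (Real.exp_pos _).le (Nat.cast_nonneg _)
          _ = (B.card : ℝ) * H * Real.exp (-(L : ℝ)) * Real.exp (a : ℝ) := by
              rw [Finset.sum_const, nsmul_eq_mul]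
              ring
          _ ≤ ((s : ℝ) + 1) * H * Real.exp (-(L : ℝ)) * Real.exp (a : ℝ) := by
              have h6 : (B.card : ℝ) ≤ (s : ℝ) + 1 := by
                exact_mod_cast (by omega : B.card ≤ s + 1)
              gcongr
          _ ≤ κ / 2 * Real.exp (a : ℝ) := by
              gcongr
      have hsplit : ∑ x ∈ S, (c x : ℝ) * Real.exp (x : ℝ) =
          ∑ x ∈ B, (c x : ℝ) * Real.exp (x : ℝ) + ∑ x ∈ T, (c x : ℝ) * Real.exp (x : ℝ) :=
        (Finset.sum_filter_add_sum_filter_not S (fun b => b < a) _).symm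
      have h7 : κ / 2 * Real.exp (a : ℝ) ≤ |∑ x ∈ S, (c x : ℝ) * Real.exp (x : ℝ)| := by
        rw [hsplit]
        have h8 := abs_sub_abs_le_abs_sub (∑ x ∈ T, (c x : ℝ) * Real.exp (x : ℝ))
          (-∑ x ∈ B, (c x : ℝ) * Real.exp (x : ℝ))
        rw [abs_neg, sub_neg_eq_add, add_comm (∑ x ∈ T, _)] at h8
        linarith
      refine le_trans ?_ h7
      have h9 : Real.exp (m : ℝ) ≤ Real.exp (a : ℝ) :=
        Real.exp_le_exp.2 (by exact_mod_cast hm a ha)
      exact mul_le_mul (min_le_left _ _) h9 (Real.exp_pos _).le (by positivity)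

end Lower

theorem lower_stmt : TransStmt → LowerStmt := by
  intro hT s H
  obtain ⟨κ, hκ, hmain⟩ := Lower.main hT H s
  refine ⟨κ, hκ, fun S c m hS hc hm hex => ?_⟩
  obtain ⟨a, ha, ha0⟩ := hex
  have h1 := hmain (S.filter fun x => c x ≠ 0) c m ((Finset.card_filter_le _ _).trans hS)
    (fun x hx => hc x (Finset.mem_filter.1 hx).1) (fun x hx => hm x (Finset.mem_filter.1 hx).1)
    (fun x hx => (Finset.mem_filter.1 hx).2) ⟨a, Finset.mem_filter.2 ⟨ha, ha0⟩⟩
  have h2 : ∑ x ∈ S.filter (fun x => c x ≠ 0), (c x : ℝ) * Real.exp (x : ℝ) =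
      ∑ x ∈ S, (c x : ℝ) * Real.exp (x : ℝ) := by
    rw [Finset.sum_filter]
    refine Finset.sum_congr rfl fun x _ => ?_
    split_ifs with h
    · rfl
    · rw [not_not] at h
      rw [h]
      simp
  rwa [h2] at h1

end Pool.MP01f3ee
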