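import Mathlib
import Pool.Agent.Lib.MP_01f3ee_nt.Defs

/-!
MP_01f3ee_nt, module NEAR: from the core statement and the window count to the near-integer count.
-/

set_option autoImplicit false

namespace Pool.MP01f3ee

open Finset

namespace Near

/-- `T` is very close to `H_n - α` for some `n`. -/
def NearT (K : ℕ) (α : ℝ) (T : ℤ) : Prop :=
  ∃ n : ℕ, 1 ≤ n ∧ |(harmonic n : ℝ) - α - T| ≤ 1 / (n : ℝ) ^ K

/-- Equal sums of `k` elements are excluded. -/
def Pat (K k : ℕ) : Prop :=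
  ∀ (α Y : ℝ) (A B : Finset ℤ), 0 ≤ α → α ≤ 1 → (K : ℝ) ≤ Y → Disjoint A B → A.card = k →
    B.card = k → (∀ t ∈ A ∪ B, Y ≤ t ∧ (t : ℝ) ≤ (1 + 1 / (K : ℝ)) * Y ∧ NearT K α t) →
    ∑ a ∈ A, a ≠ ∑ b ∈ B, b

theorem sum_orderEmb (A : Finset ℤ) (k : ℕ) (h : A.card = k) :
    ∑ i, A.orderEmbOfFin h i = ∑ a ∈ A, a := by
  conv_rhs => rw [← Finset.map_orderEmbOfFin_univ A h]
  rw [Finset.sum_map]
  rfl

theorem core_pat (hC : CoreStmt) (k : ℕ) (hk : 1 ≤ k) : ∃ K : ℕ, 1 ≤ K ∧ Pat K k := by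
  obtain ⟨K, hK, H⟩ := hC (k + k) (Fin.append (fun _ : Fin k => (1 : ℤ)) (fun _ : Fin k => (-1 : ℤ)))
    ⟨Fin.castAdd k ⟨0, hk⟩, by rw [Fin.append_left]; exact one_ne_zero⟩
    (by
      rw [Fin.sum_univ_add]
      simp only [Fin.append_left, Fin.append_right]
      simp)
  refine ⟨K, hK, ?_⟩
  intro α Y A B h0 h1 hY hAB hA hB hmem
  set tA : Fin k → ℤ := fun i => A.orderEmbOfFin hA i with htA
  set tB : Fin k → ℤ := fun i => B.orderEmbOfFin hB i with htB
  have hAm : ∀ i, tA i ∈ A := fun i => A.orderEmbOfFin_mem hA i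
  have hBm : ∀ i, tB i ∈ B := fun i => B.orderEmbOfFin_mem hB i
  have hmem' : ∀ i : Fin (k + k), Fin.append tA tB i ∈ A ∪ B := by
    intro i
    refine Fin.addCases (fun j => ?_) (fun j => ?_) i
    · rw [Fin.append_left]
      exact Finset.mem_union_left _ (hAm j)
    · rw [Fin.append_right]
      exact Finset.mem_union_right _ (hBm j)
  have hn : ∀ i : Fin (k + k), ∃ n : ℕ, 1 ≤ n ∧
      |(harmonic n : ℝ) - α - (Fin.append tA tB i : ℤ)| ≤ 1 / (n : ℝ) ^ K :=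
    fun i => (hmem _ (hmem' i)).2.2
  choose n hn1 hn2 using hn
  have hinj : Function.Injective (Fin.append tA tB) := by
    intro i j
    refine Fin.addCases (fun i' => ?_) (fun i' => ?_) i <;>
      refine Fin.addCases (fun j' => ?_) (fun j' => ?_) j
    · rw [Fin.append_left, Fin.append_left]
      intro h
      rw [(A.orderEmbOfFin hA).injective h]
    · rw [Fin.append_left, Fin.append_right]
      intro h
      exact absurd h (Finset.disjoint_iff_ne.mp hAB _ (hAm i') _ (hBm j'))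
    · rw [Fin.append_left, Fin.append_right]
      intro h
      exact absurd h.symm (Finset.disjoint_iff_ne.mp hAB _ (hAm j') _ (hBm i'))
    · rw [Fin.append_right, Fin.append_right]
      intro h
      rw [(B.orderEmbOfFin hB).injective h]
  have key := H α Y (Fin.append tA tB) n h0 h1 hY hinj (fun i => (hmem _ (hmem' i)).1)
    (fun i => (hmem _ (hmem' i)).2.1) hn1 hn2
  intro heq
  apply key
  rw [Fin.sum_univ_add]
  simp only [Fin.append_left, Fin.append_right, one_mul, neg_mul, Finset.sum_neg_distrib]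
  rw [htA, htB, sum_orderEmb, sum_orderEmb, heq]
  ring

theorem nearT_mono {K K' : ℕ} (h : K ≤ K') {α : ℝ} {T : ℤ} (hT : NearT K' α T) : NearT K α T := by
  obtain ⟨n, hn, h1⟩ := hT
  refine ⟨n, hn, h1.trans ?_⟩
  have hn' : (1 : ℝ) ≤ n := by exact_mod_cast hn
  exact one_div_le_one_div_of_le (by positivity) (pow_le_pow_right₀ hn' h)

theorem pat_mono {K K' k : ℕ} (h0 : 1 ≤ K) (h : K ≤ K') (hp : Pat K k) : Pat K' k := by
  intro α Y A B hα0 hα1 hY hAB hA hB hmem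
  have hKr : (K : ℝ) ≤ K' := by exact_mod_cast h
  have hK0 : (0 : ℝ) < K := by exact_mod_cast h0
  refine hp α Y A B hα0 hα1 (hKr.trans hY) hAB hA hB fun t ht => ?_
  obtain ⟨a, b, c⟩ := hmem t ht
  refine ⟨a, b.trans ?_, nearT_mono h c⟩
  have hY0 : 0 ≤ Y := hK0.le.trans (hKr.trans hY)
  apply mul_le_mul_of_nonneg_right _ hY0
  have := one_div_le_one_div_of_le hK0 hKr
  linarith

theorem exists_K (hC : CoreStmt) (h : ℕ) : ∃ K : ℕ, 2 ≤ K ∧ ∀ k, 1 ≤ k → k ≤ h → Pat K k := by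
  have h1 : ∀ k : ℕ, ∃ K : ℕ, 1 ≤ K ∧ (1 ≤ k → Pat K k) := by
    intro k
    by_cases hk : 1 ≤ k
    · obtain ⟨K, a, b⟩ := core_pat hC k hk
      exact ⟨K, a, fun _ => b⟩
    · exact ⟨1, le_refl _, fun h' => absurd h' hk⟩
  choose f hf1 hf2 using h1
  refine ⟨2 + ∑ k ∈ range (h + 1), f k, by omega, fun k hk hkh => ?_⟩
  refine pat_mono (hf1 k) ?_ (hf2 k hk)
  have : f k ≤ ∑ k ∈ range (h + 1), f k :=
    Finset.single_le_sum (f := f) (fun _ _ => Nat.zero_le _) (Finset.mem_range.mpr (by omega))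
  omega

/-- Windows. -/
theorem window_card {h K : ℕ} (hK : 2 ≤ K) (hP : ∀ k, 1 ≤ k → k ≤ h → Pat K k) (C : ℝ)
    (hC : ∀ (S : Finset ℤ) (Y : ℝ), 1 ≤ Y → (∀ t ∈ S, 0 ≤ t ∧ (t : ℝ) ≤ 2 * Y) →
    (∀ A B : Finset ℤ, A ⊆ S → B ⊆ S → Disjoint A B → A.card = B.card → 1 ≤ A.card → A.card ≤ h →
      ∑ a ∈ A, a ≠ ∑ b ∈ B, b) →
    (S.card : ℝ) ≤ C * Y ^ (1 / (h : ℝ))) (α Y : ℝ) (h0 : 0 ≤ α) (h1 : α ≤ 1) (hY : (K : ℝ) ≤ Y)
    (S : Finset ℤ)
    (hS : ∀ t ∈ S, Y ≤ t ∧ (t : ℝ) ≤ (1 + 1 / (K : ℝ)) * Y ∧ NearT K α t) :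
    (S.card : ℝ) ≤ C * Y ^ (1 / (h : ℝ)) := by
  have hK2 : (2 : ℝ) ≤ K := by exact_mod_cast hK
  have hY0 : 0 ≤ Y := by linarith
  refine hC S Y (by linarith) (fun t ht => ?_) ?_
  · obtain ⟨a, b, _⟩ := hS t ht
    constructor
    · have : (0 : ℝ) ≤ (t : ℝ) := by linarith
      exact_mod_cast this
    · refine b.trans (mul_le_mul_of_nonneg_right ?_ hY0)
      have : 1 / (K : ℝ) ≤ 1 := by
        rw [div_le_one (by linarith)]
        linarith
      linarith
  · intro A B hA hB hAB hcard hc1 hch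
    refine hP A.card hc1 hch α Y A B h0 h1 hY hAB rfl hcard.symm fun t ht => ?_
    rcases Finset.mem_union.mp ht with h' | h'
    · exact hS t (hA h')
    · exact hS t (hB h')

/-- Geometric windows. -/
theorem windows_card {h K : ℕ} (hK : 2 ≤ K) (C α : ℝ) (hC0 : 0 ≤ C)
    (hW : ∀ (Y : ℝ) (S : Finset ℤ), (K : ℝ) ≤ Y →
      (∀ t ∈ S, Y ≤ t ∧ (t : ℝ) ≤ (1 + 1 / (K : ℝ)) * Y ∧ NearT K α t) →
      (S.card : ℝ) ≤ C * Y ^ (1 / (h : ℝ))) (j : ℕ) :
    ∀ S : Finset ℤ, (∀ t ∈ S, (K : ℝ) ≤ t ∧ (t : ℝ) < K * (1 + 1 / (K : ℝ)) ^ j ∧ NearT K α t) →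
      (S.card : ℝ) ≤ j * (C * (K * (1 + 1 / (K : ℝ)) ^ j) ^ (1 / (h : ℝ))) := by
  have hK0 : (0 : ℝ) < K := by
    have : 0 < K := by omega
    exact_mod_cast this
  have hq : (1 : ℝ) ≤ 1 + 1 / (K : ℝ) := by
    have : (0 : ℝ) ≤ 1 / (K : ℝ) := by positivity
    linarith
  induction j with
  | zero =>
    intro S hS
    have : S = ∅ := by
      apply Finset.eq_empty_of_forall_notMem
      intro t ht
      obtain ⟨a, b, _⟩ := hS t ht
      rw [pow_zero, mul_one] at b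
      linarith
    rw [this]
    simp
  | succ j ih =>
    intro S hS
    classical
    set q : ℝ := 1 + 1 / (K : ℝ) with hqd
    set Y : ℝ := K * q ^ j with hY
    have hYK : (K : ℝ) ≤ Y := by
      rw [hY]
      have := one_le_pow₀ hq (n := j)
      nlinarith
    have h1 := ih (S.filter fun t : ℤ => (t : ℝ) < Y) (by
      intro t ht
      rw [Finset.mem_filter] at ht
      obtain ⟨a, _, c⟩ := hS t ht.1
      exact ⟨a, ht.2, c⟩)
    have h2 := hW Y (S.filter fun t : ℤ => ¬ (t : ℝ) < Y) hYK (by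
      intro t ht
      rw [Finset.mem_filter] at ht
      obtain ⟨_, b, c⟩ := hS t ht.1
      refine ⟨not_lt.mp ht.2, ?_, c⟩
      rw [pow_succ] at b
      rw [hY]
      linarith)
    have h3 : (S.card : ℝ) = ((S.filter fun t : ℤ => (t : ℝ) < Y).card : ℝ) +
        ((S.filter fun t : ℤ => ¬ (t : ℝ) < Y).card : ℝ) := by
      exact_mod_cast (Finset.card_filter_add_card_filter_not (s := S)
        (p := fun t : ℤ => (t : ℝ) < Y)).symm
    have h4 : Y ^ (1 / (h : ℝ)) ≤ (K * q ^ (j + 1)) ^ (1 / (h : ℝ)) := by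
      apply Real.rpow_le_rpow (hK0.le.trans hYK)
      · rw [pow_succ, ← mul_assoc]
        exact le_mul_of_one_le_right (hK0.le.trans hYK) hq
      · positivity
    rw [h3]
    push_cast
    have h5 : C * Y ^ (1 / (h : ℝ)) ≤ C * (K * q ^ (j + 1)) ^ (1 / (h : ℝ)) :=
      mul_le_mul_of_nonneg_left h4 hC0
    have h6 : (j : ℝ) * (C * Y ^ (1 / (h : ℝ))) ≤
        j * (C * (K * q ^ (j + 1)) ^ (1 / (h : ℝ))) :=
      mul_le_mul_of_nonneg_left h5 (Nat.cast_nonneg _)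
    linarith

/-- Count of all near integers up to `X`. -/
theorem near_card {h K : ℕ} (hh : 1 ≤ h) (hK : 2 ≤ K) (C α : ℝ) (hC0 : 0 ≤ C)
    (hW : ∀ (Y : ℝ) (S : Finset ℤ), (K : ℝ) ≤ Y →
      (∀ t ∈ S, Y ≤ t ∧ (t : ℝ) ≤ (1 + 1 / (K : ℝ)) * Y ∧ NearT K α t) →
      (S.card : ℝ) ≤ C * Y ^ (1 / (h : ℝ))) (X : ℝ) (hX : 1 ≤ X)
    (S : Finset ℤ) (hS : ∀ t ∈ S, (-1 : ℤ) ≤ t ∧ (t : ℝ) ≤ X ∧ NearT K α t) :
    (S.card : ℝ) ≤ (K + 1) + (Real.log X / Real.log (1 + 1 / (K : ℝ)) + 1) *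
      (C * (2 * K * X ^ (1 / (h : ℝ)))) := by
  classical
  have hK2 : (2 : ℝ) ≤ K := by exact_mod_cast hK
  have hK0 : (0 : ℝ) < K := by linarith
  set q : ℝ := 1 + 1 / (K : ℝ) with hqd
  have hq1 : 1 < q := by
    have : (0 : ℝ) < 1 / (K : ℝ) := by positivity
    linarith
  have hq2 : q ≤ 2 := by
    have : 1 / (K : ℝ) ≤ 1 := by
      rw [div_le_one hK0]
      linarith
    linarith
  have hlq : 0 < Real.log q := Real.log_pos hq1
  have hlX : 0 ≤ Real.log X := Real.log_nonneg hX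
  set j : ℕ := ⌊Real.log X / Real.log q⌋₊ + 1 with hj
  have hj1 : (j : ℝ) ≤ Real.log X / Real.log q + 1 := by
    rw [hj]
    push_cast
    have := Nat.floor_le (div_nonneg hlX hlq.le)
    linarith
  have hj2 : X < q ^ j := by
    have h1 : Real.log X / Real.log q < j := by
      rw [hj]
      push_cast
      exact Nat.lt_floor_add_one _
    rw [div_lt_iff₀ hlq] at h1
    rw [← Real.log_pow] at h1
    exact (Real.log_lt_log_iff (by linarith) (by positivity)).mp h1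
  have hj3 : q ^ j ≤ q * X := by
    rw [hj, pow_succ, mul_comm]
    apply mul_le_mul_of_nonneg_left _ (by linarith)
    have h1 : ((⌊Real.log X / Real.log q⌋₊ : ℕ) : ℝ) * Real.log q ≤ Real.log X := by
      have := Nat.floor_le (div_nonneg hlX hlq.le)
      rwa [le_div_iff₀ hlq] at this
    rw [← Real.log_pow] at h1
    exact (Real.log_le_log_iff (by positivity) (by linarith)).mp h1
  have h3 : (S.card : ℝ) = ((S.filter fun t : ℤ => (t : ℝ) < K).card : ℝ) +
      ((S.filter fun t : ℤ => ¬ (t : ℝ) < K).card : ℝ) := by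
    exact_mod_cast (Finset.card_filter_add_card_filter_not (s := S)
      (p := fun t : ℤ => (t : ℝ) < K)).symm
  have h4 : ((S.filter fun t : ℤ => (t : ℝ) < K).card : ℝ) ≤ K + 1 := by
    have h5 : (S.filter fun t : ℤ => (t : ℝ) < K) ⊆ Finset.Ico (-1 : ℤ) (K : ℤ) := by
      intro t ht
      rw [Finset.mem_filter] at ht
      rw [Finset.mem_Ico]
      exact ⟨(hS t ht.1).1, by exact_mod_cast ht.2⟩
    have h6 := Finset.card_le_card h5
    rw [Int.card_Ico] at h6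
    have h7 : ((K : ℤ) - (-1)).toNat = K + 1 := by omega
    rw [h7] at h6
    exact_mod_cast h6
  have h5 := windows_card hK C α hC0 hW j (S.filter fun t : ℤ => ¬ (t : ℝ) < K) (by
    intro t ht
    rw [Finset.mem_filter] at ht
    obtain ⟨_, b, c⟩ := hS t ht.1
    refine ⟨not_lt.mp ht.2, ?_, c⟩
    have h8 : X < K * q ^ j := by
      have : q ^ j ≤ K * q ^ j := le_mul_of_one_le_left (by positivity) (by linarith)
      linarith
    linarith)
  have h6 : (K * q ^ j) ^ (1 / (h : ℝ)) ≤ 2 * K * X ^ (1 / (h : ℝ)) := by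
    have h7 : K * q ^ j ≤ (2 * K) * X := by
      calc K * q ^ j ≤ K * (q * X) := mul_le_mul_of_nonneg_left hj3 hK0.le
        _ ≤ K * (2 * X) := by
          apply mul_le_mul_of_nonneg_left _ hK0.le
          apply mul_le_mul_of_nonneg_right hq2 (by linarith)
        _ = (2 * K) * X := by ring
    have h8 : (K * q ^ j) ^ (1 / (h : ℝ)) ≤ ((2 * K) * X) ^ (1 / (h : ℝ)) :=
      Real.rpow_le_rpow (by positivity) h7 (by positivity)
    refine h8.trans ?_
    rw [Real.mul_rpow (by positivity) (by linarith)]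
    apply mul_le_mul_of_nonneg_right _ (Real.rpow_nonneg (by linarith) _)
    have h9 : (2 * (K : ℝ)) ^ (1 / (h : ℝ)) ≤ (2 * (K : ℝ)) ^ (1 : ℝ) := by
      apply Real.rpow_le_rpow_of_exponent_le (by linarith)
      have : (1 : ℝ) ≤ h := by exact_mod_cast hh
      rw [div_le_one (by linarith)]
      exact this
    rwa [Real.rpow_one] at h9
  rw [h3]
  have h7 : (j : ℝ) * (C * (K * q ^ j) ^ (1 / (h : ℝ))) ≤
      (Real.log X / Real.log q + 1) * (C * (2 * K * X ^ (1 / (h : ℝ)))) := by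
    apply mul_le_mul hj1 (mul_le_mul_of_nonneg_left h6 hC0)
    · exact mul_nonneg hC0 (Real.rpow_nonneg (by positivity) _)
    · have := div_nonneg hlX hlq.le
      linarith
  linarith

/-- From integers `n` to integers `T`. -/
theorem count_le (K : ℕ) (hK : 2 ≤ K) (α : ℝ) (h0 : 0 ≤ α) (h1 : α ≤ 1) (x : ℕ) (hx : 2 ≤ x)
    (M : ℝ) (hM : ∀ S : Finset ℤ, (∀ t ∈ S, (-1 : ℤ) ≤ t ∧ (t : ℝ) ≤ Real.log x + 2 ∧
      NearT K α t) → (S.card : ℝ) ≤ M) :
    (({n : ℕ | 1 ≤ n ∧ n ≤ x ∧ ∃ T : ℤ, |(harmonic n : ℝ) - α - T| ≤ 1 / (n : ℝ) ^ K} :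
      Set ℕ).ncard : ℝ) ≤ 2 + M := by
  classical
  set N : Finset ℕ := (Finset.Icc 1 x).filter
    (fun n => ∃ T : ℤ, |(harmonic n : ℝ) - α - T| ≤ 1 / (n : ℝ) ^ K) with hN
  have hset : ({n : ℕ | 1 ≤ n ∧ n ≤ x ∧ ∃ T : ℤ, |(harmonic n : ℝ) - α - T| ≤ 1 / (n : ℝ) ^ K} :
      Set ℕ) = (N : Set ℕ) := by
    ext n
    rw [hN, Finset.mem_coe, Finset.mem_filter, Finset.mem_Icc]
    exact ⟨fun h => ⟨⟨h.1, h.2.1⟩, h.2.2⟩, fun h => ⟨h.1.1, h.1.2, h.2⟩⟩
  rw [hset, Set.ncard_coe_finset]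
  have hT : ∀ n : ℕ, ∃ T : ℤ, n ∈ N → |(harmonic n : ℝ) - α - T| ≤ 1 / (n : ℝ) ^ K := by
    intro n
    by_cases hn : n ∈ N
    · obtain ⟨T, hT⟩ := (Finset.mem_filter.mp hn).2
      exact ⟨T, fun _ => hT⟩
    · exact ⟨0, fun h => absurd h hn⟩
  choose T hT using hT
  have hn1 : ∀ n ∈ N, 1 ≤ n ∧ n ≤ x := fun n hn => Finset.mem_Icc.mp (Finset.mem_filter.mp hn).1
  have hpow : ∀ n : ℕ, 1 ≤ n → 1 / (n : ℝ) ^ K ≤ 1 / (n : ℝ) ^ 2 := by
    intro n hn
    have hn' : (1 : ℝ) ≤ n := by exact_mod_cast hn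
    exact one_div_le_one_div_of_le (by positivity) (pow_le_pow_right₀ hn' hK)
  have hpow1 : ∀ n : ℕ, 1 ≤ n → 1 / (n : ℝ) ^ K ≤ 1 := by
    intro n hn
    have hn' : (1 : ℝ) ≤ n := by exact_mod_cast hn
    rw [div_le_one (by positivity)]
    exact one_le_pow₀ hn'
  have hharm1 : ∀ n : ℕ, 1 ≤ n → (1 : ℝ) ≤ (harmonic n : ℝ) := by
    intro n hn
    have h2 : (1 : ℚ) ≤ harmonic n := by
      unfold harmonic
      have := Finset.single_le_sum (f := fun i : ℕ => ((((i + 1 : ℕ) : ℚ))⁻¹))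
        (s := Finset.range n) (fun i _ => by positivity) (Finset.mem_range.mpr hn)
      simpa using this
    exact_mod_cast h2
  have hstep : ∀ n m : ℕ, n < m → 1 / ((n : ℝ) + 1) ≤ (harmonic m : ℝ) - harmonic n := by
    intro n m hnm
    have h2 : (harmonic (n + 1) : ℚ) ≤ harmonic m := by
      unfold harmonic
      apply Finset.sum_le_sum_of_subset_of_nonneg
      · exact Finset.range_subset_range.mpr hnm
      · intro i _ _
        positivity
    rw [harmonic_succ] at h2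
    have h3 : ((harmonic n + ((n + 1 : ℕ) : ℚ)⁻¹ : ℚ) : ℝ) ≤ (harmonic m : ℝ) := by
      exact_mod_cast h2
    push_cast at h3
    rw [one_div]
    linarith
  have hsplit : N.card = (N.filter fun n => n < 3).card + (N.filter fun n => ¬ n < 3).card :=
    (Finset.card_filter_add_card_filter_not (s := N) (p := fun n => n < 3)).symm
  have hsmall : (N.filter fun n => n < 3).card ≤ 2 := by
    have h2 : (N.filter fun n => n < 3) ⊆ Finset.Icc 1 2 := by
      intro n hn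
      rw [Finset.mem_filter] at hn
      rw [Finset.mem_Icc]
      exact ⟨(hn1 n hn.1).1, by omega⟩
    simpa using Finset.card_le_card h2
  have hinj : Set.InjOn T ((N.filter fun n => ¬ n < 3 : Finset ℕ) : Set ℕ) := by
    have key : ∀ n m : ℕ, n ∈ N → m ∈ N → 3 ≤ n → n < m → T n ≠ T m := by
      intro n m hn hm h3 hnm heq
      have e1 := hT n hn
      have e2 := hT m hm
      rw [← heq] at e2
      have e3 := hstep n m hnm
      have e4 := hpow n (by omega)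
      have e5 := hpow m (by omega)
      have hn3 : (3 : ℝ) ≤ n := by exact_mod_cast h3
      have hnm' : (n : ℝ) ≤ m := by exact_mod_cast hnm.le
      have e6 : 1 / (m : ℝ) ^ 2 ≤ 1 / (n : ℝ) ^ 2 :=
        one_div_le_one_div_of_le (by positivity) (pow_le_pow_left₀ (by linarith) hnm' 2)
      have e7 : (harmonic m : ℝ) - harmonic n ≤ 2 * (1 / (n : ℝ) ^ 2) := by
        have f1 := (abs_le.mp e1).1
        have f2 := (abs_le.mp e2).2
        linarith
      have e8 : 1 / ((n : ℝ) + 1) ≤ 2 * (1 / (n : ℝ) ^ 2) := e3.trans e7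
      rw [mul_one_div, div_le_div_iff₀ (by linarith) (by positivity)] at e8
      nlinarith
    intro n hn m hm heq
    rw [Finset.mem_coe, Finset.mem_filter] at hn hm
    rcases lt_trichotomy n m with h | h | h
    · exact absurd heq (key n m hn.1 hm.1 (by omega) h)
    · exact h
    · exact absurd heq.symm (key m n hm.1 hn.1 (by omega) h)
  have hlarge : (((N.filter fun n => ¬ n < 3).card : ℕ) : ℝ) ≤ M := by
    rw [← Finset.card_image_of_injOn hinj]
    apply hM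
    intro t ht
    obtain ⟨n, hn, rfl⟩ := Finset.mem_image.mp ht
    rw [Finset.mem_filter] at hn
    have a1 := hn1 n hn.1
    have a2 := hT n hn.1
    have a3 := hpow1 n a1.1
    have a4 := hharm1 n a1.1
    have a5 := abs_le.mp a2
    refine ⟨?_, ?_, n, a1.1, a2⟩
    · have : (-1 : ℝ) ≤ (T n : ℝ) := by linarith
      exact_mod_cast this
    · have a6 := harmonic_le_one_add_log n
      have a7 : Real.log n ≤ Real.log x := by
        apply Real.log_le_log
        · exact_mod_cast a1.1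
        · exact_mod_cast a1.2
      linarith
  rw [hsplit]
  push_cast
  have : (((N.filter fun n => n < 3).card : ℕ) : ℝ) ≤ 2 := by exact_mod_cast hsmall
  linarith

end Near

open Near

theorem near_stmt : CoreStmt → WindowStmt → NearStmt := by
  intro hCore hWin ε hε
  obtain ⟨h, hh⟩ := exists_nat_gt (2 / ε)
  have hh0 : (0 : ℝ) < h := lt_trans (by positivity) hh
  have hh1 : 1 ≤ h := by
    have : 0 < h := by exact_mod_cast hh0
    omega
  have hhe : 1 / (h : ℝ) ≤ ε / 2 := by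
    rw [div_le_iff₀ hh0]
    rw [div_lt_iff₀ hε] at hh
    linarith
  obtain ⟨K, hK, hP⟩ := exists_K hCore h
  obtain ⟨C₀, hC₀⟩ := hWin h hh1
  set C : ℝ := max C₀ 0 with hCd
  have hC0 : 0 ≤ C := le_max_right _ _
  have hK2 : (2 : ℝ) ≤ K := by exact_mod_cast hK
  have hK0 : (0 : ℝ) < K := by linarith
  set lq : ℝ := Real.log (1 + 1 / (K : ℝ)) with hlqd
  have hlq : 0 < lq := by
    apply Real.log_pos
    have : (0 : ℝ) < 1 / (K : ℝ) := by positivity
    linarith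
  refine ⟨K, (2 + (K + 1) + ((2 / ε) / lq + 1) * (C * (2 * K))) * 4 ^ ε, ?_⟩
  intro α h0 h1 x hx
  have hW : ∀ (Y : ℝ) (S : Finset ℤ), (K : ℝ) ≤ Y →
      (∀ t ∈ S, Y ≤ t ∧ (t : ℝ) ≤ (1 + 1 / (K : ℝ)) * Y ∧ NearT K α t) →
      (S.card : ℝ) ≤ C * Y ^ (1 / (h : ℝ)) := by
    intro Y S hY hS
    refine (window_card hK hP C₀ hC₀ α Y h0 h1 hY S hS).trans ?_
    exact mul_le_mul_of_nonneg_right (le_max_left _ _) (Real.rpow_nonneg (by linarith) _)
  have hx2 : (2 : ℝ) ≤ x := by exact_mod_cast hx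
  have hlx : (0.69 : ℝ) ≤ Real.log x := by
    have h2 : Real.log 2 ≤ Real.log x := Real.log_le_log (by norm_num) hx2
    have := Real.log_two_gt_d9
    linarith
  set X : ℝ := Real.log x + 2 with hXd
  have hX1 : 1 ≤ X := by linarith
  have hX4 : X ≤ 4 * Real.log x := by linarith
  have hcount := count_le K hK α h0 h1 x hx ((K + 1) + (Real.log X / lq + 1) *
      (C * (2 * K * X ^ (1 / (h : ℝ))))) (fun S hS => near_card hh1 hK C α hC0 hW X hX1 S hS)
  refine hcount.trans ?_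
  have hXe1 : 1 ≤ X ^ ε := Real.one_le_rpow hX1 hε.le
  have hXe2 : 1 ≤ X ^ (ε / 2) := Real.one_le_rpow hX1 (by positivity)
  have hXmul : X ^ (ε / 2) * X ^ (ε / 2) = X ^ ε := by
    rw [← Real.rpow_add (by linarith)]
    congr 1
    ring
  have hlog : Real.log X ≤ (2 / ε) * X ^ (ε / 2) := by
    have := Real.log_le_rpow_div (x := X) (ε := ε / 2) (by linarith) (by positivity)
    refine this.trans (le_of_eq ?_)
    field_simp
  have hXh : X ^ (1 / (h : ℝ)) ≤ X ^ (ε / 2) := Real.rpow_le_rpow_of_exponent_le hX1 hhe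
  have e1 : Real.log X / lq + 1 ≤ ((2 / ε) / lq + 1) * X ^ (ε / 2) := by
    have : Real.log X / lq ≤ ((2 / ε) / lq) * X ^ (ε / 2) := by
      rw [div_mul_eq_mul_div]
      exact div_le_div_of_nonneg_right hlog hlq.le
    linarith
  have e2 : C * (2 * K * X ^ (1 / (h : ℝ))) ≤ (C * (2 * K)) * X ^ (ε / 2) := by
    rw [← mul_assoc]
    exact mul_le_mul_of_nonneg_left hXh (by positivity)
  have e3 : (Real.log X / lq + 1) * (C * (2 * K * X ^ (1 / (h : ℝ)))) ≤
      (((2 / ε) / lq + 1) * X ^ (ε / 2)) * ((C * (2 * K)) * X ^ (ε / 2)) := by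
    apply mul_le_mul e1 e2
    · exact mul_nonneg hC0 (mul_nonneg (by positivity) (Real.rpow_nonneg (by linarith) _))
    · positivity
  have e4 : (((2 / ε) / lq + 1) * X ^ (ε / 2)) * ((C * (2 * K)) * X ^ (ε / 2)) =
      (((2 / ε) / lq + 1) * (C * (2 * K))) * X ^ ε := by
    rw [← hXmul]
    ring
  have e5 : X ^ ε ≤ 4 ^ ε * Real.log x ^ ε := by
    rw [← Real.mul_rpow (by norm_num) (by linarith)]
    exact Real.rpow_le_rpow (by linarith) hX4 hε.le
  have e6 : (2 + ((K : ℝ) + 1)) ≤ (2 + ((K : ℝ) + 1)) * X ^ ε :=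
    le_mul_of_one_le_right (by positivity) hXe1
  have e7 : (2 + (K + 1) + ((2 / ε) / lq + 1) * (C * (2 * K))) * X ^ ε ≤
      (2 + (K + 1) + ((2 / ε) / lq + 1) * (C * (2 * K))) * (4 ^ ε * Real.log x ^ ε) :=
    mul_le_mul_of_nonneg_left e5 (by positivity)
  rw [e4] at e3
  calc 2 + ((K : ℝ) + 1 + (Real.log X / lq + 1) * (C * (2 * K * X ^ (1 / (h : ℝ)))))
      ≤ (2 + (K + 1) + ((2 / ε) / lq + 1) * (C * (2 * K))) * X ^ ε := by
        rw [add_mul (2 + ((K : ℝ) + 1))]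
        linarith
    _ ≤ (2 + (K + 1) + ((2 / ε) / lq + 1) * (C * (2 * K))) * (4 ^ ε * Real.log x ^ ε) := e7
    _ = (2 + (K + 1) + ((2 / ε) / lq + 1) * (C * (2 * K))) * 4 ^ ε * Real.log x ^ ε := by ring

end Pool.MP01f3ee
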