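import Mathlib
import Pool.Agent.Lib.MP_01f3ee_nt.Defs

set_option autoImplicit false

namespace Pool.MP01f3ee

open Finset

namespace PhiAux

/-- the coefficients `b_k` -/
noncomputable def bb : ℕ → ℚ
  | 0 => 1
  | (k + 1) => -(1 / ((k : ℚ) + 1)) * ∑ j : Fin (k + 1), bb j.1 * cc j.1 (k + 2 - j.1)
decreasing_by exact j.2

theorem bb_zero : bb 0 = 1 := by rw [bb]

theorem bb_succ (k : ℕ) : bb (k + 1) =
    -(1 / ((k : ℚ) + 1)) * ∑ j ∈ range (k + 1), bb j * cc j (k + 2 - j) := by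
  rw [bb, Finset.sum_range]

/-- the coefficients `φ_k` -/
noncomputable def ph : ℕ → ℚ
  | k => bb k - ∑ a : Fin k, ph a.1 * (PowerSeries.coeff (k - a.1)) ((PowerSeries.mk bb) ^ a.1)
decreasing_by exact a.2

theorem ph_eq (k : ℕ) : ph k =
    bb k - ∑ a ∈ range k, ph a * (PowerSeries.coeff (k - a)) ((PowerSeries.mk bb) ^ a) := by
  rw [ph, Finset.sum_range]

theorem cc_zero (j : ℕ) : cc j 0 = 1 := by
  simp [cc]

theorem cc_one (j : ℕ) : cc j 1 = j := by
  simp [cc, Finset.sum_range_succ]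

theorem formalB_bb : FormalB bb := by
  refine ⟨bb_zero, fun k => ?_⟩
  rw [Finset.sum_range_succ, Nat.sub_self, cc_zero, mul_one, add_eq_right]
  rcases k with _ | k
  · simp
  · rw [Finset.sum_range_succ, Nat.add_sub_cancel_left, cc_one]
    rcases k with _ | k
    · simp
    · rw [bb_succ]
      have hk : ((k : ℚ) + 1) ≠ 0 := by positivity
      have h2 : ∀ j, k + 1 + 1 - j = k + 2 - j := fun j => rfl
      simp only [h2]
      push_cast
      field_simp
      ring

theorem coeff_zero_pow (a : ℕ) : (PowerSeries.coeff 0) ((PowerSeries.mk bb) ^ a) = 1 := by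
  rw [PowerSeries.coeff_zero_eq_constantCoeff_apply, map_pow,
    ← PowerSeries.coeff_zero_eq_constantCoeff_apply, PowerSeries.coeff_mk, bb_zero, one_pow]

theorem formalPhi_ph : FormalPhi bb ph := by
  intro k
  rw [Finset.sum_range_succ, Nat.sub_self, coeff_zero_pow, mul_one, ph_eq k]
  ring

/-- rationals integral at `p` -/
def IR (p : ℕ) (hp : p.Prime) : Subring ℚ where
  carrier := {q | ¬ p ∣ q.den}
  mul_mem' := by
    intro a b ha hb h
    rcases (Nat.Prime.dvd_mul hp).mp (h.trans (Rat.mul_den_dvd a b)) with h1 | h1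
    · exact ha h1
    · exact hb h1
  one_mem' := by
    intro h
    rw [Rat.den_one] at h
    exact hp.one_lt.ne' (Nat.dvd_one.mp h)
  add_mem' := by
    intro a b ha hb h
    rcases (Nat.Prime.dvd_mul hp).mp (h.trans (Rat.add_den_dvd a b)) with h1 | h1
    · exact ha h1
    · exact hb h1
  zero_mem' := by
    intro h
    rw [Rat.den_zero] at h
    exact hp.one_lt.ne' (Nat.dvd_one.mp h)
  neg_mem' := by
    intro a ha h
    rw [Rat.neg_den] at h
    exact ha h

theorem mem_IR {p : ℕ} {hp : p.Prime} {q : ℚ} : q ∈ IR p hp ↔ ¬ p ∣ q.den := Iff.rfl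

theorem inv_mem {p : ℕ} (hp : p.Prime) {k : ℕ} (h : ¬ p ∣ k) : ((k : ℚ))⁻¹ ∈ IR p hp := by
  rw [mem_IR, Rat.inv_natCast_den]
  split_ifs with h0
  · intro h1
    exact hp.one_lt.ne' (Nat.dvd_one.mp h1)
  · exact h

theorem inv_not_mem {p : ℕ} (hp : p.Prime) {k : ℕ} (h : p ∣ k) (hk : k ≠ 0) :
    ((k : ℚ))⁻¹ ∉ IR p hp := by
  rw [mem_IR, Rat.inv_natCast_den, if_neg hk]
  exact not_not.mpr h

theorem cc_mem {p : ℕ} (hp : p.Prime) (j m : ℕ) (hm : m < p) : cc j m ∈ IR p hp := by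
  unfold cc
  refine sum_mem fun i hi => ?_
  rw [Finset.mem_range] at hi
  refine mul_mem ?_ (natCast_mem _ _)
  rw [div_eq_mul_inv]
  refine mul_mem (pow_mem (neg_mem (one_mem _)) _) (inv_mem hp ?_)
  rw [hp.dvd_factorial]
  omega

theorem bb_mem {p : ℕ} (hp : p.Prime) (k : ℕ) (hk : k < p - 1) : bb k ∈ IR p hp := by
  induction k using Nat.strong_induction_on with
  | _ k ih =>
    rcases k with _ | k
    · rw [bb_zero]
      exact one_mem _
    · rw [bb_succ, one_div]
      refine mul_mem (neg_mem ?_) (sum_mem fun j hj => ?_)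
      · have h1 : ((k : ℚ) + 1)⁻¹ = (((k + 1 : ℕ) : ℚ))⁻¹ := by push_cast; rfl
        rw [h1]
        apply inv_mem hp
        intro h
        have := Nat.le_of_dvd (by omega) h
        omega
      · rw [Finset.mem_range] at hj
        exact mul_mem (ih j hj (by omega)) (cc_mem hp _ _ (by omega))

theorem bb_not_mem {p : ℕ} (hp : p.Prime) : bb (p - 1) ∉ IR p hp := by
  intro h
  have hp2 := hp.two_le
  obtain ⟨k, hk⟩ : ∃ k, p = k + 2 := ⟨p - 2, by omega⟩
  have hk1 : p - 1 = k + 1 := by omega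
  rw [hk1] at h
  -- the recursion
  have h1 : ∑ j ∈ range (k + 1), bb j * cc j (k + 2 - j) = -(((k + 1 : ℕ) : ℚ) * bb (k + 1)) := by
    rw [bb_succ]
    have hk0 : ((k : ℚ) + 1) ≠ 0 := by positivity
    push_cast
    field_simp
  have h2 : ∑ j ∈ range (k + 1), bb j * cc j (k + 2 - j) ∈ IR p hp := by
    rw [h1]
    exact neg_mem (mul_mem (natCast_mem _ _) h)
  rw [Finset.sum_range_succ', bb_zero, one_mul, Nat.sub_zero] at h2
  have h3 : ∑ j ∈ range k, bb (j + 1) * cc (j + 1) (k + 2 - (j + 1)) ∈ IR p hp := by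
    refine sum_mem fun j hj => ?_
    rw [Finset.mem_range] at hj
    exact mul_mem (bb_mem hp _ (by omega)) (cc_mem hp _ _ (by omega))
  have h4 : cc 0 (k + 2) ∈ IR p hp := by
    have := sub_mem h2 h3
    rwa [add_sub_cancel_left] at this
  unfold cc at h4
  rw [Finset.sum_range_succ] at h4
  have h5 : ∑ i ∈ range (k + 2), (-1 : ℚ) ^ i / (i.factorial : ℚ) *
      (((0 + (k + 2 - i)).choose (k + 2 - i) : ℕ) : ℚ) ∈ IR p hp := by
    refine sum_mem fun i hi => ?_
    rw [Finset.mem_range] at hi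
    refine mul_mem ?_ (natCast_mem _ _)
    rw [div_eq_mul_inv]
    refine mul_mem (pow_mem (neg_mem (one_mem _)) _) (inv_mem hp ?_)
    rw [hp.dvd_factorial]
    omega
  have h6 := sub_mem h4 h5
  rw [add_sub_cancel_left, Nat.sub_self, add_zero, Nat.choose_zero_right, Nat.cast_one, mul_one,
    div_eq_mul_inv] at h6
  have h7 : ((-1 : ℚ) ^ (k + 2)) * ((-1 : ℚ) ^ (k + 2) * (((k + 2).factorial : ℚ))⁻¹) ∈ IR p hp :=
    mul_mem (pow_mem (neg_mem (one_mem _)) _) h6
  have h8 : ((-1 : ℚ) ^ (k + 2)) * ((-1 : ℚ) ^ (k + 2) * (((k + 2).factorial : ℚ))⁻¹) =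
      (((k + 2).factorial : ℚ))⁻¹ := by
    rw [← mul_assoc, ← mul_pow]
    norm_num
  rw [h8] at h7
  refine inv_not_mem hp ?_ (Nat.factorial_ne_zero _) h7
  rw [hp.dvd_factorial]
  omega

theorem coeff_pow_mem {S : Subring ℚ} (f : PowerSeries ℚ) (m : ℕ)
    (hf : ∀ i ≤ m, PowerSeries.coeff i f ∈ S) (n : ℕ) :
    ∀ i ≤ m, PowerSeries.coeff i (f ^ n) ∈ S := by
  induction n with
  | zero =>
    intro i _
    rw [pow_zero, PowerSeries.coeff_one]
    split_ifs
    · exact one_mem _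
    · exact zero_mem _
  | succ n ih =>
    intro i hi
    rw [pow_succ, PowerSeries.coeff_mul]
    refine sum_mem fun q hq => ?_
    rw [Finset.HasAntidiagonal.mem_antidiagonal] at hq
    exact mul_mem (ih _ (by omega)) (hf _ (by omega))

theorem ph_mem {p : ℕ} (hp : p.Prime) (k : ℕ) (hk : k < p - 1) : ph k ∈ IR p hp := by
  induction k using Nat.strong_induction_on with
  | _ k ih =>
    rw [ph_eq]
    refine sub_mem (bb_mem hp k hk) (sum_mem fun a ha => ?_)
    rw [Finset.mem_range] at ha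
    refine mul_mem (ih a ha (by omega)) (coeff_pow_mem _ k (fun i hi => ?_) a _ (by omega))
    rw [PowerSeries.coeff_mk]
    exact bb_mem hp i (by omega)

theorem ph_not_mem {p : ℕ} (hp : p.Prime) : ph (p - 1) ∉ IR p hp := by
  intro h
  apply bb_not_mem hp
  have hp2 := hp.two_le
  obtain ⟨k, hk⟩ : ∃ k, p = k + 2 := ⟨p - 2, by omega⟩
  have hk1 : p - 1 = k + 1 := by omega
  have h1 : bb (p - 1) = ph (p - 1) +
      ∑ a ∈ range (p - 1), ph a * (PowerSeries.coeff (p - 1 - a)) ((PowerSeries.mk bb) ^ a) := by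
    rw [ph_eq (p - 1)]
    ring
  rw [h1]
  refine add_mem h ?_
  rw [hk1, Finset.sum_range_succ']
  refine add_mem (sum_mem fun a ha => ?_) ?_
  · rw [Finset.mem_range] at ha
    refine mul_mem (ph_mem hp _ (by omega)) (coeff_pow_mem _ k (fun i hi => ?_) _ _ (by omega))
    rw [PowerSeries.coeff_mk]
    exact bb_mem hp i (by omega)
  · rw [pow_zero, PowerSeries.coeff_one, if_neg (by omega), mul_zero]
    exact zero_mem _

end PhiAux

open PhiAux in
theorem phi_stmt : PhiStmt := by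
  refine ⟨bb, ph, formalB_bb, formalPhi_ph, fun p hp => ⟨fun a ha => ph_mem hp a ha, ?_⟩⟩
  have := ph_not_mem hp
  rw [mem_IR, not_not] at this
  exact this

end Pool.MP01f3ee
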