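import Mathlib
import Pool.Agent.Lib.MP_01f3ee_nt.Defs

set_option autoImplicit false

namespace Pool.MP01f3ee
namespace SeqApx

open Finset

lemma gamma_nonneg : 0 ≤ Real.eulerMascheroniConstant :=
  (by norm_num : (0 : ℝ) ≤ 1 / 2).trans Real.one_half_lt_eulerMascheroniConstant.le

lemma gamma_le_one : Real.eulerMascheroniConstant ≤ 1 :=
  Real.eulerMascheroniConstant_lt_two_thirds.le.trans (by norm_num)

lemma exp_sub_bound (x y M : ℝ) (hx : x ≤ M) (hy : y ≤ M) :
    |Real.exp x - Real.exp y| ≤ |x - y| * Real.exp M := by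
  wlog h : y ≤ x generalizing x y
  · rw [abs_sub_comm, abs_sub_comm x y]
    exact this y x hy hx (le_of_not_ge h)
  have h1 : 0 ≤ Real.exp x - Real.exp y := sub_nonneg.mpr (Real.exp_le_exp.mpr h)
  rw [abs_of_nonneg h1, abs_of_nonneg (sub_nonneg.mpr h)]
  have h2 : Real.exp x - Real.exp y = Real.exp x * (1 - Real.exp (y - x)) := by
    rw [mul_sub, mul_one, ← Real.exp_add]
    congr 2; ring
  rw [h2, mul_comm]
  have h3 : y - x + 1 ≤ Real.exp (y - x) := Real.add_one_le_exp _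
  have h4 : 0 ≤ 1 - Real.exp (y - x) := by
    have : Real.exp (y - x) ≤ 1 := Real.exp_le_one_iff.mpr (by linarith)
    linarith
  exact mul_le_mul (by linarith) (Real.exp_le_exp.mpr hx) (Real.exp_pos _).le (by linarith)

end SeqApx

open Finset SeqApx

theorem seqUp_stmt : SeqUpStmt := by
  intro r D δ η hη
  set A : ℝ := ∑ i, |(δ i : ℝ)| with hA
  have hA0 : 0 ≤ A := Finset.sum_nonneg (fun _ _ => abs_nonneg _)
  obtain ⟨K0, hK0⟩ := exists_nat_ge (3 * A / η)
  filter_upwards [Filter.eventually_ge_atTop K0] with K hK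
  apply Real.exp_le_exp.mpr
  have hY := D.hY K
  have hKp : (0 : ℝ) < (K : ℝ) + 1 := by positivity
  have hYpos : 0 < D.Y K := by linarith
  have hKK : (K0 : ℝ) ≤ K := by exact_mod_cast hK
  have h3A : 3 * A ≤ η * ((K : ℝ) + 1) := by
    have h1 : 3 * A / η ≤ (K : ℝ) + 1 := by linarith
    rw [div_le_iff₀ hη] at h1
    linarith
  have hq : 1 ≤ D.Y K / ((K : ℝ) + 1) := by rw [le_div_iff₀ hKp]; linarith
  have hterm : ∀ i, (δ i : ℝ) * ((D.t K i : ℝ) + D.α K - Real.eulerMascheroniConstant) ≤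
      (δ i : ℝ) * D.Y K + |(δ i : ℝ)| * (3 * (D.Y K / ((K : ℝ) + 1))) := by
    intro i
    have h1 := D.hlo K i
    have h2 := D.hhi K i
    have h3 := D.hα0 K
    have h4 := D.hα1 K
    have h5 := gamma_nonneg
    have h6 := gamma_le_one
    have h7 : |(D.t K i : ℝ) - D.Y K + D.α K - Real.eulerMascheroniConstant| ≤
        3 * (D.Y K / ((K : ℝ) + 1)) := by
      have h8 : (1 + 1 / ((K : ℝ) + 1)) * D.Y K = D.Y K + D.Y K / ((K : ℝ) + 1) := by ring
      rw [h8] at h2
      rw [abs_le]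
      constructor <;> linarith
    have h9 : (δ i : ℝ) * ((D.t K i : ℝ) + D.α K - Real.eulerMascheroniConstant) =
        (δ i : ℝ) * D.Y K +
          (δ i : ℝ) * ((D.t K i : ℝ) - D.Y K + D.α K - Real.eulerMascheroniConstant) := by ring
    rw [h9]
    have h10 : (δ i : ℝ) * ((D.t K i : ℝ) - D.Y K + D.α K - Real.eulerMascheroniConstant) ≤
        |(δ i : ℝ)| * (3 * (D.Y K / ((K : ℝ) + 1))) := by
      refine (le_abs_self _).trans ?_
      rw [abs_mul]
      exact mul_le_mul_of_nonneg_left h7 (abs_nonneg _)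
    linarith
  unfold SeqData.L
  refine (Finset.sum_le_sum (fun i _ => hterm i)).trans ?_
  rw [Finset.sum_add_distrib, ← Finset.sum_mul, ← Finset.sum_mul, ← hA]
  have h11 : A * (3 * (D.Y K / ((K : ℝ) + 1))) ≤ η * D.Y K := by
    have : A * (3 * (D.Y K / ((K : ℝ) + 1))) = 3 * A * D.Y K / ((K : ℝ) + 1) := by ring
    rw [this, div_le_iff₀ hKp]
    nlinarith
  push_cast
  nlinarith

theorem seqApx_stmt : SeqApxStmt := by
  intro r D φ hφ i R η hη
  obtain ⟨C, hC⟩ := hφ R
  set g : ℝ := Real.eulerMascheroniConstant with hg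
  have hg0 : 0 ≤ g := gamma_nonneg
  have hg1 : g ≤ 1 := gamma_le_one
  set M : ℝ := ∑ a ∈ range (R + 1), |(φ a : ℝ)| * ((R : ℝ) + 1) with hM
  have hM0 : 0 ≤ M := Finset.sum_nonneg (fun _ _ => by positivity)
  -- the conditions on `K`
  have hev1 : ∀ᶠ K : ℕ in Filter.atTop, 2 * (|C| * Real.exp (2 * (R : ℝ))) ≤
      Real.exp (η * ((K : ℝ) + 1)) := by
    have : Filter.Tendsto (fun K : ℕ => Real.exp (η * ((K : ℝ) + 1))) Filter.atTop Filter.atTop := by
      apply Real.tendsto_exp_atTop.comp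
      apply Filter.Tendsto.const_mul_atTop hη
      exact Filter.tendsto_atTop_add_const_right _ _ tendsto_natCast_atTop_atTop
    exact this.eventually_ge_atTop _
  have hev2 : ∀ᶠ K : ℕ in Filter.atTop, 2 * M ≤ Real.exp ((K : ℝ) + 1) := by
    have : Filter.Tendsto (fun K : ℕ => Real.exp ((K : ℝ) + 1)) Filter.atTop Filter.atTop := by
      apply Real.tendsto_exp_atTop.comp
      exact Filter.tendsto_atTop_add_const_right _ _ tendsto_natCast_atTop_atTop
    exact this.eventually_ge_atTop _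
  filter_upwards [hev1, hev2, Filter.eventually_ge_atTop (20 * (R + 1))] with K h1 h2 h3
  have hY := D.hY K
  have hlo := D.hlo K i
  have hhi := D.hhi K i
  have hα0 := D.hα0 K
  have hα1 := D.hα1 K
  have hn1 := D.hn1 K i
  have hnear := D.hnear K i
  have hKR : 20 * ((R : ℝ) + 1) ≤ (K : ℝ) := by exact_mod_cast h3
  have hR0 : (0 : ℝ) ≤ R := by positivity
  have hK20 : (20 : ℝ) ≤ K := by nlinarith
  set Y : ℝ := D.Y K with hYdef
  have hY20 : 21 ≤ Y := by linarith
  set t : ℝ := (D.t K i : ℝ) with ht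
  set n : ℝ := (D.n K i : ℝ) with hn
  have hnn : (1 : ℝ) ≤ n := by rw [hn]; exact_mod_cast hn1
  have hnpos : 0 < n := by linarith
  set H : ℝ := (harmonic (D.n K i) : ℝ) with hH
  have ht2 : t ≤ 2 * Y := by
    have h8 : (1 + 1 / ((K : ℝ) + 1)) ≤ 2 := by
      have : 1 / ((K : ℝ) + 1) ≤ 1 := by
        rw [div_le_one (by positivity)]; linarith
      linarith
    exact hhi.trans (mul_le_mul_of_nonneg_right h8 (by linarith))
  have hsmall1 : 1 / n ^ (K + 1) ≤ 1 := by
    rw [div_le_one (pow_pos hnpos _)]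
    exact one_le_pow₀ hnn
  set u : ℝ := H - g with hu
  set w : ℝ := t + D.α K - g with hw
  have huw : |u - w| ≤ 1 / n ^ (K + 1) := by
    have : u - w = H - D.α K - t := by rw [hu, hw]; ring
    rw [this]; exact hnear
  have huw1 : |u - w| ≤ 1 := huw.trans hsmall1
  have habs := abs_le.mp huw1
  -- lower bound for `n`
  have hnlow : Real.exp (Y - 2) ≤ n := by
    have hh : H ≤ 1 + Real.log n := by
      rw [hH, hn]; exact harmonic_le_one_add_log _
    have hh2 : Y - 2 ≤ Real.log n := by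
      have : w = t + D.α K - g := rfl
      have : u = H - g := rfl
      linarith [habs.1]
    calc Real.exp (Y - 2) ≤ Real.exp (Real.log n) := Real.exp_le_exp.mpr hh2
      _ = n := Real.exp_log hnpos
  have hnpow : 1 / n ^ (K + 1) ≤ Real.exp (-(((K : ℝ) + 1) * (Y - 2))) := by
    rw [Real.exp_neg, one_div]
    apply inv_anti₀ (Real.exp_pos _)
    have : Real.exp (((K : ℝ) + 1) * (Y - 2)) = (Real.exp (Y - 2)) ^ (K + 1) := by
      rw [← Real.exp_nat_mul]; push_cast; rfl
    rw [this]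
    exact pow_le_pow_left₀ (Real.exp_pos _).le hnlow _
  -- first part
  have hfirst : |n - ∑ a ∈ range (R + 1), (φ a : ℝ) * Real.exp ((1 - (a : ℝ)) * u)| ≤
      (1 / 2) * Real.exp ((-(R : ℝ) + η) * Y) := by
    refine (hC (D.n K i) hn1).trans ?_
    have hl : Y - 2 ≤ u := by
      have : w = t + D.α K - g := rfl
      linarith [habs.1]
    have e1 : Real.exp (-(R : ℝ) * u) ≤ Real.exp (-(R : ℝ) * Y + 2 * R) := by
      apply Real.exp_le_exp.mpr
      nlinarith
    have e2 : Real.exp (η * ((K : ℝ) + 1)) ≤ Real.exp (η * Y) := by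
      apply Real.exp_le_exp.mpr
      exact mul_le_mul_of_nonneg_left hY hη.le
    have e3 : Real.exp ((-(R : ℝ) + η) * Y) = Real.exp (-(R : ℝ) * Y) * Real.exp (η * Y) := by
      rw [← Real.exp_add]; congr 1; ring
    have e4 : Real.exp (-(R : ℝ) * Y + 2 * R) = Real.exp (-(R : ℝ) * Y) * Real.exp (2 * (R : ℝ)) := by
      rw [← Real.exp_add]
    have e5 : 0 < Real.exp (-(R : ℝ) * Y) := Real.exp_pos _
    rw [e3]
    calc C * Real.exp (-(R : ℝ) * u) ≤ |C| * Real.exp (-(R : ℝ) * Y + 2 * R) :=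
          mul_le_mul (le_abs_self C) e1 (Real.exp_pos _).le (abs_nonneg _)
      _ = Real.exp (-(R : ℝ) * Y) * (|C| * Real.exp (2 * (R : ℝ))) := by rw [e4]; ring
      _ ≤ Real.exp (-(R : ℝ) * Y) * ((1 / 2) * Real.exp (η * Y)) := by
          apply mul_le_mul_of_nonneg_left _ e5.le
          linarith
      _ = (1 / 2) * (Real.exp (-(R : ℝ) * Y) * Real.exp (η * Y)) := by ring
  -- second part
  have hsecond : |∑ a ∈ range (R + 1), (φ a : ℝ) * Real.exp ((1 - (a : ℝ)) * u) -
      ∑ a ∈ range (R + 1), (φ a : ℝ) * Real.exp ((1 - (a : ℝ)) * w)| ≤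
      (1 / 2) * Real.exp ((-(R : ℝ) + η) * Y) := by
    have hb : ∀ a ∈ range (R + 1), |(φ a : ℝ) * Real.exp ((1 - (a : ℝ)) * u) -
        (φ a : ℝ) * Real.exp ((1 - (a : ℝ)) * w)| ≤
        |(φ a : ℝ)| * ((R : ℝ) + 1) * Real.exp (((R : ℝ) + 1) * (3 * Y) -
          ((K : ℝ) + 1) * (Y - 2)) := by
      intro a ha
      have haR : (a : ℝ) ≤ R := by
        have := mem_range.mp ha
        have : a ≤ R := by omega
        exact_mod_cast this
      have ha0 : (0 : ℝ) ≤ a := by positivity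
      have hab : |1 - (a : ℝ)| ≤ (R : ℝ) + 1 := by
        rw [abs_le]; constructor <;> linarith
      rw [← mul_sub, abs_mul, mul_assoc]
      apply mul_le_mul_of_nonneg_left _ (abs_nonneg _)
      have hwabs : |w| ≤ 3 * Y := by
        rw [abs_le, hw]; constructor <;> linarith
      have huabs : |u| ≤ 3 * Y := by
        rw [abs_le]
        have : w = t + D.α K - g := rfl
        constructor <;> linarith [habs.1, habs.2]
      have hx : ∀ s : ℝ, |s| ≤ 3 * Y → (1 - (a : ℝ)) * s ≤ ((R : ℝ) + 1) * (3 * Y) := by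
        intro s hs
        refine (le_abs_self _).trans ?_
        rw [abs_mul]
        exact mul_le_mul hab hs (abs_nonneg _) (by positivity)
      refine (exp_sub_bound _ _ _ (hx u huabs) (hx w hwabs)).trans ?_
      have h5 : |(1 - (a : ℝ)) * u - (1 - (a : ℝ)) * w| ≤
          ((R : ℝ) + 1) * Real.exp (-(((K : ℝ) + 1) * (Y - 2))) := by
        rw [← mul_sub, abs_mul]
        exact mul_le_mul hab (huw.trans hnpow) (abs_nonneg _) (by positivity)
      calc |(1 - (a : ℝ)) * u - (1 - (a : ℝ)) * w| * Real.exp (((R : ℝ) + 1) * (3 * Y)) ≤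
            (((R : ℝ) + 1) * Real.exp (-(((K : ℝ) + 1) * (Y - 2)))) *
              Real.exp (((R : ℝ) + 1) * (3 * Y)) :=
            mul_le_mul_of_nonneg_right h5 (Real.exp_pos _).le
        _ = ((R : ℝ) + 1) * Real.exp (((R : ℝ) + 1) * (3 * Y) - ((K : ℝ) + 1) * (Y - 2)) := by
            rw [mul_assoc, ← Real.exp_add]
            congr 2; ring
    rw [← Finset.sum_sub_distrib]
    refine (Finset.abs_sum_le_sum_abs _ _).trans ((Finset.sum_le_sum hb).trans ?_)
    rw [← Finset.sum_mul, ← hM]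
    have e1 : Real.exp (((R : ℝ) + 1) * (3 * Y) - ((K : ℝ) + 1) * (Y - 2)) ≤
        Real.exp (-((K : ℝ) + 1)) * Real.exp ((-(R : ℝ) + η) * Y) := by
      rw [← Real.exp_add]
      apply Real.exp_le_exp.mpr
      have hY2 : Y / 2 ≤ Y - 2 := by linarith
      have e2 : ((K : ℝ) + 1) * (Y / 2) ≤ ((K : ℝ) + 1) * (Y - 2) :=
        mul_le_mul_of_nonneg_left hY2 (by positivity)
      have e3 : 20 * ((R : ℝ) + 1) * Y ≤ ((K : ℝ) + 1) * Y :=
        mul_le_mul_of_nonneg_right (by linarith) (by linarith)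
      have e4 : ((K : ℝ) + 1) * 21 ≤ ((K : ℝ) + 1) * Y :=
        mul_le_mul_of_nonneg_left hY20 (by positivity)
      have e5 : 0 ≤ η * Y := by positivity
      nlinarith
    have e6 : 0 < Real.exp ((-(R : ℝ) + η) * Y) := Real.exp_pos _
    calc M * Real.exp (((R : ℝ) + 1) * (3 * Y) - ((K : ℝ) + 1) * (Y - 2)) ≤
          M * (Real.exp (-((K : ℝ) + 1)) * Real.exp ((-(R : ℝ) + η) * Y)) :=
          mul_le_mul_of_nonneg_left e1 hM0
      _ = (M * Real.exp (-((K : ℝ) + 1))) * Real.exp ((-(R : ℝ) + η) * Y) := by ring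
      _ ≤ (1 / 2) * Real.exp ((-(R : ℝ) + η) * Y) := by
          apply mul_le_mul_of_nonneg_right _ e6.le
          rw [Real.exp_neg, ← div_eq_mul_inv, div_le_iff₀ (Real.exp_pos _)]
          linarith
  have hdec : n - ∑ a ∈ range (R + 1), (φ a : ℝ) * Real.exp ((1 - (a : ℝ)) * w) =
      (n - ∑ a ∈ range (R + 1), (φ a : ℝ) * Real.exp ((1 - (a : ℝ)) * u)) +
      (∑ a ∈ range (R + 1), (φ a : ℝ) * Real.exp ((1 - (a : ℝ)) * u) -
        ∑ a ∈ range (R + 1), (φ a : ℝ) * Real.exp ((1 - (a : ℝ)) * w)) := by ring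
  rw [hdec]
  refine (abs_add_le _ _).trans ?_
  linarith

end Pool.MP01f3ee
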