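import Mathlib
import Pool.Agent.Lib.MP_01f3ee_nt.Defs

set_option autoImplicit false

namespace Pool.MP01f3ee

open Finset

namespace SeqLt

theorem exists_num {ι : Type} [DecidableEq ι] (I : Finset ι) (c : ι → ℚ) :
    ∃ (M : ℕ) (c' : ι → ℤ), 0 < M ∧ ∀ δ ∈ I, ((c' δ : ℤ) : ℚ) = M * c δ := by
  refine ⟨∏ δ ∈ I, (c δ).den, fun δ => ((∏ δ ∈ I, (c δ).den : ℕ) / (c δ).den : ℕ) * (c δ).num,
    Finset.prod_pos fun δ _ => (c δ).pos, fun δ hδ => ?_⟩
  have hdvd : (c δ).den ∣ ∏ δ ∈ I, (c δ).den := Finset.dvd_prod_of_mem (fun δ => (c δ).den) hδ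
  have hne : ((c δ).den : ℚ) ≠ 0 := by exact_mod_cast (c δ).den_nz
  have h1 : (c δ) = (c δ).num / (c δ).den := (Rat.num_div_den (c δ)).symm
  rw [Int.cast_mul, Int.cast_natCast, Nat.cast_div hdvd hne]
  conv_rhs => rw [h1]
  field_simp

theorem dev_bound {r : ℕ} (D : SeqData r) (K : ℕ) (δ : Fin r → ℤ) :
    |((∑ i, δ i * D.t K i : ℤ) : ℝ) - ((∑ i, δ i : ℤ) : ℝ) * D.Y K| ≤
      (∑ i, |(δ i : ℝ)|) * (D.Y K / ((K : ℝ) + 1)) := by
  have h1 : ((∑ i, δ i * D.t K i : ℤ) : ℝ) - ((∑ i, δ i : ℤ) : ℝ) * D.Y K =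
      ∑ i, (δ i : ℝ) * ((D.t K i : ℝ) - D.Y K) := by
    push_cast
    rw [Finset.sum_mul, ← Finset.sum_sub_distrib]
    refine Finset.sum_congr rfl fun i _ => ?_
    ring
  rw [h1, Finset.sum_mul]
  refine (Finset.abs_sum_le_sum_abs _ _).trans (Finset.sum_le_sum fun i _ => ?_)
  rw [abs_mul]
  refine mul_le_mul_of_nonneg_left ?_ (abs_nonneg _)
  have h2 := D.hlo K i
  have h3 := D.hhi K i
  rw [abs_of_nonneg (by linarith)]
  have h4 : (1 + 1 / ((K : ℝ) + 1)) * D.Y K = D.Y K + D.Y K / ((K : ℝ) + 1) := by ring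
  rw [h4] at h3
  linarith

theorem L_eq {r : ℕ} (D : SeqData r) (K : ℕ) (δ : Fin r → ℤ) :
    D.L δ K = ((∑ i, δ i * D.t K i : ℤ) : ℝ) +
      ((∑ i, δ i : ℤ) : ℝ) * (D.α K - Real.eulerMascheroniConstant) := by
  unfold SeqData.L
  push_cast
  rw [Finset.sum_mul, ← Finset.sum_add_distrib]
  refine Finset.sum_congr rfl fun i _ => ?_
  ring

theorem abs_sum_le {r : ℕ} (δ : Fin r → ℤ) : |((∑ i, δ i : ℤ) : ℝ)| ≤ ∑ i, |(δ i : ℝ)| := by
  push_cast
  exact Finset.abs_sum_le_sum_abs _ _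

theorem abs_alpha_le {r : ℕ} (D : SeqData r) (K : ℕ) :
    |D.α K - Real.eulerMascheroniConstant| ≤ 1 + |Real.eulerMascheroniConstant| := by
  have h0 := D.hα0 K
  have h1 := D.hα1 K
  calc |D.α K - Real.eulerMascheroniConstant| ≤ |D.α K| + |Real.eulerMascheroniConstant| :=
        abs_sub _ _
    _ ≤ 1 + |Real.eulerMascheroniConstant| := by
        rw [abs_of_nonneg h0]
        linarith

end SeqLt

open SeqLt in
theorem seqLt_stmt : LowerStmt → SeqLtStmt := by
  intro hLow r D I c e hex hle hdist η hη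
  classical
  obtain ⟨δ₀, hδ₀I, hδ₀c, hδ₀e⟩ := hex
  obtain ⟨M, c', hM, hc'⟩ := exists_num I c
  have hMr : (0 : ℝ) < M := by exact_mod_cast hM
  have hc'r : ∀ δ ∈ I, ((c' δ : ℤ) : ℝ) = M * (c δ : ℝ) := by
    intro δ hδ
    have := hc' δ hδ
    have h1 : (((c' δ : ℤ) : ℚ) : ℝ) = ((M * c δ : ℚ) : ℝ) := by rw [this]
    push_cast at h1
    exact h1
  have hc'0 : ∀ δ ∈ I, c' δ = 0 ↔ c δ = 0 := by
    intro δ hδ
    have h1 := hc' δ hδ
    have hMq : (M : ℚ) ≠ 0 := by exact_mod_cast hM.ne'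
    constructor
    · intro h
      rw [h, Int.cast_zero] at h1
      rcases mul_eq_zero.1 h1.symm with h2 | h2
      · exact absurd h2 hMq
      · exact h2
    · intro h
      rw [h, mul_zero] at h1
      exact_mod_cast h1
  set H : ℕ := ∑ δ ∈ I, (c' δ).natAbs with hH
  set Cr : ℝ := ∑ δ ∈ I, ∑ i, |(δ i : ℝ)| with hCr
  have hCrle : ∀ δ ∈ I, ∑ i, |(δ i : ℝ)| ≤ Cr := fun δ hδ =>
    Finset.single_le_sum (f := fun δ : Fin r → ℤ => ∑ i, |(δ i : ℝ)|)
      (fun δ _ => Finset.sum_nonneg fun i _ => abs_nonneg _) hδ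
  have hCr0 : 0 ≤ Cr := Finset.sum_nonneg fun δ _ => Finset.sum_nonneg fun i _ => abs_nonneg _
  obtain ⟨κ, hκ, hlow⟩ := hLow I.card H
  set g : ℝ := 1 + |Real.eulerMascheroniConstant| with hg
  have hg0 : 0 ≤ g := by positivity
  set η' : ℝ := min η 1 / 4 with hη'
  have hη'0 : 0 < η' := by rw [hη']; positivity
  have hη'1 : 4 * η' ≤ η := by
    have := min_le_left η 1
    rw [hη']; linarith
  have hη'2 : 4 * η' ≤ 1 := by
    have := min_le_right η 1
    rw [hη']; linarith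
  set κ' : ℝ := κ * Real.exp (-(Cr * g)) with hκ'
  have hκ'0 : 0 < κ' := by positivity
  set H' : ℝ := H * Real.exp (Cr * g) with hH'
  have hH'0 : 0 ≤ H' := by positivity
  -- large K
  have hev1 : ∀ᶠ K : ℕ in (Filter.hyperfilter ℕ : Filter ℕ),
      max (Cr / η') ((H' + M) / (2 * η' * κ')) ≤ (K : ℝ) :=
    (Filter.Tendsto.eventually_ge_atTop tendsto_natCast_atTop_atTop _).filter_mono
      Nat.hyperfilter_le_atTop
  have hev2 : ∀ᶠ K : ℕ in (Filter.hyperfilter ℕ : Filter ℕ), ∀ δ ∈ I,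
      δ ≠ δ₀ → ∑ i, δ i = e → ∑ i, δ i * D.t K i ≠ ∑ i, δ₀ i * D.t K i := by
    rw [Filter.eventually_all_finset]
    intro δ hδ
    by_cases h1 : δ ≠ δ₀ ∧ ∑ i, δ i = e
    · filter_upwards [hdist δ hδ δ₀ hδ₀I h1.1 (h1.2.trans hδ₀e.symm)] with K hK _ _
      exact hK
    · exact Filter.Eventually.of_forall fun K h2 h3 => absurd ⟨h2, h3⟩ h1
  filter_upwards [hev1, hev2] with K hK1 hK2
  have hKa : Cr / η' ≤ (K : ℝ) := (le_max_left _ _).trans hK1
  have hKb : (H' + M) / (2 * η' * κ') ≤ (K : ℝ) := (le_max_right _ _).trans hK1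
  set Y : ℝ := D.Y K with hY
  have hYK : (K : ℝ) + 1 ≤ Y := D.hY K
  have hK0 : (0 : ℝ) ≤ K := Nat.cast_nonneg K
  have hY0 : 0 < Y := by linarith
  have hCY : Cr * (Y / ((K : ℝ) + 1)) ≤ η' * Y := by
    have h1 : Cr ≤ η' * ((K : ℝ) + 1) := by
      rw [div_le_iff₀ hη'0] at hKa
      nlinarith
    rw [mul_div_assoc', div_le_iff₀ (by linarith)]
    nlinarith [mul_le_mul_of_nonneg_right h1 hY0.le]
  -- the two parts
  set J : Finset (Fin r → ℤ) := I.filter fun δ => ∑ i, δ i = e ∧ c δ ≠ 0 with hJ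
  set J' : Finset (Fin r → ℤ) := I.filter fun δ => ¬ (∑ i, δ i = e ∧ c δ ≠ 0) with hJ'
  set a : (Fin r → ℤ) → ℤ := fun δ => ∑ i, δ i * D.t K i with ha
  have hdev : ∀ δ ∈ I, |(a δ : ℝ) - ((∑ i, δ i : ℤ) : ℝ) * Y| ≤ η' * Y := by
    intro δ hδ
    refine (dev_bound D K δ).trans (le_trans ?_ hCY)
    exact mul_le_mul_of_nonneg_right (hCrle δ hδ) (by positivity)
  have hLe : ∀ δ ∈ J, D.L δ K = (a δ : ℝ) + (e : ℝ) * (D.α K - Real.eulerMascheroniConstant) := by
    intro δ hδ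
    have h1 := (Finset.mem_filter.1 hδ).2.1
    rw [L_eq, h1]
  have heC : |(e : ℝ)| ≤ Cr := by
    rw [← hδ₀e]
    exact (abs_sum_le δ₀).trans (hCrle δ₀ hδ₀I)
  -- the top part
  have htop : κ' * Real.exp ((e : ℝ) * Y - η' * Y) ≤
      |∑ δ ∈ J, (c' δ : ℝ) * Real.exp (D.L δ K)| := by
    have hJ1 : ∑ δ ∈ J, (c' δ : ℝ) * Real.exp (D.L δ K) =
        Real.exp ((e : ℝ) * (D.α K - Real.eulerMascheroniConstant)) *
        ∑ b ∈ J.image a, ((∑ δ ∈ J.filter (fun δ => a δ = b), c' δ : ℤ) : ℝ) *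
          Real.exp (b : ℝ) := by
      rw [← Finset.sum_fiberwise_of_maps_to (s := J) (t := J.image a) (g := a)
        (fun δ hδ => Finset.mem_image_of_mem a hδ), Finset.mul_sum]
      refine Finset.sum_congr rfl fun b _ => ?_
      rw [Int.cast_sum, Finset.sum_mul, Finset.mul_sum]
      refine Finset.sum_congr rfl fun δ hδ => ?_
      have h1 := (Finset.mem_filter.1 hδ).1
      have h2 := (Finset.mem_filter.1 hδ).2
      rw [hLe δ h1, h2, Real.exp_add]
      ring
    have hδ₀J : δ₀ ∈ J := Finset.mem_filter.2 ⟨hδ₀I, hδ₀e, hδ₀c⟩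
    have hlow' := hlow (J.image a) (fun b => ∑ δ ∈ J.filter (fun δ => a δ = b), c' δ)
      ⌈(e : ℝ) * Y - η' * Y⌉ (Finset.card_image_le.trans (Finset.card_filter_le _ _)) (by
        intro b _
        refine (Finset.abs_sum_le_sum_abs _ _).trans ?_
        rw [hH]
        push_cast
        have h1 : J.filter (fun δ => a δ = b) ⊆ I :=
          (Finset.filter_subset _ _).trans (Finset.filter_subset _ _)
        exact Finset.sum_le_sum_of_subset_of_nonneg h1 (fun δ _ _ => abs_nonneg _)) (by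
        intro b hb
        obtain ⟨δ, hδ, rfl⟩ := Finset.mem_image.1 hb
        rw [Int.ceil_le]
        have h1 := (Finset.mem_filter.1 hδ).1
        have h2 := (Finset.mem_filter.1 hδ).2.1
        have h3 := hdev δ h1
        rw [h2] at h3
        have h4 := (abs_le.1 h3).1
        linarith) ⟨a δ₀, Finset.mem_image_of_mem a hδ₀J, by
          have h1 : J.filter (fun δ => a δ = a δ₀) = {δ₀} := by
            ext δ
            rw [Finset.mem_filter, Finset.mem_singleton]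
            constructor
            · rintro ⟨h2, h3⟩
              by_contra hne
              exact hK2 δ (Finset.mem_filter.1 h2).1 hne (Finset.mem_filter.1 h2).2.1 h3
            · rintro rfl
              exact ⟨hδ₀J, rfl⟩
          rw [h1, Finset.sum_singleton]
          intro h2
          exact hδ₀c ((hc'0 δ₀ hδ₀I).1 h2)⟩
    rw [hJ1, abs_mul, abs_of_pos (Real.exp_pos _)]
    have h5 : Real.exp (-(Cr * g)) ≤
        Real.exp ((e : ℝ) * (D.α K - Real.eulerMascheroniConstant)) := by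
      refine Real.exp_le_exp.2 ?_
      have h6 : |(e : ℝ) * (D.α K - Real.eulerMascheroniConstant)| ≤ Cr * g := by
        rw [abs_mul]
        exact mul_le_mul heC (abs_alpha_le D K) (abs_nonneg _) hCr0
      exact (abs_le.1 h6).1
    have h6 : κ * Real.exp ((e : ℝ) * Y - η' * Y) ≤
        |∑ b ∈ J.image a, ((∑ δ ∈ J.filter (fun δ => a δ = b), c' δ : ℤ) : ℝ) *
          Real.exp (b : ℝ)| := by
      refine le_trans ?_ hlow'
      refine mul_le_mul_of_nonneg_left ?_ hκ.le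
      exact Real.exp_le_exp.2 (Int.le_ceil _)
    calc κ' * Real.exp ((e : ℝ) * Y - η' * Y)
        = Real.exp (-(Cr * g)) * (κ * Real.exp ((e : ℝ) * Y - η' * Y)) := by rw [hκ']; ring
      _ ≤ _ := mul_le_mul h5 h6 (by positivity) (Real.exp_pos _).le
  -- the lower part
  have hbot : |∑ δ ∈ J', (c' δ : ℝ) * Real.exp (D.L δ K)| ≤
      H' * Real.exp ((e : ℝ) * Y - 3 * η' * Y) := by
    calc |∑ δ ∈ J', (c' δ : ℝ) * Real.exp (D.L δ K)|
        ≤ ∑ δ ∈ J', |(c' δ : ℝ) * Real.exp (D.L δ K)| := Finset.abs_sum_le_sum_abs _ _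
      _ ≤ ∑ δ ∈ J', |(c' δ : ℝ)| * (Real.exp (Cr * g) * Real.exp ((e : ℝ) * Y - 3 * η' * Y)) := by
          refine Finset.sum_le_sum fun δ hδ => ?_
          have hδI := (Finset.mem_filter.1 hδ).1
          have hδn := (Finset.mem_filter.1 hδ).2
          rw [abs_mul, abs_of_pos (Real.exp_pos _)]
          by_cases h0 : c δ = 0
          · rw [(hc'0 δ hδI).2 h0]
            simp
          · refine mul_le_mul_of_nonneg_left ?_ (abs_nonneg _)
            rw [← Real.exp_add]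
            refine Real.exp_le_exp.2 ?_
            have h1 : ∑ i, δ i ≤ e - 1 := by
              have h2 := hle δ hδI h0
              have h3 : ∑ i, δ i ≠ e := fun h => hδn ⟨h, h0⟩
              omega
            have h1r : ((∑ i, δ i : ℤ) : ℝ) ≤ (e : ℝ) - 1 := by exact_mod_cast h1
            have h2 := (abs_le.1 (hdev δ hδI)).2
            have h3 : |((∑ i, δ i : ℤ) : ℝ) * (D.α K - Real.eulerMascheroniConstant)| ≤
                Cr * g := by
              rw [abs_mul]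
              exact mul_le_mul ((abs_sum_le δ).trans (hCrle δ hδI)) (abs_alpha_le D K)
                (abs_nonneg _) hCr0
            have h4 := (abs_le.1 h3).2
            have h5 := mul_le_mul_of_nonneg_right h1r hY0.le
            have h6 := mul_le_mul_of_nonneg_right hη'2 hY0.le
            rw [L_eq]
            change (a δ : ℝ) + _ ≤ _
            linarith
      _ ≤ H' * Real.exp ((e : ℝ) * Y - 3 * η' * Y) := by
          rw [← Finset.sum_mul, hH']
          have hsumH : ∑ δ ∈ J', |(c' δ : ℝ)| ≤ (H : ℝ) := by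
            have h7 : (H : ℝ) = ∑ δ ∈ I, |(c' δ : ℝ)| := by
              rw [hH, Nat.cast_sum]
              refine Finset.sum_congr rfl fun δ _ => ?_
              rw [Nat.cast_natAbs, Int.cast_abs]
            rw [h7]
            exact Finset.sum_le_sum_of_subset_of_nonneg (Finset.filter_subset _ _)
              (fun δ _ _ => abs_nonneg _)
          have h8 : (0 : ℝ) ≤ Real.exp (Cr * g) * Real.exp ((e : ℝ) * Y - 3 * η' * Y) := by
            positivity
          have h9 := mul_le_mul_of_nonneg_right hsumH h8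
          have h10 : (H : ℝ) * (Real.exp (Cr * g) * Real.exp ((e : ℝ) * Y - 3 * η' * Y)) =
              H * Real.exp (Cr * g) * Real.exp ((e : ℝ) * Y - 3 * η' * Y) := by ring
          rw [h10] at h9
          exact h9
  -- assembly
  have hsplit : (M : ℝ) * ∑ δ ∈ I, (c δ : ℝ) * Real.exp (D.L δ K) =
      ∑ δ ∈ J, (c' δ : ℝ) * Real.exp (D.L δ K) + ∑ δ ∈ J', (c' δ : ℝ) * Real.exp (D.L δ K) := by
    rw [hJ, hJ', Finset.sum_filter_add_sum_filter_not, Finset.mul_sum]
    refine Finset.sum_congr rfl fun δ hδ => ?_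
    rw [hc'r δ hδ]
    ring
  have hkey : (H' + M) * Real.exp (-(2 * η' * Y)) ≤ κ' := by
    have h1 : (H' + M) / κ' ≤ 2 * η' * Y := by
      rw [div_le_iff₀ (by positivity)] at hKb
      rw [div_le_iff₀ hκ'0]
      have h2 : (K : ℝ) * (2 * η' * κ') ≤ Y * (2 * η' * κ') :=
        mul_le_mul_of_nonneg_right (by linarith) (by positivity)
      linarith
    have h2 : (H' + M) / κ' ≤ Real.exp (2 * η' * Y) := by
      have := Real.add_one_le_exp (2 * η' * Y)
      linarith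
    rw [div_le_iff₀ hκ'0] at h2
    rw [Real.exp_neg, mul_inv_le_iff₀ (Real.exp_pos _)]
    linarith
  have h1 : (M : ℝ) * Real.exp (((e : ℝ) - η) * Y) ≤ M * Real.exp ((e : ℝ) * Y - 3 * η' * Y) := by
    refine mul_le_mul_of_nonneg_left (Real.exp_le_exp.2 ?_) hMr.le
    have := mul_le_mul_of_nonneg_right hη'1 hY0.le
    nlinarith
  have h2 : (H' + M) * Real.exp ((e : ℝ) * Y - 3 * η' * Y) ≤
      κ' * Real.exp ((e : ℝ) * Y - η' * Y) := by
    have h3 : Real.exp ((e : ℝ) * Y - 3 * η' * Y) =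
        Real.exp (-(2 * η' * Y)) * Real.exp ((e : ℝ) * Y - η' * Y) := by
      rw [← Real.exp_add]
      congr 1
      ring
    rw [h3, ← mul_assoc]
    exact mul_le_mul_of_nonneg_right hkey (Real.exp_pos _).le
  have h4 : (M : ℝ) * Real.exp (((e : ℝ) - η) * Y) ≤
      M * |∑ δ ∈ I, (c δ : ℝ) * Real.exp (D.L δ K)| := by
    have h5 : M * |∑ δ ∈ I, (c δ : ℝ) * Real.exp (D.L δ K)| =
        |(M : ℝ) * ∑ δ ∈ I, (c δ : ℝ) * Real.exp (D.L δ K)| := by
      rw [abs_mul, abs_of_pos hMr]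
    rw [h5, hsplit]
    have h6 := abs_sub_abs_le_abs_sub (∑ δ ∈ J, (c' δ : ℝ) * Real.exp (D.L δ K))
      (-∑ δ ∈ J', (c' δ : ℝ) * Real.exp (D.L δ K))
    rw [abs_neg, sub_neg_eq_add] at h6
    linarith
  exact le_of_mul_le_mul_left h4 hMr

end Pool.MP01f3ee
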