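import Mathlib
import Pool.Agent.Lib.MP_01f3ee_nt.Defs

set_option autoImplicit false

namespace Pool.MP01f3ee

open Finset MvPolynomial

namespace TY

variable {ι R : Type} [Fintype ι] [CommRing R] (O : ℤ → AddSubgroup R) (a b : ι → R) (s : ℤ)

/-- the conclusion of the Taylor statement -/
def Good (P : MvPolynomial ι ℤ) (D : ℤ) : Prop :=
  aeval a P ∈ O D ∧ aeval (a + b) P - aeval a P ∈ O (D - 1 + s) ∧
    aeval (a + b) P - aeval a P - ∑ i, aeval a (pderiv i P) * b i ∈ O (D - 2 + 2 * s)

theorem Good.mono {O : ℤ → AddSubgroup R} {a b : ι → R} {s : ℤ} (hO : Monotone O)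
    {P : MvPolynomial ι ℤ} {D D' : ℤ} (h : D ≤ D') (hP : Good O a b s P D) :
    Good O a b s P D' :=
  ⟨hO h hP.1, hO (by omega) hP.2.1, hO (by omega) hP.2.2⟩

theorem Good.add {O : ℤ → AddSubgroup R} {a b : ι → R} {s : ℤ}
    {P Q : MvPolynomial ι ℤ} {D : ℤ} (hP : Good O a b s P D) (hQ : Good O a b s Q D) :
    Good O a b s (P + Q) D := by
  refine ⟨?_, ?_, ?_⟩
  · rw [map_add]
    exact add_mem hP.1 hQ.1
  · have h := add_mem hP.2.1 hQ.2.1
    rw [map_add, map_add]
    convert h using 1
    ring
  · have h := add_mem hP.2.2 hQ.2.2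
    have e : ∑ i, aeval a (pderiv i (P + Q)) * b i =
        ∑ i, aeval a (pderiv i P) * b i + ∑ i, aeval a (pderiv i Q) * b i := by
      rw [← Finset.sum_add_distrib]
      refine Finset.sum_congr rfl fun i _ => ?_
      rw [map_add, map_add, add_mul]
    rw [e, map_add, map_add]
    convert h using 1
    ring

theorem Good.zero (D : ℤ) : Good O a b s (0 : MvPolynomial ι ℤ) D := by
  refine ⟨?_, ?_, ?_⟩ <;> simp [zero_mem]

theorem Good.C {O : ℤ → AddSubgroup R} (a b : ι → R) (s : ℤ) (h1 : (1 : R) ∈ O 0) (c : ℤ) :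
    Good O a b s (MvPolynomial.C c) 0 := by
  refine ⟨?_, ?_, ?_⟩
  · rw [aeval_C, Algebra.algebraMap_eq_smul_one]
    exact zsmul_mem h1 c
  · simp [zero_mem]
  · simp [zero_mem]

theorem Good.mul_X [DecidableEq ι] {O : ℤ → AddSubgroup R} {a b : ι → R} {s : ℤ} (hO : Monotone O)
    (hmul : ∀ {s t : ℤ} {a b : R}, a ∈ O s → b ∈ O t → a * b ∈ O (s + t)) (hs : s ≤ 1)
    (ha : ∀ i, a i ∈ O 1) (hb : ∀ i, b i ∈ O s) {P : MvPolynomial ι ℤ} {D : ℤ}
    (hP : Good O a b s P D) (j : ι) : Good O a b s (P * X j) (D + 1) := by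
  obtain ⟨h1, h2, h3⟩ := hP
  have hab : a j + b j ∈ O 1 := add_mem (ha j) (hO hs (hb j))
  refine ⟨?_, ?_, ?_⟩
  · rw [map_mul, aeval_X]
    exact hmul h1 (ha j)
  · rw [map_mul, map_mul, aeval_X, aeval_X, Pi.add_apply]
    have e : aeval (a + b) P * (a j + b j) - aeval a P * a j =
        (aeval (a + b) P - aeval a P) * (a j + b j) + aeval a P * b j := by ring
    rw [e]
    refine add_mem ?_ ?_
    · exact hO (by omega) (hmul h2 hab)
    · exact hO (by omega) (hmul h1 (hb j))
  · rw [map_mul, map_mul, aeval_X, aeval_X, Pi.add_apply]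
    have es : ∑ i, aeval a (pderiv i (P * X j)) * b i =
        (∑ i, aeval a (pderiv i P) * b i) * a j + aeval a P * b j := by
      have : ∀ i, aeval a (pderiv i (P * X j)) * b i =
          aeval a (pderiv i P) * b i * a j + (if i = j then aeval a P * b i else 0) := by
        intro i
        rw [Derivation.leibniz, pderiv_X, map_add, smul_eq_mul, smul_eq_mul, map_mul, map_mul,
          aeval_X]
        by_cases hij : i = j
        · subst hij
          simp only [Pi.single_eq_same, map_one, if_true]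
          ring
        · rw [Pi.single_eq_of_ne (Ne.symm hij), if_neg hij, map_zero]
          ring
      rw [Finset.sum_congr rfl fun i _ => this i, Finset.sum_add_distrib, Finset.sum_mul,
        Finset.sum_ite_eq' Finset.univ j, if_pos (Finset.mem_univ j)]
    rw [es]
    have e : aeval (a + b) P * (a j + b j) - aeval a P * a j -
        ((∑ i, aeval a (pderiv i P) * b i) * a j + aeval a P * b j) =
        (aeval (a + b) P - aeval a P - ∑ i, aeval a (pderiv i P) * b i) * a j
          + (aeval (a + b) P - aeval a P) * b j := by ring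
    rw [e]
    refine add_mem ?_ ?_
    · exact hO (by omega) (hmul h3 (ha j))
    · exact hO (by omega) (hmul h2 (hb j))

theorem Good.monomial [DecidableEq ι] {O : ℤ → AddSubgroup R} {a b : ι → R} {s : ℤ}
    (hO : Monotone O) (h1 : (1 : R) ∈ O 0)
    (hmul : ∀ {s t : ℤ} {a b : R}, a ∈ O s → b ∈ O t → a * b ∈ O (s + t)) (hs : s ≤ 1)
    (ha : ∀ i, a i ∈ O 1) (hb : ∀ i, b i ∈ O s) (c : ℤ) :
    ∀ (n : ℕ) (d : ι →₀ ℕ), d.degree = n → Good O a b s (MvPolynomial.monomial d c) (n : ℤ) := by
  intro n
  induction n with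
  | zero =>
    intro d hd
    have : d = 0 := (Finsupp.degree_eq_zero_iff d).1 hd
    subst this
    simpa using Good.C a b s h1 c
  | succ n ih =>
    intro d hd
    have hne : d ≠ 0 := by
      rintro rfl
      simp at hd
    obtain ⟨j, hj⟩ : ∃ j, d j ≠ 0 := by
      by_contra h
      push Not at h
      exact hne (Finsupp.ext h)
    have hle : Finsupp.single j 1 ≤ d := by
      rw [Finsupp.single_le_iff]
      omega
    have hdec : d = (d - Finsupp.single j 1) + Finsupp.single j 1 := (tsub_add_cancel_of_le hle).symm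
    have hdeg : (d - Finsupp.single j 1).degree = n := by
      have h2 : d.degree = (d - Finsupp.single j 1).degree + (Finsupp.single j 1).degree := by
        conv_lhs => rw [hdec]
        exact map_add _ _ _
      rw [Finsupp.degree_single] at h2
      omega
    have hm := Good.mul_X hO hmul hs ha hb (ih _ hdeg) j
    have e : MvPolynomial.monomial (d - Finsupp.single j 1) c * X j =
        MvPolynomial.monomial d c := by
      rw [X, monomial_mul, mul_one, tsub_add_cancel_of_le hle]
    rw [e] at hm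
    push_cast
    exact hm

end TY

theorem taylor_stmt : TaylorStmt := by
  intro ι R _ _ _ O hO h1 hmul a b s hs ha hb P D hP
  suffices h : TY.Good O a b s P (D : ℤ) from h
  rw [P.as_sum]
  refine Finset.sum_induction _ (fun Q => TY.Good O a b s Q (D : ℤ)) (fun _ _ => TY.Good.add)
    (TY.Good.zero O a b s D) ?_
  intro d hd
  refine (TY.Good.monomial hO h1 hmul hs ha hb _ _ d rfl).mono hO ?_
  have h2 := le_totalDegree hd
  have h3 : d.degree ≤ D := by
    rw [Finsupp.degree_eq_sum]
    rw [Finsupp.sum_fintype _ _ (fun _ => rfl)] at h2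
    exact h2.trans hP
  exact_mod_cast h3

end Pool.MP01f3ee
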