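import Mathlib
import Pool.Agent.Lib.MP_01f3ee_nt.Defs

set_option autoImplicit false

namespace Pool.MP01f3ee

open Finset Polynomial

namespace Trans

/-- Hermite's argument: a nonzero constant coefficient excludes a relation. -/
theorem aux (Q : Polynomial ℤ) (h0 : Q.coeff 0 ≠ 0) : Polynomial.aeval (Real.exp 1) Q ≠ 0 := by
  intro hQ
  set m : ℕ := Q.natDegree with hm
  set f : Polynomial ℤ := ∏ k ∈ range m, (X - C ((k : ℤ) + 1)) with hf
  have hf0 : f.eval 0 ≠ 0 := by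
    rw [hf, eval_prod, Finset.prod_ne_zero_iff]
    intro k _
    rw [eval_sub, eval_X, eval_C]
    have : (0 : ℤ) ≤ k := Int.natCast_nonneg k
    omega
  have hfne : f ≠ 0 := by
    intro h
    rw [h, eval_zero] at hf0
    exact hf0 rfl
  have hroot : ∀ k, k < m → (((k : ℤ) + 1 : ℤ) : ℂ) ∈ f.aroots ℂ := by
    intro k hk
    rw [mem_aroots]
    refine ⟨hfne, ?_⟩
    rw [hf, map_prod]
    refine Finset.prod_eq_zero (Finset.mem_range.2 hk) ?_
    rw [map_sub, aeval_X, aeval_C]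
    simp
  obtain ⟨c, hc⟩ := LindemannWeierstrass.exp_polynomial_approx f hf0
  -- the choice of the prime
  set A : ℝ := ∑ k ∈ range m, |(Q.coeff (k + 1) : ℝ)| with hA
  have hA0 : 0 ≤ A := Finset.sum_nonneg fun _ _ => abs_nonneg _
  have hlim : Filter.Tendsto (fun q : ℕ => A * (|c| * (|c| ^ q / (q.factorial : ℝ)))) Filter.atTop
      (nhds (A * (|c| * 0))) :=
    ((FloorSemiring.tendsto_pow_div_factorial_atTop |c|).const_mul _).const_mul _
  rw [mul_zero, mul_zero] at hlim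
  have hev : ∀ᶠ q : ℕ in Filter.atTop, A * (|c| * (|c| ^ q / (q.factorial : ℝ))) < 1 :=
    hlim.eventually (gt_mem_nhds one_pos)
  obtain ⟨q₀, hq₀⟩ := Filter.eventually_atTop.1 hev
  obtain ⟨p, hp1, hpp⟩ := Nat.exists_infinite_primes
    (q₀ + (eval 0 f).natAbs + (Q.coeff 0).natAbs + 2)
  have hsmall : A * (|c| ^ p / ((p - 1).factorial : ℝ)) < 1 := by
    have h1 := hq₀ (p - 1) (by omega)
    have h2 : |c| ^ p = |c| * |c| ^ (p - 1) := by
      rw [← pow_succ']
      congr 1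
      omega
    rw [h2, mul_div_assoc]
    exact h1
  obtain ⟨n, hn, gp, -, hgp⟩ := hc p (by omega) hpp
  -- the relation over `ℂ`
  have hrel : ∑ k ∈ range (m + 1), ((Q.coeff k : ℤ) : ℂ) * Complex.exp (k : ℂ) = 0 := by
    have h1 : ∑ k ∈ range (m + 1), ((Q.coeff k : ℤ) : ℝ) * (Real.exp 1) ^ k = 0 := by
      rw [← hQ, aeval_eq_sum_range]
      refine Finset.sum_congr rfl fun k _ => ?_
      rw [zsmul_eq_mul]
    have h2 := congrArg (fun r : ℝ => (r : ℂ)) h1
    simp only [Complex.ofReal_sum, Complex.ofReal_mul, Complex.ofReal_pow, Complex.ofReal_intCast,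
      Complex.ofReal_zero, Complex.ofReal_exp, Complex.ofReal_one] at h2
    rw [← h2]
    refine Finset.sum_congr rfl fun k _ => ?_
    rw [← Complex.exp_nat_mul, mul_one]
  -- the integer
  set Z : ℤ := n * Q.coeff 0 + p * ∑ k ∈ range m, Q.coeff (k + 1) * gp.eval ((k : ℤ) + 1) with hZ
  have hZeq : (Z : ℂ) = -∑ k ∈ range m, ((Q.coeff (k + 1) : ℤ) : ℂ) *
      (n • Complex.exp (((k : ℤ) + 1 : ℤ) : ℂ) - p • aeval (((k : ℤ) + 1 : ℤ) : ℂ) gp) := by
    rw [Finset.sum_range_succ'] at hrel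
    have h1 : ∀ k : ℕ, aeval (((k : ℤ) + 1 : ℤ) : ℂ) gp = ((gp.eval ((k : ℤ) + 1) : ℤ) : ℂ) := by
      intro k
      have := Polynomial.aeval_algebraMap_apply ℂ ((k : ℤ) + 1) gp
      simpa using this
    have h2 : ∑ k ∈ range m, ((Q.coeff (k + 1) : ℤ) : ℂ) *
        (n • Complex.exp (((k : ℤ) + 1 : ℤ) : ℂ) - p • aeval (((k : ℤ) + 1 : ℤ) : ℂ) gp) =
        n * ∑ k ∈ range m, ((Q.coeff (k + 1) : ℤ) : ℂ) * Complex.exp ((k + 1 : ℕ) : ℂ) -
        p * ∑ k ∈ range m, ((Q.coeff (k + 1) : ℤ) : ℂ) * ((gp.eval ((k : ℤ) + 1) : ℤ) : ℂ) := by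
      rw [Finset.mul_sum, Finset.mul_sum, ← Finset.sum_sub_distrib]
      refine Finset.sum_congr rfl fun k _ => ?_
      rw [h1 k, zsmul_eq_mul, nsmul_eq_mul]
      push_cast
      ring
    rw [h2]
    have h3 : ∑ k ∈ range m, ((Q.coeff (k + 1) : ℤ) : ℂ) * Complex.exp ((k + 1 : ℕ) : ℂ) =
        -((Q.coeff 0 : ℤ) : ℂ) := by
      simp only [Nat.cast_zero, Complex.exp_zero, mul_one] at hrel
      linear_combination hrel
    rw [h3, hZ]
    push_cast
    ring
  have hZlt : ‖(Z : ℂ)‖ < 1 := by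
    rw [hZeq, norm_neg]
    refine lt_of_le_of_lt (norm_sum_le _ _) ?_
    refine lt_of_le_of_lt ?_ hsmall
    rw [hA, Finset.sum_mul]
    refine Finset.sum_le_sum fun k hk => ?_
    rw [norm_mul]
    refine mul_le_mul ?_ ?_ (norm_nonneg _) (abs_nonneg _)
    · rw [Complex.norm_intCast]
    · refine (hgp (hroot k (Finset.mem_range.1 hk))).trans ?_
      refine div_le_div_of_nonneg_right ?_ (by positivity)
      calc c ^ p ≤ |c ^ p| := le_abs_self _
        _ = |c| ^ p := abs_pow _ _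
  have hZ0 : Z = 0 := by
    rw [Complex.norm_intCast] at hZlt
    have : |Z| < 1 := by exact_mod_cast hZlt
    exact Int.abs_lt_one_iff.1 this
  have hdvd : (p : ℤ) ∣ n * Q.coeff 0 := by
    have h1 : n * Q.coeff 0 = -(p * ∑ k ∈ range m, Q.coeff (k + 1) * gp.eval ((k : ℤ) + 1)) := by
      rw [hZ] at hZ0
      linarith
    rw [h1]
    exact (dvd_mul_right _ _).neg_right
  have hpr : Prime (p : ℤ) := Nat.prime_iff_prime_int.1 hpp
  rcases hpr.dvd_or_dvd hdvd with h | h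
  · exact hn h
  · have h1 := Int.natCast_dvd.1 h
    have h2 := Nat.le_of_dvd (Int.natAbs_pos.2 h0) h1
    omega

end Trans

theorem trans_stmt : TransStmt := by
  intro P hP hPe
  obtain ⟨Q, hQ, hnd⟩ := Polynomial.exists_eq_pow_rootMultiplicity_mul_and_not_dvd P hP 0
  rw [map_zero, sub_zero] at hQ hnd
  have h0 : Q.coeff 0 ≠ 0 := by
    intro h
    exact hnd (Polynomial.X_dvd_iff.2 h)
  refine Trans.aux Q h0 ?_
  rw [hQ, map_mul, map_pow, aeval_X] at hPe
  rcases mul_eq_zero.1 hPe with h | h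
  · exact absurd h (pow_ne_zero _ (Real.exp_ne_zero 1))
  · exact h

end Pool.MP01f3ee
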