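import Mathlib
import Pool.Agent.Lib.MP_01f3ee_nt.Defs
import Pool.Agent.Lib.MP_01f3ee_nt.Phi
import Pool.Agent.Lib.MP_01f3ee_nt.Asym1
import Pool.Agent.Lib.MP_01f3ee_nt.Asym2
import Pool.Agent.Lib.MP_01f3ee_nt.Trans
import Pool.Agent.Lib.MP_01f3ee_nt.Lower
import Pool.Agent.Lib.MP_01f3ee_nt.Taylor
import Pool.Agent.Lib.MP_01f3ee_nt.AlgD
import Pool.Agent.Lib.MP_01f3ee_nt.AlgP
import Pool.Agent.Lib.MP_01f3ee_nt.SeqLt
import Pool.Agent.Lib.MP_01f3ee_nt.SeqApx
import Pool.Agent.Lib.MP_01f3ee_nt.Window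
import Pool.Agent.Lib.MP_01f3ee_nt.Near
import Pool.Agent.Lib.MP_01f3ee_nt.Exc
import Pool.Agent.Lib.MP_01f3ee_nt.Core

set_option autoImplicit false

namespace Pool.MP01f3ee

open Finset

theorem core : CoreStmt :=
  core_stmt phi_stmt asym1_stmt asym2_stmt (algD_stmt taylor_stmt) (algP_stmt taylor_stmt)
    (seqLt_stmt (lower_stmt trans_stmt)) seqUp_stmt seqApx_stmt

/-- Near integers, any shift. -/
theorem near_any (ε : ℝ) (hε : 0 < ε) : ∃ (K : ℕ) (C : ℝ), ∀ α : ℝ, ∀ x : ℕ, 2 ≤ x →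
    (({n : ℕ | 1 ≤ n ∧ n ≤ x ∧ ∃ T : ℤ, |(harmonic n : ℝ) - α - T| ≤ 1 / (n : ℝ) ^ K} :
      Set ℕ).ncard : ℝ) ≤ C * Real.log x ^ ε := by
  obtain ⟨K, C, h⟩ := near_stmt core window_stmt ε hε
  refine ⟨K, C, fun α x hx => ?_⟩
  have h1 := h (Int.fract α) (Int.fract_nonneg α) (Int.fract_lt_one α).le x hx
  have h2 : {n : ℕ | 1 ≤ n ∧ n ≤ x ∧ ∃ T : ℤ, |(harmonic n : ℝ) - α - T| ≤ 1 / (n : ℝ) ^ K} =
      {n : ℕ | 1 ≤ n ∧ n ≤ x ∧
        ∃ T : ℤ, |(harmonic n : ℝ) - Int.fract α - T| ≤ 1 / (n : ℝ) ^ K} := by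
    ext n
    constructor
    · rintro ⟨a, b, T, hT⟩
      refine ⟨a, b, T + ⌊α⌋, ?_⟩
      have h3 : (harmonic n : ℝ) - Int.fract α - ((T + ⌊α⌋ : ℤ) : ℝ) =
          (harmonic n : ℝ) - α - T := by
        push_cast [Int.fract]
        ring
      rw [h3]
      exact hT
    · rintro ⟨a, b, T, hT⟩
      refine ⟨a, b, T - ⌊α⌋, ?_⟩
      have h3 : (harmonic n : ℝ) - α - ((T - ⌊α⌋ : ℤ) : ℝ) =
          (harmonic n : ℝ) - Int.fract α - T := by
        push_cast [Int.fract]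
        ring
      rw [h3]
      exact hT
  rw [h2]
  exact h1

/-- The count of exceptional integers. -/
theorem exceptional_count (ε : ℝ) (hε : 0 < ε) : ∃ C : ℝ, ∀ x : ℕ, 2 ≤ x →
    (({n : ℕ | n ≤ x ∧ Exceptional n} : Set ℕ).ncard : ℝ) ≤ C * Real.log x ^ ε := by
  obtain ⟨K, C, h⟩ := near_any ε hε
  obtain ⟨N, hN⟩ := exc_stmt K
  refine ⟨N / Real.log 2 ^ ε + C, fun x hx => ?_⟩
  have h1 := h 0 x hx
  have hlog : 0 < Real.log 2 := Real.log_pos (by norm_num)
  have hlx : Real.log 2 ≤ Real.log x :=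
    Real.log_le_log (by norm_num) (by exact_mod_cast hx)
  have hp : (1 : ℝ) ≤ Real.log x ^ ε / Real.log 2 ^ ε := by
    rw [one_le_div (Real.rpow_pos_of_pos hlog ε)]
    exact Real.rpow_le_rpow hlog.le hlx hε.le
  have hsub : ({n : ℕ | n ≤ x ∧ Exceptional n} : Set ℕ) ⊆
      (Set.Iio N) ∪ {n : ℕ | 1 ≤ n ∧ n ≤ x ∧
        ∃ T : ℤ, |(harmonic n : ℝ) - 0 - T| ≤ 1 / (n : ℝ) ^ K} := by
    rintro n ⟨hnx, hn⟩
    by_cases hnN : n < N
    · exact Or.inl hnN
    · right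
      exact ⟨by have := hn.1; omega, hnx, hN n (not_lt.1 hnN) hn⟩
  have hfin : ({n : ℕ | 1 ≤ n ∧ n ≤ x ∧
        ∃ T : ℤ, |(harmonic n : ℝ) - 0 - T| ≤ 1 / (n : ℝ) ^ K} : Set ℕ).Finite :=
    (Set.finite_Iic x).subset (fun n hn => hn.2.1)
  have h2 := Set.ncard_le_ncard hsub ((Set.finite_Iio N).union hfin)
  have h3 := h2.trans (Set.ncard_union_le _ _)
  have h4 : (Set.Iio N : Set ℕ).ncard = N := by
    rw [show (Set.Iio N : Set ℕ) = ((Finset.range N : Finset ℕ) : Set ℕ) by ext; simp,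
      Set.ncard_coe_finset, Finset.card_range]
  rw [h4] at h3
  have h5 : (({n : ℕ | n ≤ x ∧ Exceptional n} : Set ℕ).ncard : ℝ) ≤
      N + (({n : ℕ | 1 ≤ n ∧ n ≤ x ∧
        ∃ T : ℤ, |(harmonic n : ℝ) - 0 - T| ≤ 1 / (n : ℝ) ^ K} : Set ℕ).ncard : ℝ) := by
    exact_mod_cast h3
  have h6 : (N : ℝ) ≤ N / Real.log 2 ^ ε * Real.log x ^ ε := by
    calc (N : ℝ) = N * 1 := (mul_one _).symm
      _ ≤ N * (Real.log x ^ ε / Real.log 2 ^ ε) := by gcongr
      _ = _ := by ring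
  calc _ ≤ _ := h5
    _ ≤ N / Real.log 2 ^ ε * Real.log x ^ ε + C * Real.log x ^ ε := add_le_add h6 h1
    _ = _ := by ring

/-- Distinct near-integers have distinct integer parts. -/
theorem harm_lt {n m : ℕ} (h : n < m) : (harmonic n : ℝ) + 1 / ((n : ℝ) + 1) ≤ harmonic m := by
  have h1 : harmonic (n + 1) ≤ harmonic m := by
    rw [harmonic, harmonic]
    apply Finset.sum_le_sum_of_subset_of_nonneg
    · intro i hi
      rw [Finset.mem_range] at hi ⊢
      omega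
    · intro i _ _
      positivity
  have h2 : ((harmonic (n + 1) : ℚ) : ℝ) ≤ harmonic m := by exact_mod_cast h1
  rw [harmonic_succ] at h2
  push_cast at h2
  rw [one_div]
  exact h2

theorem T_inj {n m : ℕ} (hn : 3 ≤ n) (h : n < m) {T : ℤ}
    (h1 : |(harmonic n : ℝ) - T| ≤ 1 / (n : ℝ) ^ 2) (h2 : |(harmonic m : ℝ) - T| ≤ 1 / (m : ℝ) ^ 2) :
    False := by
  have h3 := harm_lt h
  have h4 := (abs_le.1 h1).1
  have h5 := (abs_le.1 h2).2
  have hn3 : (3 : ℝ) ≤ n := by exact_mod_cast hn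
  have hm : (n : ℝ) ≤ m := by exact_mod_cast h.le
  have h6 : 1 / (m : ℝ) ^ 2 ≤ 1 / (n : ℝ) ^ 2 := by
    apply one_div_le_one_div_of_le (by positivity)
    gcongr
  have h7 : 1 / ((n : ℝ) + 1) ≤ 2 / (n : ℝ) ^ 2 := by
    have : 2 / (n : ℝ) ^ 2 = 1 / (n : ℝ) ^ 2 + 1 / (n : ℝ) ^ 2 := by ring
    rw [this]
    linarith
  rw [div_le_div_iff₀ (by positivity) (by positivity)] at h7
  nlinarith

/-- The structure theorem. -/
theorem structure_thm (r : ℕ) (ρ : Fin r → ℤ) (hρ : ∃ i, ρ i ≠ 0) (hsum : ∑ i, ρ i = 0) :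
    ∃ K : ℕ, 1 ≤ K ∧ ∀ (n : Fin r → ℕ) (T : Fin r → ℤ), (∀ i, K ≤ n i) →
      (∀ i, Exceptional (n i)) → (∀ i, |(harmonic (n i) : ℝ) - T i| ≤ 1 / 2) →
      Function.Injective n →
      (∀ i j, Real.log (n i) ≤ (1 + 1 / (K : ℝ)) * Real.log (n j)) → ∑ i, ρ i * T i ≠ 0 := by
  obtain ⟨K0, hK0, hcore⟩ := core r ρ hρ hsum
  obtain ⟨N, hN⟩ := exc_stmt (max K0 2)
  obtain ⟨M, hM⟩ := exists_nat_gt (Real.exp (6 * K0 + 1))
  refine ⟨N + 3 + 2 * K0 + M, by omega, fun n T hn hexc hT hinj hlog => ?_⟩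
  set K : ℕ := N + 3 + 2 * K0 + M with hK
  have hK0r : (1 : ℝ) ≤ K0 := by exact_mod_cast hK0
  -- closeness
  have hclose : ∀ i, |(harmonic (n i) : ℝ) - T i| ≤ 1 / (n i : ℝ) ^ (max K0 2) := by
    intro i
    obtain ⟨T', hT'⟩ := hN (n i) (by have := hn i; omega) (hexc i)
    rw [sub_zero] at hT'
    have hn3 : (3 : ℝ) ≤ n i := by
      have : 3 ≤ n i := by have := hn i; omega
      exact_mod_cast this
    have h1 : 1 / (n i : ℝ) ^ (max K0 2) ≤ 1 / 3 := by
      apply one_div_le_one_div_of_le (by norm_num)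
      calc (3 : ℝ) ≤ n i := hn3
        _ = (n i : ℝ) ^ 1 := (pow_one _).symm
        _ ≤ (n i : ℝ) ^ (max K0 2) := by
          apply pow_le_pow_right₀ (by linarith)
          have := le_max_right K0 2
          omega
    have h2 : |((T i - T' : ℤ) : ℝ)| < 1 := by
      have h3 : ((T i - T' : ℤ) : ℝ) = ((harmonic (n i) : ℝ) - T') - ((harmonic (n i) : ℝ) - T i) := by
        push_cast; ring
      rw [h3]
      have := abs_sub ((harmonic (n i) : ℝ) - T') ((harmonic (n i) : ℝ) - T i)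
      have := hT i
      linarith
    rw [← Int.cast_abs] at h2
    have h4 : |T i - T'| < 1 := by exact_mod_cast h2
    rw [Int.abs_lt_one_iff] at h4
    have h5 : T i = T' := by omega
    rw [h5]
    exact hT'
  have hn1 : ∀ i, (1 : ℝ) ≤ n i := by
    intro i
    have : 1 ≤ n i := by have := hn i; omega
    exact_mod_cast this
  have hclose2 : ∀ i, |(harmonic (n i) : ℝ) - T i| ≤ 1 / (n i : ℝ) ^ 2 := by
    intro i
    refine (hclose i).trans ?_
    apply one_div_le_one_div_of_le (by have := hn1 i; positivity)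
    exact pow_le_pow_right₀ (hn1 i) (le_max_right _ _)
  have hcloseK : ∀ i, |(harmonic (n i) : ℝ) - T i| ≤ 1 / (n i : ℝ) ^ K0 := by
    intro i
    refine (hclose i).trans ?_
    apply one_div_le_one_div_of_le (by have := hn1 i; positivity)
    exact pow_le_pow_right₀ (hn1 i) (le_max_left _ _)
  have hTinj : Function.Injective T := by
    intro i j hij
    by_contra hne
    have hnn : n i ≠ n j := fun h => hne (hinj h)
    rcases lt_or_gt_of_ne hnn with h | h
    · exact T_inj (by have := hn i; omega) h (hclose2 i) (by rw [hij]; exact hclose2 j)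
    · exact T_inj (by have := hn j; omega) h (hclose2 j) (by rw [← hij]; exact hclose2 i)
  -- sizes
  have hup : ∀ i, (T i : ℝ) ≤ Real.log (n i) + 3 / 2 := by
    intro i
    have h1 := harmonic_le_one_add_log (n i)
    have h2 := (abs_le.1 (hT i)).1
    linarith
  have hlow : ∀ i, Real.log (n i) - 1 / 2 ≤ T i := by
    intro i
    have h1 := log_add_one_le_harmonic (n i)
    have h2 := (abs_le.1 (hT i)).2
    have h3 : Real.log (n i) ≤ Real.log ((n i : ℕ) + 1 : ℕ) := by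
      apply Real.log_le_log (by have := hn1 i; linarith)
      push_cast
      linarith
    linarith
  obtain ⟨i0, _⟩ := hρ
  obtain ⟨j, _, hj⟩ := Finset.exists_min_image Finset.univ T ⟨i0, Finset.mem_univ _⟩
  have hlogj : 6 * (K0 : ℝ) + 1 ≤ Real.log (n j) := by
    rw [Real.le_log_iff_exp_le (by have := hn1 j; linarith)]
    refine hM.le.trans ?_
    have : M ≤ n j := by have := hn j; omega
    exact_mod_cast this
  have hTj : 6 * (K0 : ℝ) ≤ T j := by
    have := hlow j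
    linarith
  apply hcore 0 (T j) T n le_rfl zero_le_one (by linarith) hTinj
  · intro i
    exact_mod_cast hj i (Finset.mem_univ _)
  · intro i
    have hKr : (2 : ℝ) * K0 ≤ K := by
      have : 2 * K0 ≤ K := by omega
      exact_mod_cast this
    have h1 : 1 / (K : ℝ) ≤ 1 / (2 * K0) := one_div_le_one_div_of_le (by linarith) hKr
    have h2 := hlog i j
    have h3 := hup i
    have h4 := hlow j
    have h5 : Real.log (n j) ≤ T j + 1 / 2 := by linarith
    have hlj : 0 ≤ Real.log (n j) := Real.log_nonneg (hn1 j)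
    have h6 : (1 + 1 / (K : ℝ)) * Real.log (n j) ≤ (1 + 1 / (2 * K0)) * (T j + 1 / 2) := by
      apply mul_le_mul (by linarith) h5 hlj
      positivity
    have h7 : (1 : ℝ) / (2 * K0) ≤ 1 / 2 := by
      apply one_div_le_one_div_of_le (by norm_num)
      linarith
    have h8 : (3 : ℝ) ≤ 1 / (2 * K0) * T j := by
      rw [one_div, inv_mul_eq_div, le_div_iff₀ (by linarith)]
      linarith
    have h9 : (1 : ℝ) / K0 = 1 / (2 * K0) + 1 / (2 * K0) := by
      field_simp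
      norm_num
    rw [h9]
    nlinarith
  · intro i
    have := hn i
    omega
  · intro i
    rw [sub_zero]
    exact hcloseK i

/-- The nearest integer of `H_n` for a large exceptional `n`. -/
theorem exists_T : ∃ N : ℕ, 3 ≤ N ∧ ∀ n : ℕ, N ≤ n → Exceptional n →
    ∃ T : ℤ, |(harmonic n : ℝ) - T| ≤ 1 / (n : ℝ) ^ 2 := by
  obtain ⟨N, hN⟩ := exc_stmt 2
  refine ⟨N + 3, by omega, fun n hn he => ?_⟩
  obtain ⟨T, hT⟩ := hN n (by omega) he
  rw [sub_zero] at hT
  exact ⟨T, hT⟩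

/-- No three exceptional integers with bounded ratios. -/
theorem no_three (L : ℕ) : ∃ N : ℕ, ∀ n₁ n₂ n₃ : ℕ, N ≤ n₁ → n₁ < n₂ → n₂ < n₃ → n₃ ≤ L * n₁ →
    Exceptional n₁ → Exceptional n₂ → Exceptional n₃ → False := by
  classical
  -- bound for the difference of the integer parts
  set V : ℕ := L + 3 with hV
  -- the relations
  set rel : ℕ → ℕ → Fin 3 → ℤ := fun a b => ![(b : ℤ) - a, -(b : ℤ), (a : ℤ)] with hrel
  have hK : ∀ ab : ℕ × ℕ, ∃ K : ℕ, 1 ≤ K ∧ (1 ≤ ab.1 → ∀ (n : Fin 3 → ℕ) (T : Fin 3 → ℤ),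
      (∀ i, K ≤ n i) → (∀ i, Exceptional (n i)) →
      (∀ i, |(harmonic (n i) : ℝ) - T i| ≤ 1 / 2) → Function.Injective n →
      (∀ i j, Real.log (n i) ≤ (1 + 1 / (K : ℝ)) * Real.log (n j)) →
      ∑ i, rel ab.1 ab.2 i * T i ≠ 0) := by
    rintro ⟨a, b⟩
    by_cases ha : 1 ≤ a
    · obtain ⟨K, hK1, hK2⟩ := structure_thm 3 (rel a b) ⟨2, by
        simp only [hrel]
        simp
        omega⟩ (by
        simp only [hrel, Fin.sum_univ_three]
        simp
        ring)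
      exact ⟨K, hK1, fun _ => hK2⟩
    · exact ⟨1, le_rfl, fun h => absurd h ha⟩
  choose Kf hKf1 hKf2 using hK
  set Km : ℕ := ∑ a ∈ range (V + 1), ∑ b ∈ range (V + 1), Kf (a, b) with hKm
  have hKle : ∀ a b, a ≤ V → b ≤ V → Kf (a, b) ≤ Km := by
    intro a b ha hb
    have h1 : Kf (a, b) ≤ ∑ b ∈ range (V + 1), Kf (a, b) :=
      Finset.single_le_sum (f := fun b => Kf (a, b)) (fun _ _ => Nat.zero_le _)
        (Finset.mem_range.2 (by omega))
    have h2 : ∑ b ∈ range (V + 1), Kf (a, b) ≤ Km :=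
      Finset.single_le_sum (f := fun a => ∑ b ∈ range (V + 1), Kf (a, b))
        (fun _ _ => Nat.zero_le _) (Finset.mem_range.2 (by omega))
    exact h1.trans h2
  obtain ⟨N0, hN03, hN0⟩ := exists_T
  obtain ⟨M, hM⟩ := exists_nat_gt (Real.exp (Km * Real.log (L + 1)))
  refine ⟨N0 + Km + M, fun n₁ n₂ n₃ h1 h12 h23 h3 e1 e2 e3 => ?_⟩
  obtain ⟨T₁, hT₁⟩ := hN0 n₁ (by omega) e1
  obtain ⟨T₂, hT₂⟩ := hN0 n₂ (by omega) e2
  obtain ⟨T₃, hT₃⟩ := hN0 n₃ (by omega) e3
  have small : ∀ n : ℕ, 3 ≤ n → 1 / (n : ℝ) ^ 2 ≤ 1 / 4 := by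
    intro n hn
    have hn3 : (3 : ℝ) ≤ n := by exact_mod_cast hn
    apply one_div_le_one_div_of_le (by norm_num)
    nlinarith
  have s1 := small n₁ (by omega)
  have s2 := small n₂ (by omega)
  have s3 := small n₃ (by omega)
  -- monotonicity
  have mono : ∀ (n m : ℕ) (S T : ℤ), 3 ≤ n → n < m → |(harmonic n : ℝ) - S| ≤ 1 / (n : ℝ) ^ 2 →
      |(harmonic m : ℝ) - T| ≤ 1 / (m : ℝ) ^ 2 → S < T := by
    intro n m S T hn hnm hS hT
    have h4 := harm_lt hnm
    have h5 : (0 : ℝ) ≤ 1 / ((n : ℝ) + 1) := by positivity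
    have h6 := (abs_le.1 hS).1
    have h6' := (abs_le.1 hS).2
    have h7 := (abs_le.1 hT).1
    have h7' := (abs_le.1 hT).2
    have h8 := small n hn
    have h9 := small m (by omega)
    have h10 : (S : ℝ) - 1 < T := by linarith
    have h11 : S - 1 < T := by exact_mod_cast h10
    rcases lt_or_eq_of_le (show S ≤ T by omega) with h | h
    · exact h
    · exact absurd (T_inj hn hnm hS (by rw [h]; exact hT)) not_false
  have m12 := mono n₁ n₂ T₁ T₂ (by omega) h12 hT₁ hT₂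
  have m23 := mono n₂ n₃ T₂ T₃ (by omega) h23 hT₂ hT₃
  -- the difference is bounded
  have hn1pos : (0 : ℝ) < n₁ := by
    have : 0 < n₁ := by omega
    exact_mod_cast this
  have hn1le : (1 : ℝ) ≤ n₁ := by
    have : 1 ≤ n₁ := by omega
    exact_mod_cast this
  have hn3le : (n₃ : ℝ) ≤ L * n₁ := by exact_mod_cast h3
  have hL1 : 1 ≤ L := by
    rcases Nat.eq_zero_or_pos L with h | h
    · rw [h] at h3; omega
    · exact h
  have hL1r : (1 : ℝ) ≤ L := by exact_mod_cast hL1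
  have hlogL : Real.log n₃ ≤ Real.log (L + 1) + Real.log n₁ := by
    rw [← Real.log_mul (by positivity) hn1pos.ne']
    apply Real.log_le_log
    · have : 0 < n₃ := by omega
      exact_mod_cast this
    · nlinarith
  have hlogL2 : Real.log ((L : ℝ) + 1) ≤ L := by
    have := Real.log_le_sub_one_of_pos (show (0 : ℝ) < (L : ℝ) + 1 by positivity)
    linarith
  have hlogL0 : 0 ≤ Real.log ((L : ℝ) + 1) := Real.log_nonneg (by linarith)
  have hdiff : T₃ - T₁ ≤ V := by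
    have h4 := harmonic_le_one_add_log n₃
    have h5 := log_add_one_le_harmonic n₁
    have h6 : Real.log (n₁ : ℝ) ≤ Real.log ((n₁ : ℕ) + 1 : ℕ) := by
      apply Real.log_le_log hn1pos
      push_cast
      linarith
    have h7 := (abs_le.1 hT₃).1
    have h8 := (abs_le.1 hT₁).2
    have h9 : ((T₃ - T₁ : ℤ) : ℝ) ≤ ((V : ℤ) : ℝ) := by
      rw [hV]
      push_cast
      linarith
    exact_mod_cast h9
  -- apply the structure theorem
  obtain ⟨a, ha⟩ : ∃ a : ℕ, T₂ - T₁ = a := ⟨(T₂ - T₁).toNat, by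
    rw [Int.toNat_of_nonneg (by omega)]⟩
  obtain ⟨b, hb⟩ : ∃ b : ℕ, T₃ - T₁ = b := ⟨(T₃ - T₁).toNat, by
    rw [Int.toNat_of_nonneg (by omega)]⟩
  have ha1 : 1 ≤ a := by omega
  have haV : a ≤ V := by omega
  have hbV : b ≤ V := by omega
  have hKab := hKle a b haV hbV
  have hKpos := hKf1 (a, b)
  have hKr : (1 : ℝ) ≤ Kf (a, b) := by exact_mod_cast hKpos
  have hlog1 : (Kf (a, b) : ℝ) * Real.log (L + 1) ≤ Real.log n₁ := by
    have h4 : (Km : ℝ) * Real.log (L + 1) ≤ Real.log n₁ := by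
      rw [Real.le_log_iff_exp_le hn1pos]
      refine hM.le.trans ?_
      have : M ≤ n₁ := by omega
      exact_mod_cast this
    have h5 : (Kf (a, b) : ℝ) ≤ Km := by exact_mod_cast hKab
    nlinarith
  have hbound : Real.log n₃ ≤ (1 + 1 / (Kf (a, b) : ℝ)) * Real.log n₁ := by
    have h4 : Real.log (L + 1) ≤ 1 / (Kf (a, b) : ℝ) * Real.log n₁ := by
      rw [one_div, inv_mul_eq_div, le_div_iff₀ (by linarith)]
      linarith
    linarith
  have l12 : Real.log n₁ ≤ Real.log n₂ :=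
    Real.log_le_log hn1pos (by exact_mod_cast h12.le)
  have l23 : Real.log n₂ ≤ Real.log n₃ :=
    Real.log_le_log (by have : 0 < n₂ := by omega
                        exact_mod_cast this) (by exact_mod_cast h23.le)
  have l1 : 0 ≤ Real.log n₁ := Real.log_nonneg hn1le
  have hc : (0 : ℝ) ≤ 1 / (Kf (a, b) : ℝ) := by positivity
  refine hKf2 (a, b) ha1 ![n₁, n₂, n₃] ![T₁, T₂, T₃] ?_ ?_ ?_ ?_ ?_ ?_
  · intro i
    fin_cases i <;> simp <;> omega
  · intro i
    fin_cases i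
    · exact e1
    · exact e2
    · exact e3
  · intro i
    fin_cases i
    · exact hT₁.trans (by linarith)
    · exact hT₂.trans (by linarith)
    · exact hT₃.trans (by linarith)
  · intro i j hij
    fin_cases i <;> fin_cases j <;> simp at hij ⊢ <;> omega
  · intro i j
    have key : ∀ x y : ℝ, Real.log n₁ ≤ y → x ≤ Real.log n₃ →
        x ≤ (1 + 1 / (Kf (a, b) : ℝ)) * y := by
      intro x y hy hx
      calc x ≤ Real.log n₃ := hx
        _ ≤ (1 + 1 / (Kf (a, b) : ℝ)) * Real.log n₁ := hbound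
        _ ≤ (1 + 1 / (Kf (a, b) : ℝ)) * y := by gcongr
    apply key
    · fin_cases j
      · exact le_rfl
      · exact l12
      · exact l12.trans l23
    · fin_cases i
      · exact l12.trans l23
      · exact l23
      · exact le_rfl
  · simp only [hrel, Fin.sum_univ_three]
    simp
    rw [show T₂ = T₁ + a by omega, show T₃ = T₁ + b by omega]
    ring

end Pool.MP01f3ee
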