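import Mathlib
import Pool.Agent.Lib.MP_01f3ee_nt.Defs

set_option autoImplicit false

namespace Pool.MP01f3ee

open Finset

theorem window_stmt : WindowStmt := by
  intro h hh
  refine ⟨(h : ℝ) + ((h.factorial : ℝ) * (3 * h)) ^ (1 / (h : ℝ)), ?_⟩
  intro S Y hY hS hd
  have hh0 : (0 : ℝ) < h := by exact_mod_cast hh
  -- injectivity of the sums
  have hinj : Set.InjOn (fun A : Finset ℤ => ∑ a ∈ A, a) (powersetCard h S : Set (Finset ℤ)) := by
    intro A hA B hB hAB
    rw [Finset.mem_coe, Finset.mem_powersetCard] at hA hB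
    by_contra hne
    have hcard : (A \ B).card = (B \ A).card := by
      have h1 := Finset.card_sdiff_add_card_inter A B
      have h2 := Finset.card_sdiff_add_card_inter B A
      rw [Finset.inter_comm B A] at h2
      omega
    have h1 : 1 ≤ (A \ B).card := by
      rw [Nat.one_le_iff_ne_zero]
      intro h0
      rw [Finset.card_eq_zero, Finset.sdiff_eq_empty_iff_subset] at h0
      exact hne (Finset.eq_of_subset_of_card_le h0 (by omega))
    have h2 : (A \ B).card ≤ h := by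
      rw [← hA.2]
      exact Finset.card_le_card Finset.sdiff_subset
    refine hd (A \ B) (B \ A) (Finset.sdiff_subset.trans hA.1) (Finset.sdiff_subset.trans hB.1)
      ?_ hcard h1 h2 ?_
    · exact disjoint_sdiff_sdiff
    · have e1 := Finset.sum_inter_add_sum_sdiff A B (fun a : ℤ => a)
      have e2 := Finset.sum_inter_add_sum_sdiff B A (fun a : ℤ => a)
      rw [Finset.inter_comm B A] at e2
      have hAB' : ∑ a ∈ A, a = ∑ b ∈ B, b := hAB
      omega
  -- range of the sums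
  have hmaps : ∀ A ∈ powersetCard h S, (∑ a ∈ A, a) ∈ Finset.Icc (0 : ℤ) ⌊2 * (h : ℝ) * Y⌋ := by
    intro A hA
    rw [Finset.mem_powersetCard] at hA
    rw [Finset.mem_Icc]
    constructor
    · exact Finset.sum_nonneg fun a ha => (hS a (hA.1 ha)).1
    · rw [Int.le_floor]
      push_cast
      calc ∑ a ∈ A, (a : ℝ) ≤ ∑ _a ∈ A, (2 * Y) :=
            Finset.sum_le_sum fun a ha => (hS a (hA.1 ha)).2
        _ = 2 * (h : ℝ) * Y := by
            rw [Finset.sum_const, hA.2, nsmul_eq_mul]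
            ring
  have hcount : (S.card.choose h) ≤ (Finset.Icc (0 : ℤ) ⌊2 * (h : ℝ) * Y⌋).card := by
    rw [← Finset.card_powersetCard]
    exact Finset.card_le_card_of_injOn _ hmaps hinj
  have hfl : 0 ≤ ⌊2 * (h : ℝ) * Y⌋ := Int.floor_nonneg.mpr (by positivity)
  have hcount' : ((S.card.choose h : ℕ) : ℝ) ≤ 3 * h * Y := by
    have h1 : ((S.card.choose h : ℕ) : ℝ) ≤ (((Finset.Icc (0 : ℤ) ⌊2 * (h : ℝ) * Y⌋).card : ℕ) : ℝ) := by
      exact_mod_cast hcount
    have h2 : ((((Finset.Icc (0 : ℤ) ⌊2 * (h : ℝ) * Y⌋).card : ℕ) : ℤ) : ℝ) =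
        ((⌊2 * (h : ℝ) * Y⌋ + 1 : ℤ) : ℝ) := by
      congr 1
      rw [Int.card_Icc]
      omega
    have h3 := Int.floor_le (2 * (h : ℝ) * Y)
    push_cast at h2
    rw [h2] at h1
    have h4 : (1 : ℝ) ≤ h := by exact_mod_cast hh
    nlinarith
  have hpow : (((S.card + 1 - h : ℕ) : ℝ)) ^ h ≤ (h.factorial : ℝ) * (3 * h) * Y := by
    have h1 := Nat.pow_le_choose (α := ℝ) h S.card
    have h2 : (0 : ℝ) < h.factorial := by exact_mod_cast h.factorial_pos
    rw [div_le_iff₀ h2] at h1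
    refine h1.trans ?_
    calc ((S.card.choose h : ℕ) : ℝ) * h.factorial ≤ (3 * h * Y) * h.factorial :=
          mul_le_mul_of_nonneg_right hcount' h2.le
      _ = _ := by ring
  have hroot : ((S.card + 1 - h : ℕ) : ℝ) ≤
      ((h.factorial : ℝ) * (3 * h)) ^ (1 / (h : ℝ)) * Y ^ (1 / (h : ℝ)) := by
    have h1 : (((S.card + 1 - h : ℕ) : ℝ) ^ h) ^ (1 / (h : ℝ)) = ((S.card + 1 - h : ℕ) : ℝ) := by
      rw [one_div]
      exact Real.pow_rpow_inv_natCast (Nat.cast_nonneg _) (by omega)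
    rw [← h1, ← Real.mul_rpow (by positivity) (by linarith)]
    exact Real.rpow_le_rpow (by positivity) hpow (by positivity)
  have hY1 : 1 ≤ Y ^ (1 / (h : ℝ)) := Real.one_le_rpow hY (by positivity)
  have hs : (S.card : ℝ) ≤ ((S.card + 1 - h : ℕ) : ℝ) + h := by
    have : S.card ≤ (S.card + 1 - h) + h := by omega
    exact_mod_cast this
  calc (S.card : ℝ) ≤ ((S.card + 1 - h : ℕ) : ℝ) + h := hs
    _ ≤ ((h.factorial : ℝ) * (3 * h)) ^ (1 / (h : ℝ)) * Y ^ (1 / (h : ℝ)) +
        h * Y ^ (1 / (h : ℝ)) := by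
        have : (h : ℝ) * 1 ≤ h * Y ^ (1 / (h : ℝ)) := mul_le_mul_of_nonneg_left hY1 hh0.le
        linarith
    _ = _ := by ring

end Pool.MP01f3ee
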